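import Pool.Agent.Q33.RG.Null

/-!
# Frobenius elements fix radicals of powers
-/

set_option autoImplicit false
set_option linter.unusedSectionVars false

namespace Pool.Agent.Q33.RG

open Filter Topology NumberField IsDedekindDomain
open Pool.Agent.W401.Cheb

variable {K : Type} [Field K] [NumberField K]

lemma coe_smul' (σ : GK K) (x : 𝓞 (AlgebraicClosure K)) :
    ((σ • x : 𝓞 (AlgebraicClosure K)) : AlgebraicClosure K) = σ (x : AlgebraicClosure K) := rfl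

/-- Frobenius elements exist -/
theorem exists_isFrob (v : HeightOneSpectrum (𝓞 K)) : ∃ σ : GK K, IsFrob v σ := by
  have hv := v.isMaximal
  have : Algebra.IsIntegral (𝓞 K) (𝓞 (AlgebraicClosure K)) := by
    refine ⟨fun x => ?_⟩
    have h1 : IsIntegral ℤ x := by
      refine (isIntegral_algebraMap_iff (A := 𝓞 (AlgebraicClosure K)) (B := AlgebraicClosure K)
        RingOfIntegers.coe_injective).1 ?_
      exact x.isIntegral_coe
    exact h1.tower_top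
  obtain ⟨Q, hQ, hQv⟩ := Ideal.exists_ideal_over_maximal_of_isIntegral
    (S := 𝓞 (AlgebraicClosure K)) v.asIdeal (by
      rw [RingHom.injective_iff_ker_eq_bot _ |>.1]
      · exact bot_le
      · intro x y h
        have h1 : algebraMap K (AlgebraicClosure K) (x : K) = algebraMap K _ (y : K) :=
          congrArg (fun z : 𝓞 (AlgebraicClosure K) => (z : AlgebraicClosure K)) h
        exact RingOfIntegers.ext ((algebraMap K (AlgebraicClosure K)).injective h1))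
  have := hQ
  obtain ⟨σ, hσ⟩ := Pool.Agent.W352.ChAbs.exists_frob v Q hQv
  exact ⟨σ, Q, hQ, hQv, hσ⟩

lemma mem_of_root_one {R : Type} [CommRing R] [IsDomain R] (Q : Ideal R) {η : R} {ℓ : ℕ}
    (hη : η ^ ℓ = 1) (h1 : η ≠ 1) (hQ : η - 1 ∈ Q) : (ℓ : R) ∈ Q := by
  have h2 : ∑ i ∈ Finset.range ℓ, η ^ i = 0 := by
    have h3 := mul_geom_sum η ℓ
    rw [hη, sub_self, mul_eq_zero] at h3
    exact h3.resolve_left (sub_ne_zero.2 h1)
  have h4 : (ℓ : R) = -∑ i ∈ Finset.range ℓ, (η ^ i - 1) := by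
    rw [Finset.sum_sub_distrib, h2]
    simp
  rw [h4]
  refine neg_mem (sum_mem fun i _ => ?_)
  have h5 : η - 1 ∣ η ^ i - 1 := by simpa using sub_dvd_pow_sub_pow η 1 i
  exact Q.mem_of_dvd h5 hQ

/-- **Frobenius elements fix radicals.** -/
theorem frob_fixes (v : HeightOneSpectrum (𝓞 K)) {σ : GK K} (hσ : IsFrob v σ) {ℓ : ℕ}
    (hℓ : ℓ.Prime) (hv : (ℓ : 𝓞 K) ∉ v.asIdeal) {b c : K} (hc : c ≠ 0)
    (h : v.valuation K (b * c ^ ℓ - 1) < 1) : σ ∉ Ab b ℓ := by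
  have hpr : Fact ℓ.Prime := ⟨hℓ⟩
  obtain ⟨Q, hQ, hQv, hfr⟩ := hσ
  have hQp : Q.IsPrime := hQ.isPrime
  have hmemQ : ∀ x : 𝓞 K, x ∈ v.asIdeal ↔ algebraMap (𝓞 K) (𝓞 (AlgebraicClosure K)) x ∈ Q := by
    intro x
    rw [← hQv]
    rfl
  set b' := b * c ^ ℓ with hb'
  have hb1 : v.valuation K b' ≤ 1 := by
    have h1 : b' = (b' - 1) + 1 := by ring
    rw [h1]
    refine (Valuation.map_add _ _ _).trans (max_le h.le ?_)
    rw [map_one]
  obtain ⟨n, d, hnd⟩ := v.exists_primeCompl_mul_eq_of_integer b' hb1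
  have hd : (d : 𝓞 K) ∉ v.asIdeal := d.2
  have hd0 : (algebraMap (𝓞 K) K d) ≠ 0 := by
    intro h0
    apply hd
    have : (d : 𝓞 K) = 0 := (FaithfulSMul.algebraMap_injective (𝓞 K) K) (by rw [h0, map_zero])
    rw [this]
    exact zero_mem _
  -- `n ≡ d`
  have hnd' : n - (d : 𝓞 K) ∈ v.asIdeal := by
    rw [← HeightOneSpectrum.valuation_lt_one_iff_mem (K := K)]
    have h1 : algebraMap (𝓞 K) K (n - d) = (b' - 1) * algebraMap (𝓞 K) K d := by
      rw [map_sub, ← hnd]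
      ring
    change v.valuation K (algebraMap (𝓞 K) K (n - d)) < 1
    rw [h1, map_mul]
    exact mul_lt_one_of_lt_of_le h (v.valuation_le_one _)
  set x : 𝓞 K := n * (d : 𝓞 K) ^ (ℓ - 1) with hx
  have hxK : algebraMap (𝓞 K) K x = b' * (algebraMap (𝓞 K) K d) ^ ℓ := by
    rw [hx, map_mul, map_pow, ← hnd, mul_assoc, ← pow_succ', Nat.sub_add_cancel hℓ.one_le]
  have hxd : x - (d : 𝓞 K) ^ ℓ ∈ v.asIdeal := by
    have h1 : x - (d : 𝓞 K) ^ ℓ = (n - d) * (d : 𝓞 K) ^ (ℓ - 1) := by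
      have h2 : (d : 𝓞 K) ^ ℓ = (d : 𝓞 K) * (d : 𝓞 K) ^ (ℓ - 1) := by
        rw [← pow_succ', Nat.sub_add_cancel hℓ.one_le]
      rw [hx, h2]
      ring
    rw [h1]
    exact Ideal.mul_mem_right _ _ hnd'
  -- a root
  obtain ⟨β0, hβ0⟩ := IsAlgClosed.exists_pow_nat_eq
    (algebraMap K (AlgebraicClosure K) (algebraMap (𝓞 K) K x)) hℓ.pos
  have hint : IsIntegral ℤ β0 := by
    refine IsIntegral.of_pow hℓ.pos ?_
    rw [hβ0]
    exact x.isIntegral_coe.algebraMap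
  let β : 𝓞 (AlgebraicClosure K) := ⟨β0, hint⟩
  have hβ : β ^ ℓ = algebraMap (𝓞 K) (𝓞 (AlgebraicClosure K)) x := RingOfIntegers.ext hβ0
  have hcA : CharZero (AlgebraicClosure K) :=
    charZero_of_injective_algebraMap (algebraMap K _).injective
  obtain ⟨ζ0, hζ0⟩ := exists_prim (AlgebraicClosure K) ℓ
  have hζint : IsIntegral ℤ ζ0 := by
    refine IsIntegral.of_pow hℓ.pos ?_
    rw [hζ0.pow_eq_one]
    exact isIntegral_one
  let ζ : 𝓞 (AlgebraicClosure K) := ⟨ζ0, hζint⟩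
  have hζ : IsPrimitiveRoot ζ ℓ := by
    refine IsPrimitiveRoot.of_map_of_injective (f := algebraMap (𝓞 (AlgebraicClosure K))
      (AlgebraicClosure K)) ?_ RingOfIntegers.coe_injective
    exact hζ0
  set δ : 𝓞 (AlgebraicClosure K) := algebraMap (𝓞 K) (𝓞 (AlgebraicClosure K)) d with hδ
  have hprod : ∏ η ∈ Polynomial.nthRootsFinset ℓ (1 : 𝓞 (AlgebraicClosure K)), (δ - η * β) ∈ Q := by
    rw [← hζ.pow_sub_pow_eq_prod_sub_mul δ β hℓ.pos, hβ, hδ, ← map_pow, ← map_sub, ← hmemQ,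
      ← neg_sub]
    exact neg_mem hxd
  obtain ⟨η0, hη0, hη0Q⟩ := hQp.prod_mem_iff.1 hprod
  rw [Polynomial.mem_nthRootsFinset hℓ.pos] at hη0
  set β' := η0 * β with hβ'
  have hβ'ℓ : β' ^ ℓ = algebraMap (𝓞 K) (𝓞 (AlgebraicClosure K)) x := by
    rw [hβ', mul_pow, hη0, one_mul, hβ]
  have hβ'Q : β' ∉ Q := by
    intro h1
    have h2 : algebraMap (𝓞 K) (𝓞 (AlgebraicClosure K)) x ∈ Q := by
      rw [← hβ'ℓ]
      exact Ideal.pow_mem_of_mem Q h1 ℓ hℓ.pos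
    rw [← hmemQ] at h2
    have h3 : (d : 𝓞 K) ^ ℓ ∈ v.asIdeal := by
      have h4 : (d : 𝓞 K) ^ ℓ = x - (x - (d : 𝓞 K) ^ ℓ) := by ring
      rw [h4]
      exact sub_mem h2 hxd
    exact hd (v.isPrime.mem_of_pow_mem ℓ h3)
  have hσδ : σ • δ = δ := by
    apply RingOfIntegers.ext
    rw [coe_smul']
    exact σ.commutes (algebraMap (𝓞 K) K d)
  have hσβ : σ • β' - β' ∈ Q := by
    have h1 := hfr β'
    have h2 := hfr δ
    rw [hσδ] at h2
    have h3 : β' ^ Ideal.absNorm v.asIdeal - δ ^ Ideal.absNorm v.asIdeal ∈ Q := by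
      refine Q.mem_of_dvd (sub_dvd_pow_sub_pow β' δ _) ?_
      rw [← neg_sub]
      exact neg_mem hη0Q
    have h4 : σ • β' - β' = (σ • β' - β' ^ Ideal.absNorm v.asIdeal) +
        (β' ^ Ideal.absNorm v.asIdeal - δ ^ Ideal.absNorm v.asIdeal) -
        (δ - δ ^ Ideal.absNorm v.asIdeal) + (δ - β') := by ring
    rw [h4]
    exact add_mem (sub_mem (add_mem h1 h3) h2) hη0Q
  have hσβ' : (σ • β') ^ ℓ = algebraMap (𝓞 K) (𝓞 (AlgebraicClosure K)) x := by
    apply RingOfIntegers.ext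
    have h1 := congrArg (fun z : 𝓞 (AlgebraicClosure K) => σ (z : AlgebraicClosure K)) hβ'ℓ
    have h2 : σ ((β' : AlgebraicClosure K) ^ ℓ) =
      σ (algebraMap K (AlgebraicClosure K) (algebraMap (𝓞 K) K x)) := h1
    rw [map_pow, AlgEquiv.commutes] at h2
    exact h2
  -- `σ` fixes `β'`
  have hfix : σ (β' : AlgebraicClosure K) = β' := by
    have hβ'0 : (β' : AlgebraicClosure K) ≠ 0 := by
      intro h0
      apply hβ'Q
      have : β' = 0 := RingOfIntegers.ext h0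
      rw [this]
      exact zero_mem _
    set e := σ (β' : AlgebraicClosure K) / β' with he
    have heℓ : e ^ ℓ = 1 := by
      have h1 := congrArg (fun z : 𝓞 (AlgebraicClosure K) => (z : AlgebraicClosure K)) hσβ'
      have h2 := congrArg (fun z : 𝓞 (AlgebraicClosure K) => (z : AlgebraicClosure K)) hβ'ℓ
      have h3 : (σ (β' : AlgebraicClosure K)) ^ ℓ = (β' : AlgebraicClosure K) ^ ℓ :=
        h1.trans h2.symm
      rw [he, div_pow, h3, div_self (pow_ne_zero _ hβ'0)]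
    have heint : IsIntegral ℤ e := by
      refine IsIntegral.of_pow hℓ.pos ?_
      rw [heℓ]
      exact isIntegral_one
    let ε : 𝓞 (AlgebraicClosure K) := ⟨e, heint⟩
    have hε : ε ^ ℓ = 1 := RingOfIntegers.ext heℓ
    have hεβ : σ • β' = ε * β' := by
      apply RingOfIntegers.ext
      change σ (β' : AlgebraicClosure K) = e * β'
      rw [he, div_mul_cancel₀ _ hβ'0]
    rw [hεβ] at hσβ
    have h1 : (ε - 1) * β' ∈ Q := by
      have h2 : (ε - 1) * β' = ε * β' - β' := by ring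
      rw [h2]
      exact hσβ
    have h2 : ε - 1 ∈ Q := (hQp.mem_or_mem h1).resolve_right hβ'Q
    have h3 : ε = 1 := by
      by_contra h4
      have h5 := mem_of_root_one Q hε h4 h2
      apply hv
      rw [hmemQ, map_natCast]
      exact h5
    have h4 : e = 1 := congrArg (fun z : 𝓞 (AlgebraicClosure K) => (z : AlgebraicClosure K)) h3
    rw [he, div_eq_one_iff_eq hβ'0] at h4
    exact h4
  intro hA
  have hcA' : algebraMap K (AlgebraicClosure K) (c * algebraMap (𝓞 K) K d) ≠ 0 :=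
    (map_ne_zero _).2 (mul_ne_zero hc hd0)
  apply hA ((β' : AlgebraicClosure K) / algebraMap K _ (c * algebraMap (𝓞 K) K d))
  · have h2 : (β' : AlgebraicClosure K) ^ ℓ = algebraMap K _ (algebraMap (𝓞 K) K x) :=
      congrArg (fun z : 𝓞 (AlgebraicClosure K) => (z : AlgebraicClosure K)) hβ'ℓ
    rw [div_pow, h2, ← map_pow, ← map_div₀, hxK, hb']
    congr 1
    field_simp
    rw [mul_pow]
    ring
  · rw [map_div₀, hfix, AlgEquiv.commutes]

/-- **The density theorem for radicals.** -/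
theorem dens_kummer (b : ℕ → K)
    (hb : ∀ᶠ ℓ in Filter.cofinite, ℓ.Prime → b ℓ ≠ 0 ∧ ∀ c : K, c ^ ℓ ≠ b ℓ) :
    Tendsto (dens fun v : HeightOneSpectrum (𝓞 K) => ∀ ℓ : ℕ, ℓ.Prime → (ℓ : 𝓞 K) ∉ v.asIdeal →
      ∃ c : K, c ≠ 0 ∧ v.valuation K (b ℓ * c ^ ℓ - 1) < 1) atTop (𝓝 0) := by
  obtain ⟨Λ, hΛ, hlim⟩ := dens_ZZ b hb
  refine squeeze_zero (fun N => Pool.Agent.W528.Ord.dens_nonneg _ _) (fun N =>
    Pool.Agent.W528.Ord.dens_mono ?_ N) hlim
  intro v hv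
  obtain ⟨σ, hσ⟩ := exists_isFrob v
  refine ⟨σ, ?_, hσ⟩
  intro ℓ hℓ ℓ' hℓ' hne
  by_cases h : (ℓ : 𝓞 K) ∈ v.asIdeal
  · right
    have h' : (ℓ' : 𝓞 K) ∉ v.asIdeal := by
      intro h'
      have hc : IsCoprime (ℓ : ℤ) (ℓ' : ℤ) := Nat.isCoprime_iff_coprime.2
        ((Nat.coprime_primes (hΛ ℓ hℓ) (hΛ ℓ' hℓ')).2 hne)
      obtain ⟨s, t, hst⟩ := hc
      apply v.isPrime.ne_top
      rw [Ideal.eq_top_iff_one]
      have h3 : (1 : 𝓞 K) = (s : 𝓞 K) * (ℓ : 𝓞 K) + (t : 𝓞 K) * (ℓ' : 𝓞 K) := by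
        have := congrArg (Int.cast : ℤ → 𝓞 K) hst
        push_cast at this
        exact this.symm
      rw [h3]
      exact add_mem (Ideal.mul_mem_left _ _ h) (Ideal.mul_mem_left _ _ h')
    obtain ⟨c, hc0, hc⟩ := hv ℓ' (hΛ ℓ' hℓ') h'
    exact frob_fixes v hσ (hΛ ℓ' hℓ') h' hc0 hc
  · left
    obtain ⟨c, hc0, hc⟩ := hv ℓ (hΛ ℓ hℓ) h
    exact frob_fixes v hσ (hΛ ℓ hℓ) h hc0 hc

end Pool.Agent.Q33.RG
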