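import Pool.Agent.Q33.BSec.Bir
import Pool.Agent.Y46.G2.EmbA
import Pool.Agent.Q33.RG.Frob

/-!
# Semilinear actions and families of local points
-/

set_option autoImplicit false
set_option linter.unusedSectionVars false

open IsDedekindDomain NumberField

namespace Pool.Agent.Q33.RG

open Pool.Agent.TH841.NF
open Pool.Agent.Q33.SecL (Pt exists_compat LL mem_LL mem_LL_of_fixed norm_pow_mem LL_finite
  LL_finrank mem_of_pow_mem')
open Pool.Agent.W620.SC (exists_fixed_multiple root_mem mem_of_fixed)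
open Pool.Agent.Q33.BSec (Cpl jc_cont mem_pls)

/-- a semilinear action of the Galois group of `B/K` on the extension `M` of `B` -/
structure Act (K B M : Type) [Field K] [Field B] [Field M] [Algebra K B] [Algebra B M] where
  s : (B ≃ₐ[K] B) →* RingAut M
  sec : ∀ (g : B ≃ₐ[K] B) (z : B), s g (algebraMap B M z) = algebraMap B M (g z)
  fixes : ∀ w : M, ∃ E : IntermediateField K B, FiniteDimensional K E ∧
    ∀ g ∈ E.fixingSubgroup, s g w = w

/-- a family of points over all embeddings of `B`, compatible with the action -/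
structure Fam {K B M : Type} [Field K] [Field B] [Field M] [Algebra K B] [Algebra B M]
    (A : Act K B M) where
  P : ∀ (p : ℕ) [Fact p.Prime] (κ : B →+* PadicAlgCl p), Pt B M κ
  move : ∀ (p : ℕ) [Fact p.Prime] (κ : B →+* PadicAlgCl p) (τ : B ≃ₐ[K] B) (y : M)
    (c : PadicAlgCl p), (P p (κ.comp (τ : B →+* B))).Val y c ↔ (P p κ).Val (A.s τ y) c
  equi : ∀ (p : ℕ) [Fact p.Prime] (κ : B →+* PadicAlgCl p)
    (σ : PadicAlgCl p ≃ₐ[ℚ_[p]] PadicAlgCl p) (g : B ≃ₐ[K] B), (∀ z, κ (g z) = σ (κ z)) →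
    ∀ (y : M) (c : PadicAlgCl p), (P p κ).Val y c → (P p κ).Val (A.s g y) (σ c)

section pt

variable {B M : Type} [Field B] [Field M] [Algebra B M] {p : ℕ} [Fact p.Prime]
  {κ : B →+* PadicAlgCl p} (P : Pt B M κ)

lemma pt_inv {y : M} {c : PadicAlgCl p} (h : P.Val y c) (hc : c ≠ 0) : P.Val y⁻¹ c⁻¹ := by
  obtain ⟨h1, rfl⟩ := h
  have h2 : y⁻¹ ∈ P.W := P.loc ⟨y, h1⟩ hc
  refine ⟨h2, ?_⟩
  have hy : y ≠ 0 := by
    rintro rfl
    exact hc (map_zero P.ρ)
  have h3 : P.ρ ⟨y, h1⟩ * P.ρ ⟨y⁻¹, h2⟩ = 1 := by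
    rw [← map_mul, ← map_one P.ρ]
    congr 1
    exact Subtype.ext (mul_inv_cancel₀ hy)
  exact eq_inv_of_mul_eq_one_right h3

lemma pt_inv_nm {y : M} (h : y ∉ P.W) : P.Val y⁻¹ 0 := by
  have h1 : y⁻¹ ∈ P.W := (P.W.mem_or_inv_mem y).resolve_left h
  refine ⟨h1, ?_⟩
  by_contra h2
  have h3 := P.loc ⟨y⁻¹, h1⟩ h2
  rw [inv_inv] at h3
  exact h h3

lemma pt_add {x y : M} {c d : PadicAlgCl p} (h : P.Val x c) (h' : P.Val y d) :
    P.Val (x + y) (c + d) := by
  obtain ⟨h1, rfl⟩ := h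
  obtain ⟨h2, rfl⟩ := h'
  exact ⟨add_mem h1 h2, by rw [← map_add]; rfl⟩

lemma pt_one : P.Val 1 1 := ⟨one_mem _, map_one P.ρ⟩

lemma pt_zero : P.Val 0 0 := ⟨zero_mem _, map_zero P.ρ⟩

lemma pt_alg (z : B) : P.Val (algebraMap B M z) (κ z) := P.comm z

lemma pt_ne {y : M} {c : PadicAlgCl p} (h : P.Val y c) (hc : c ≠ 0) : y ≠ 0 := by
  rintro rfl
  exact hc (h.unique (pt_zero P))

lemma pt_nm {y : M} (hy : y ≠ 0) (h : P.Val y⁻¹ 0) : y ∉ P.W := by
  intro h1
  have h2 : P.Val (y * y⁻¹) (P.ρ ⟨y, h1⟩ * 0) := Pool.Agent.Q33.SecL.Pt.Val.mul ⟨h1, rfl⟩ h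
  rw [mul_inv_cancel₀ hy, mul_zero] at h2
  exact one_ne_zero ((pt_one P).unique h2)

end pt

section kummer

variable {K B M : Type} [Field K] [CharZero K] [Field B] [Field M] [Algebra K B] [Algebra B M]
  [IsAlgClosed B] [Algebra.IsAlgebraic K B] [IsAlgClosed M]

/-- **Kummer classes.** -/
theorem Act.kummer (A : Act K B M) {u : M} (hu0 : u ≠ 0) (hu : ∀ g, A.s g u = u) {N : ℕ}
    (hN : 0 < N) : ∃ a : K, a ≠ 0 ∧ ∃ g : M, g ≠ 0 ∧
      u = algebraMap B M (algebraMap K B a) * g ^ N ∧ ∀ σ, A.s σ g = g := by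
  have hcl : IsAlgClosure K B := ⟨inferInstance, inferInstance⟩
  have hNo : Normal K B := IsAlgClosure.normal K B
  have hG : IsGalois K B := ⟨⟩
  obtain ⟨w, hw⟩ := IsAlgClosed.exists_pow_nat_eq u hN
  have hw0 : w ≠ 0 := by
    rintro rfl
    rw [zero_pow hN.ne'] at hw
    exact hu0 hw.symm
  obtain ⟨E, hE, hEw⟩ := A.fixes w
  obtain ⟨β, hβ0, hβ⟩ := exists_fixed_multiple A.s (algebraMap B M) A.sec ⊤ w hw0 (by
      intro σ _
      have h1 : (A.s σ w / w) ^ N = algebraMap B M 1 := by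
        rw [div_pow, ← map_pow, hw, hu, map_one, div_self hu0]
      obtain ⟨ζ, hζ⟩ := root_mem (algebraMap B M) hN h1
      refine ⟨ζ, ?_⟩
      rw [hζ, div_mul_cancel₀ _ hw0]) E hEw
  have hβ' : ∀ σ, A.s σ (algebraMap B M β * w) = algebraMap B M β * w := fun σ =>
    hβ σ (Subgroup.mem_top σ)
  have hj0 : algebraMap B M β ≠ 0 := (map_ne_zero _).2 hβ0
  have hβK : β ^ N ∈ Set.range (algebraMap K B) := by
    rw [InfiniteGalois.mem_range_algebraMap_iff_fixed]
    intro σ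
    have h2 : A.s σ ((algebraMap B M β * w) ^ N) = (algebraMap B M β * w) ^ N := by
      rw [map_pow, hβ']
    rw [mul_pow, map_mul, hw, hu] at h2
    have h3 := mul_right_cancel₀ hu0 h2
    rw [← map_pow, A.sec] at h3
    exact (algebraMap B M).injective h3
  obtain ⟨a, ha⟩ := hβK
  have ha0 : a ≠ 0 := by
    rintro rfl
    rw [map_zero] at ha
    exact pow_ne_zero N hβ0 ha.symm
  refine ⟨a⁻¹, inv_ne_zero ha0, algebraMap B M β * w, mul_ne_zero hj0 hw0, ?_, hβ'⟩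
  rw [map_inv₀, map_inv₀, ha, mul_pow, hw, map_pow, ← mul_assoc,
    inv_mul_cancel₀ (pow_ne_zero N hj0), one_mul]

end kummer

section values

variable {K B M : Type} [Field K] [NumberField K] [Field B] [Field M] [Algebra K B] [Algebra B M]
  [IsAlgClosed B] [Algebra.IsAlgebraic K B] {A : Act K B M}

/-- the embedding of `K` -/
noncomputable abbrev rs (K : Type) {B : Type} [Field K] [Field B] [Algebra K B] {p : ℕ} [Fact p.Prime]
    (κ : B →+* PadicAlgCl p) : K →+* PadicAlgCl p := κ.comp (algebraMap K B)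

/-- values of fixed elements are in the completion -/
theorem Fam.mem_LL (Q : Fam A) {g : M} (hg : ∀ σ, A.s σ g = g) {p : ℕ} [Fact p.Prime]
    (κ : B →+* PadicAlgCl p) {c : PadicAlgCl p} (h : (Q.P p κ).Val g c) : c ∈ LL (rs K κ) := by
  apply mem_LL_of_fixed
  intro σ hσ
  obtain ⟨h', hh⟩ := exists_compat (K := K) κ ((σ : PadicAlgCl p →+* PadicAlgCl p).comp κ) (by
    ext c
    exact (hσ c).symm)
  have h3 := Q.equi p κ σ h' hh g c h
  rw [hg] at h3
  exact h3.unique h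

/-- the completion contains the local field -/
theorem LL_le_range {p : ℕ} [Fact p.Prime] (φ : K →+* PadicAlgCl p) {c : PadicAlgCl p}
    (hc : c ∈ LL φ) : ∃ y : Cpl φ, jc φ y = c := by
  have h1 : ∀ r : ℚ_[p], jc φ (Pool.Agent.Y682.pth (mem_pls φ) r) =
      algebraMap ℚ_[p] (PadicAlgCl p) r := by
    have hd : DenseRange ((↑) : ℚ → ℚ_[p]) := Padic.denseRange_ratCast p
    have hc1 : Continuous fun r : ℚ_[p] => jc φ (Pool.Agent.Y682.pth (mem_pls φ) r) :=
      (jc_cont φ).comp (Pool.Agent.Y811.CTK.pth_cont (mem_pls φ))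
    have hc2 : Continuous fun r : ℚ_[p] => algebraMap ℚ_[p] (PadicAlgCl p) r :=
      continuous_algebraMap _ _
    have h2 := hd.equalizer hc1 hc2 (by
      funext q
      change jc φ (Pool.Agent.Y682.pth (mem_pls φ) (q : ℚ_[p])) =
        algebraMap ℚ_[p] (PadicAlgCl p) (q : ℚ_[p])
      rw [map_ratCast, map_ratCast, map_ratCast])
    exact fun r => congrFun h2 r
  let S : IntermediateField ℚ_[p] (PadicAlgCl p) :=
    { (jc φ).fieldRange with
      algebraMap_mem' := fun r => ⟨_, h1 r⟩ }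
  have hS : LL φ ≤ S := by
    unfold LL
    rw [IntermediateField.adjoin_le_iff]
    rintro _ ⟨z, rfl⟩
    exact ⟨algebraMap K _ z, jc_coe φ z⟩
  obtain ⟨y, hy⟩ := hS hc
  exact ⟨y, hy⟩

/-- approximation -/
theorem exists_near {p : ℕ} [Fact p.Prime] (φ : K →+* PadicAlgCl p) {c : PadicAlgCl p}
    (hc : c ∈ LL φ) {U : Set (PadicAlgCl p)} (hU : IsOpen U) (hcU : c ∈ U) :
    ∃ e : K, φ e ∈ U := by
  obtain ⟨y, rfl⟩ := LL_le_range φ hc
  have hd : DenseRange (algebraMap K (Cpl φ)) := (pls φ).denseRange_algebraMap K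
  obtain ⟨e, he⟩ := hd.exists_mem_open (hU.preimage (jc_cont φ)) ⟨y, hcU⟩
  refine ⟨e, ?_⟩
  rw [← jc_coe φ e]
  exact he

end values

end Pool.Agent.Q33.RG
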