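import Pool.Agent.Q33.RG.Rig2

/-!
# Base change of actions and families; all places are not of density zero
-/

set_option autoImplicit false
set_option linter.unusedSectionVars false

open IsDedekindDomain NumberField Filter Topology

namespace Pool.Agent.Q33.RG

open Pool.Agent.TH841.NF
open Pool.Agent.W401.Cheb (dens IsFrob GK)
open Pool.Agent.Q33.SecL (Pt)

section all

variable {K : Type} [Field K] [NumberField K]

/-- all places are not of density zero -/
lemma not_null_true : ¬ Null fun _ : HeightOneSpectrum (𝓞 K) => True := by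
  intro h
  have h1 := Pool.Agent.W528.Ord.chebK K ⊤ (by
    rw [Subgroup.coe_top]
    exact isOpen_univ) Set.univ (fun _ _ _ => Set.mem_univ _) (fun _ _ _ _ => Set.mem_univ _)
  have h2 : (fun v : HeightOneSpectrum (𝓞 K) => ∃ σ ∈ (Set.univ : Set (GK K)), IsFrob v σ) =
      fun _ => True := by
    funext v
    obtain ⟨σ, hσ⟩ := exists_isFrob v
    exact eq_true ⟨σ, Set.mem_univ _, hσ⟩
  rw [h2] at h1
  have h3 := tendsto_nhds_unique h h1
  have h4 : Nat.card (GK K ⧸ (⊤ : Subgroup (GK K))) = 1 := by
    have := QuotientGroup.subsingleton_quotient_top (G := GK K)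
    exact Nat.card_of_subsingleton (QuotientGroup.mk 1)
  have h5 : ((QuotientGroup.mk : GK K → GK K ⧸ (⊤ : Subgroup (GK K))) '' Set.univ) =
      {QuotientGroup.mk 1} := by
    have := QuotientGroup.subsingleton_quotient_top (G := GK K)
    ext x
    rw [Set.mem_singleton_iff]
    refine ⟨fun _ => Subsingleton.elim _ _, ?_⟩
    rintro rfl
    exact ⟨1, Set.mem_univ _, rfl⟩
  rw [h4, h5, Set.ncard_singleton] at h3
  norm_num at h3

end all

section bc

variable {K B M : Type} [Field K] [Field B] [Field M] [Algebra K B] [Algebra B M]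

/-- automorphisms over the larger field -/
def resE (E : IntermediateField K B) : (B ≃ₐ[E] B) →* (B ≃ₐ[K] B) where
  toFun g := g.restrictScalars K
  map_one' := rfl
  map_mul' _ _ := rfl

/-- the action over a finite extension -/
noncomputable def Act.bc (A : Act K B M) (E : IntermediateField K B) [FiniteDimensional K E] :
    Act E B M where
  s := A.s.comp (resE E)
  sec := fun g z => A.sec (resE E g) z
  fixes := by
    intro w
    obtain ⟨E', hE', h⟩ := A.fixes w
    refine ⟨IntermediateField.extendScalars (le_sup_left : E ≤ E ⊔ E'), ?_, ?_⟩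
    · have h1 : FiniteDimensional K ↥(E ⊔ E') := inferInstance
      have h2 : FiniteDimensional K
          ↥(IntermediateField.extendScalars (le_sup_left : E ≤ E ⊔ E')) := h1
      exact FiniteDimensional.right K E _
    · intro g hg
      apply h
      rw [IntermediateField.mem_fixingSubgroup_iff] at hg ⊢
      intro x hx
      exact hg x ((le_sup_right : E' ≤ E ⊔ E') hx)

lemma Act.bc_s (A : Act K B M) (E : IntermediateField K B) [FiniteDimensional K E]
    (g : B ≃ₐ[E] B) (y : M) : (A.bc E).s g y = A.s (resE E g) y := rfl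

/-- the family over a finite extension -/
noncomputable def Fam.bc {A : Act K B M} (Q : Fam A) (E : IntermediateField K B)
    [FiniteDimensional K E] : Fam (A.bc E) where
  P := fun p _ κ => Q.P p κ
  move := fun p _ κ τ y c => Q.move p κ (resE E τ) y c
  equi := fun p _ κ σ g hg y c hy => Q.equi p κ σ (resE E g) hg y c hy

lemma Fam.bc_P {A : Act K B M} (Q : Fam A) (E : IntermediateField K B)
    [FiniteDimensional K E] (p : ℕ) [Fact p.Prime] (κ : B →+* PadicAlgCl p) :
    (Q.bc E).P p κ = Q.P p κ := rfl

/-- finitely many elements are fixed over a common finite extension -/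
lemma Act.fixes_list (A : Act K B M) (l : List M) : ∃ E : IntermediateField K B,
    FiniteDimensional K E ∧ ∀ w ∈ l, ∀ g ∈ E.fixingSubgroup, A.s g w = w := by
  induction l with
  | nil => exact ⟨⊥, inferInstance, by simp⟩
  | cons a l ih =>
    obtain ⟨E, hE, h⟩ := ih
    obtain ⟨E', hE', h'⟩ := A.fixes a
    refine ⟨E ⊔ E', inferInstance, ?_⟩
    intro w hw g hg
    rw [IntermediateField.mem_fixingSubgroup_iff] at hg
    rcases List.mem_cons.1 hw with rfl | hw
    · apply h'
      rw [IntermediateField.mem_fixingSubgroup_iff]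
      exact fun x hx => hg x ((le_sup_right : E' ≤ E ⊔ E') hx)
    · apply h w hw
      rw [IntermediateField.mem_fixingSubgroup_iff]
      exact fun x hx => hg x ((le_sup_left : E ≤ E ⊔ E') hx)

variable {M' : Type} [Field M'] [Algebra B M']

/-- finitely many elements are fixed over a common finite extension -/
lemma exists_common (A : Act K B M) (A' : Act K B M') (l : List M) (l' : List M') :
    ∃ (E : IntermediateField K B) (_ : FiniteDimensional K E),
      (∀ w ∈ l, ∀ g, (A.bc E).s g w = w) ∧ ∀ w ∈ l', ∀ g, (A'.bc E).s g w = w := by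
  obtain ⟨E, hE, h⟩ := A.fixes_list l
  obtain ⟨E', hE', h'⟩ := A'.fixes_list l'
  have key : ∀ (g : B ≃ₐ[↥(E ⊔ E')] B) (x : B), x ∈ E ⊔ E' → g x = x := fun g x hx =>
    g.commutes ⟨x, hx⟩
  refine ⟨E ⊔ E', inferInstance, ?_, ?_⟩
  · intro w hw g
    refine h w hw (resE _ g) ?_
    rw [IntermediateField.mem_fixingSubgroup_iff]
    exact fun x hx => key g x ((le_sup_left : E ≤ E ⊔ E') hx)
  · intro w hw g
    refine h' w hw (resE _ g) ?_
    rw [IntermediateField.mem_fixingSubgroup_iff]
    exact fun x hx => key g x ((le_sup_right : E' ≤ E ⊔ E') hx)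

end bc

end Pool.Agent.Q33.RG
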