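import Mathlib

/-!
# The cyclotomic character of a number field is surjective away from a modulus
-/

set_option autoImplicit false
set_option linter.unusedSectionVars false

namespace Pool.Agent.Q33.RG

section

variable {K A : Type} [Field K] [NumberField K] [Field A] [Algebra K A] [IsAlgClosed A]
  [Algebra.IsAlgebraic K A]

lemma pow_congr {A : Type} [Field A] {ζ : A} {n : ℕ} (h : ζ ^ n = 1) {i j : ℕ}
    (hij : (i : ZMod n) = j) : ζ ^ i = ζ ^ j := by
  have h1 : i % n = j % n := (ZMod.natCast_eq_natCast_iff _ _ _).1 hij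
  rw [pow_eq_pow_mod i h, h1, ← pow_eq_pow_mod j h]

/-- `σ` raises the `n`-th roots of unity to the power `a` -/
def Acts {K A : Type} [Field K] [Field A] [Algebra K A] (σ : A ≃ₐ[K] A) (n : ℕ) (a : ZMod n) :
    Prop := ∀ ζ : A, ζ ^ n = 1 → σ ζ = ζ ^ a.val

lemma acts_iff {K A : Type} [Field K] [Field A] [Algebra K A] {n : ℕ} [NeZero n] {μ : A}
    (hμ : IsPrimitiveRoot μ n) (σ : A ≃ₐ[K] A) (a : (ZMod n)ˣ) :
    Acts σ n (a : ZMod n) ↔ hμ.autToPow K σ = a := by
  constructor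
  · intro h
    have h1 := h μ hμ.pow_eq_one
    rw [← hμ.autToPow_spec K σ] at h1
    ext
    apply ZMod.val_injective
    exact hμ.pow_inj (ZMod.val_lt _) (ZMod.val_lt _) h1
  · rintro rfl ζ hζ
    obtain ⟨i, -, rfl⟩ := hμ.eq_pow_of_pow_eq_one hζ
    rw [map_pow, ← hμ.autToPow_spec K σ, ← pow_mul, ← pow_mul, mul_comm]

lemma exists_prim (A : Type) [Field A] [CharZero A] [IsAlgClosed A] (n : ℕ) [NeZero n] :
    ∃ μ : A, IsPrimitiveRoot μ n := by
  have : NeZero (n : A) := ⟨by exact_mod_cast NeZero.ne n⟩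
  exact HasEnoughRootsOfUnity.exists_primitiveRoot A n

/-- over the rational numbers -/
lemma exists_acts_rat (A : Type) [Field A] [CharZero A] [IsAlgClosed A] [Algebra.IsAlgebraic ℚ A]
    {n : ℕ} [NeZero n] {μ : A} (hμ : IsPrimitiveRoot μ n) (a : (ZMod n)ˣ) :
    ∃ σ : A ≃ₐ[ℚ] A, σ μ = μ ^ (a : ZMod n).val := by
  have hcl : IsAlgClosure ℚ A := ⟨inferInstance, inferInstance⟩
  have hN : Normal ℚ A := IsAlgClosure.normal ℚ A
  have hirr := Polynomial.cyclotomic.irreducible_rat (NeZero.pos n)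
  have hμ' : IsPrimitiveRoot (μ ^ (a : ZMod n).val) n :=
    hμ.pow_of_coprime _ (ZMod.val_coe_unit_coprime a)
  have h1 := hμ.minpoly_eq_cyclotomic_of_irreducible hirr
  refine minpoly.exists_algEquiv_of_root' (Algebra.IsAlgebraic.isAlgebraic μ) ?_
  rw [← h1]
  have h2 := hμ'.isRoot_cyclotomic (NeZero.pos n)
  rw [Polynomial.IsRoot.def] at h2
  rw [Polynomial.aeval_def, Polynomial.eval₂_eq_eval_map, Polynomial.map_cyclotomic]
  exact h2

variable (K A) in
/-- the index of the image of the cyclotomic character is at most the degree -/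
lemma index_le {n : ℕ} [NeZero n] {μ : A} (hμ : IsPrimitiveRoot μ n) :
    (hμ.autToPow K).range.index ≤ Module.finrank ℚ K := by
  classical
  have hc : CharZero A := charZero_of_injective_algebraMap (algebraMap K A).injective
  have halg : Algebra.IsAlgebraic ℚ A := Algebra.IsAlgebraic.trans ℚ K A
  choose σ hσ using fun a : (ZMod n)ˣ => exists_acts_rat A hμ a
  let f : (ZMod n)ˣ ⧸ (hμ.autToPow K).range → (K →ₐ[ℚ] A) := fun q =>
    ((σ q.out : A ≃ₐ[ℚ] A) : A →ₐ[ℚ] A).comp (IsScalarTower.toAlgHom ℚ K A)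
  have hf : Function.Injective f := by
    intro q q' h
    rw [← QuotientGroup.out_eq' q, ← QuotientGroup.out_eq' q', QuotientGroup.eq]
    set a := q.out
    set b := q'.out
    have hK : ∀ c : K, ((σ a)⁻¹ * σ b : A ≃ₐ[ℚ] A) (algebraMap K A c) = algebraMap K A c := by
      intro c
      have h1 : σ a (algebraMap K A c) = σ b (algebraMap K A c) := DFunLike.congr_fun h c
      change (σ a).symm (σ b (algebraMap K A c)) = _
      rw [← h1, AlgEquiv.symm_apply_apply]
    let τ : A ≃ₐ[K] A := AlgEquiv.ofRingEquiv (f := (((σ a)⁻¹ * σ b : A ≃ₐ[ℚ] A) : A ≃+* A)) hK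
    refine ⟨τ, ?_⟩
    rw [← acts_iff]
    intro ζ hζ
    obtain ⟨i, -, rfl⟩ := hμ.eq_pow_of_pow_eq_one hζ
    have h2 : τ μ = μ ^ ((a⁻¹ * b : (ZMod n)ˣ) : ZMod n).val := by
      change (σ a).symm (σ b μ) = _
      rw [hσ b, AlgEquiv.symm_apply_eq, map_pow, hσ a, ← pow_mul]
      apply pow_congr hμ.pow_eq_one
      rw [Nat.cast_mul, ZMod.natCast_zmod_val, ZMod.natCast_zmod_val, ZMod.natCast_zmod_val,
        Units.val_mul, Units.mul_inv_cancel_left]
    rw [map_pow, h2, ← pow_mul, ← pow_mul, mul_comm]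
  rw [Subgroup.index_eq_card, ← AlgHom.card ℚ K A, ← Nat.card_eq_fintype_card]
  exact Nat.card_le_card_of_injective f hf

/-- **Surjectivity away from a modulus.** -/
theorem exists_modulus : ∃ m : ℕ, 0 < m ∧ ∀ N : ℕ, 0 < N → Nat.Coprime m N →
    ∀ a : (ZMod N)ˣ, ∃ σ : A ≃ₐ[K] A, Acts σ N (a : ZMod N) := by
  classical
  have hc : CharZero A := charZero_of_injective_algebraMap (algebraMap K A).injective
  choose μ hμ using fun n : {n : ℕ // 0 < n} =>
    haveI : NeZero n.1 := ⟨n.2.ne'⟩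
    exists_prim A n.1
  let idx : {n : ℕ // 0 < n} → ℕ := fun n =>
    haveI : NeZero n.1 := ⟨n.2.ne'⟩
    ((hμ n).autToPow K).range.index
  have hidx : ∀ n, idx n ≤ Module.finrank ℚ K := by
    intro n
    have : NeZero n.1 := ⟨n.2.ne'⟩
    exact index_le K A (hμ n)
  obtain ⟨m, hm⟩ : ∃ m, ∀ n, idx n ≤ idx m := by
    have h1 : (Set.range idx).Nonempty := ⟨idx ⟨1, one_pos⟩, ⟨_, rfl⟩⟩
    have h2 : BddAbove (Set.range idx) := ⟨Module.finrank ℚ K, by
      rintro _ ⟨n, rfl⟩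
      exact hidx n⟩
    obtain ⟨m, hm⟩ := Nat.sSup_mem h1 h2
    exact ⟨m, fun n => by rw [hm]; exact le_csSup h2 ⟨n, rfl⟩⟩
  refine ⟨m.1, m.2, fun N hN hco a => ?_⟩
  have i1 : NeZero m.1 := ⟨m.2.ne'⟩
  have i2 : NeZero N := ⟨hN.ne'⟩
  have i3 : NeZero (m.1 * N) := ⟨mul_ne_zero m.2.ne' hN.ne'⟩
  set μ0 := μ ⟨m.1 * N, Nat.mul_pos m.2 hN⟩ with hμ0
  have hp : IsPrimitiveRoot μ0 (m.1 * N) := hμ ⟨m.1 * N, Nat.mul_pos m.2 hN⟩
  let π : (ZMod (m.1 * N))ˣ →* (ZMod m.1)ˣ := ZMod.unitsMap (Dvd.intro N rfl)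
  have hπ : Function.Surjective π := ZMod.unitsMap_surjective _
  have hle : (hp.autToPow K).range ≤ ((hμ m).autToPow K).range.comap π := by
    rintro _ ⟨σ, rfl⟩
    refine ⟨σ, ?_⟩
    rw [← acts_iff]
    intro ζ hζ
    have h1 := (acts_iff hp σ _).2 rfl ζ (by rw [pow_mul, hζ, one_pow])
    rw [h1]
    apply pow_congr hζ
    rw [ZMod.natCast_zmod_val]
    change _ = (((hp.autToPow K σ : (ZMod (m.1 * N))ˣ) : ZMod (m.1 * N)).cast : ZMod m.1)
    rw [ZMod.natCast_val]
  have hind : (((hμ m).autToPow K).range.comap π).index = idx m :=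
    Subgroup.index_comap_of_surjective _ hπ
  have hrel := Subgroup.relIndex_mul_index hle
  have hmN : (hp.autToPow K).range.index ≤ idx m := hm ⟨m.1 * N, Nat.mul_pos m.2 hN⟩
  have hpos : 0 < (hp.autToPow K).range.index := Nat.pos_of_ne_zero Subgroup.index_ne_zero_of_finite
  have hpos' : 0 < idx m := by
    rw [← hind]
    exact Nat.pos_of_ne_zero Subgroup.index_ne_zero_of_finite
  have hr1 : (hp.autToPow K).range.relIndex (((hμ m).autToPow K).range.comap π) = 1 := by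
    rw [hind] at hrel
    have h1 : (hp.autToPow K).range.relIndex (((hμ m).autToPow K).range.comap π) * idx m ≤
      1 * idx m := by rw [hrel, one_mul]; exact hmN
    have h2 := Nat.le_of_mul_le_mul_right h1 hpos'
    rcases Nat.eq_zero_or_pos
      ((hp.autToPow K).range.relIndex (((hμ m).autToPow K).range.comap π)) with h3 | h3
    · rw [h3, zero_mul] at hrel
      omega
    · omega
  have hle2 := Subgroup.relIndex_eq_one.1 hr1
  -- the Chinese remainder theorem
  obtain ⟨k, hk1, hk2⟩ := Nat.chineseRemainder hco 1 (a : ZMod N).val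
  have hkc : Nat.Coprime k (m.1 * N) := by
    refine Nat.Coprime.mul_right ?_ ?_
    · have h1 : Nat.gcd k m.1 = Nat.gcd 1 m.1 := hk1.gcd_eq
      rw [Nat.Coprime, h1, Nat.gcd_one_left]
    · have h1 : Nat.gcd k N = Nat.gcd (a : ZMod N).val N := hk2.gcd_eq
      rw [Nat.Coprime, h1]
      exact ZMod.val_coe_unit_coprime a
  have hmem : ZMod.unitOfCoprime k hkc ∈ ((hμ m).autToPow K).range.comap π := by
    have h1 : π (ZMod.unitOfCoprime k hkc) = 1 := by
      ext
      change (((ZMod.unitOfCoprime k hkc : (ZMod (m.1 * N))ˣ) : ZMod (m.1 * N)).cast : ZMod m.1) = 1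
      rw [ZMod.coe_unitOfCoprime, ZMod.cast_natCast (Dvd.intro N rfl)]
      have := (ZMod.natCast_eq_natCast_iff _ _ _).2 hk1
      rw [this, Nat.cast_one]
    rw [Subgroup.mem_comap, h1]
    exact one_mem _
  obtain ⟨σ, hσ⟩ := hle2 hmem
  refine ⟨σ, fun ζ hζ => ?_⟩
  have h1 := (acts_iff hp σ _).2 hσ ζ (by rw [mul_comm, pow_mul, hζ, one_pow])
  rw [h1]
  apply pow_congr hζ
  rw [ZMod.natCast_zmod_val, ZMod.coe_unitOfCoprime, ZMod.val_natCast]
  have h2 : ((k % (m.1 * N) : ℕ) : ZMod N) = (k : ZMod N) := by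
    rw [ZMod.natCast_eq_natCast_iff]
    exact (Nat.mod_modEq k (m.1 * N)).of_dvd (Dvd.intro_left m.1 rfl)
  rw [h2, (ZMod.natCast_eq_natCast_iff _ _ _).2 hk2, ZMod.natCast_zmod_val]

end

end Pool.Agent.Q33.RG
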