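import Pool.Agent.Q33.RG.Rel3
import Pool.Agent.TH954.SFinV

/-!
# The degenerate case: one function vanishes everywhere
-/

set_option autoImplicit false
set_option linter.unusedSectionVars false

open IsDedekindDomain NumberField Filter Topology Polynomial

namespace Pool.Agent.Q33.RG

open Pool.Agent.TH841.NF
open Pool.Agent.Q33.SecL (Pt)
open Pool.Agent.TH954 (exists_aeval_of_mem)

variable {K B M : Type} [Field K] [NumberField K] [Field B] [Field M] [Algebra K B]
  [Algebra B M] [IsAlgClosed B] [Algebra.IsAlgebraic K B] [IsAlgClosed M]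
  [Algebra K M] [IsScalarTower K B M] {A : Act K B M} (Q : Fam A)

lemma pt_algK {p : ℕ} [Fact p.Prime] {κ : B →+* PadicAlgCl p} (P : Pt B M κ) (c : K) :
    P.Val (algebraMap K M c) (rs K κ c) := by
  rw [IsScalarTower.algebraMap_apply K B M]
  exact pt_alg P _

lemma pt_aeval {p : ℕ} [Fact p.Prime] {κ : B →+* PadicAlgCl p} (P : Pt B M κ) {x : M}
    {c : PadicAlgCl p} (h : P.Val x c) (g : K[X]) :
    P.Val (aeval x g) (eval₂ (rs K κ) c g) := by
  induction g using Polynomial.induction_on' with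
  | add f g hf hg =>
    rw [map_add, eval₂_add]
    exact pt_add _ hf hg
  | monomial n a =>
    rw [aeval_monomial, eval₂_monomial]
    exact (pt_algK P a).mul (h.pow n)

/-- a polynomial relation for the values -/
lemma exists_poly_zero {t : M} (ht0 : t ≠ 0) (ht : ∀ (p : ℕ) [Fact p.Prime]
    (κ : B →+* PadicAlgCl p), (Q.P p κ).Val t 0) (y : M)
    (hdim : Transcendental K y → IsAlgebraic (Algebra.adjoin K {y}) t) :
    ∃ g : K[X], g ≠ 0 ∧ ∀ (p : ℕ) [Fact p.Prime] (κ : B →+* PadicAlgCl p) (c : PadicAlgCl p),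
      (Q.P p κ).Val y c → eval₂ (rs K κ) c g = 0 := by
  by_cases hy : IsAlgebraic K y
  · refine ⟨minpoly K y, minpoly.ne_zero hy.isIntegral, ?_⟩
    intro p _ κ c hc
    have h1 := pt_aeval (K := K) (Q.P p κ) hc (minpoly K y)
    rw [minpoly.aeval] at h1
    exact h1.unique (pt_zero _)
  · obtain ⟨u, hu, r, hr0, hur⟩ := (hdim hy).exists_nonzero_eq_adjoin_mul
      (mem_nonZeroDivisors_of_ne_zero ht0)
    obtain ⟨g, hg⟩ : ∃ g : K[X], aeval y g = (r : M) := exists_aeval_of_mem r.2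
    have hg0 : g ≠ 0 := by
      rintro rfl
      rw [map_zero] at hg
      exact hr0 (Subtype.ext hg.symm)
    refine ⟨g, hg0, ?_⟩
    intro p _ κ c hc
    have h1 : ∀ w ∈ Algebra.adjoin K {y}, w ∈ (Q.P p κ).W := by
      intro w hw
      obtain ⟨q, rfl⟩ := exists_aeval_of_mem hw
      exact (pt_aeval (K := K) (Q.P p κ) hc q).1
    have h2 : u ∈ (Q.P p κ).W := by
      obtain ⟨q, rfl⟩ := exists_aeval_of_mem hu
      rw [aeval_eq_sum_range]
      refine sum_mem (fun i _ => ?_)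
      rw [Algebra.smul_def]
      exact mul_mem (h1 _ (q.coeff i).2) (pow_mem (ht p κ).1 i)
    obtain ⟨d, hd⟩ := (Q.P p κ).val_of_mem h2
    have h3 := (ht p κ).mul hd
    rw [hur, zero_mul] at h3
    have h4 : (Q.P p κ).Val (r : M) 0 := h3
    rw [← hg] at h4
    exact (pt_aeval (K := K) (Q.P p κ) hc g).unique h4

/-- fixed elements with finitely many values are constant -/
theorem const_of_poly {y : M} (hy : ∀ σ, A.s σ y = y) {g : K[X]} (hg : g ≠ 0)
    (h : ∀ (p : ℕ) [Fact p.Prime] (κ : B →+* PadicAlgCl p) (c : PadicAlgCl p),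
      (Q.P p κ).Val y c → eval₂ (rs K κ) c g = 0) {p0 : ℕ} [Fact p0.Prime]
    {κ0 : B →+* PadicAlgCl p0} (h0 : y ∈ (Q.P p0 κ0).W) :
    ∃ ξ : K, ∀ (p : ℕ) [Fact p.Prime] (κ : B →+* PadicAlgCl p),
      (Q.P p κ).Val y (rs K κ ξ) := by
  classical
  have hB1 : IsAlgClosure K B := ⟨inferInstance, inferInstance⟩
  have hNo : Normal K B := IsAlgClosure.normal K B
  have hG : IsGalois K B := ⟨⟩
  by_cases hy0 : y = 0
  · refine ⟨0, fun p _ κ => ?_⟩
    rw [hy0, map_zero]
    exact pt_zero _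
  set R : Finset B := (g.aroots B).toFinset with hR
  have hval : ∀ (p : ℕ) [Fact p.Prime] (κ : B →+* PadicAlgCl p), y ∈ (Q.P p κ).W →
      ∃ β ∈ R, (Q.P p κ).Val y (κ β) := by
    intro p _ κ hW
    obtain ⟨c, hc⟩ := (Q.P p κ).val_of_mem hW
    have h1 := h p κ c hc
    have hs : (g.map (algebraMap K B)).Splits := IsAlgClosed.splits _
    have h2 : g.map (algebraMap K B) ≠ 0 :=
      (Polynomial.map_ne_zero_iff (algebraMap K B).injective).2 hg
    obtain ⟨β, hβ⟩ := hs.mem_range_of_isRoot (i := κ) (x := c) h2 (by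
      rw [IsRoot.def, eval_map, eval₂_map]
      exact h1)
    refine ⟨β, ?_, by rwa [hβ]⟩
    rw [hR, Multiset.mem_toFinset, mem_aroots]
    refine ⟨hg, ?_⟩
    apply κ.injective
    rw [aeval_def, hom_eval₂, hβ, map_zero]
    exact h1
  obtain ⟨E, hE, h1, -⟩ := exists_common A A (y :: (R.toList.map (algebraMap B M))) []
  have : NumberField E := NumberField.of_module_finite K E
  have hβfix : ∀ β ∈ R, ∀ σ : B ≃ₐ[E] B, (A.bc E).s σ (y - algebraMap B M β) =
      y - algebraMap B M β := by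
    intro β hβ σ
    rw [map_sub, h1 y (List.mem_cons_self) σ, h1 (algebraMap B M β)
      (List.mem_cons_of_mem _ (List.mem_map.2 ⟨β, Finset.mem_toList.2 hβ, rfl⟩)) σ]
  obtain ⟨β, hβR, hβ⟩ : ∃ β ∈ R, ¬ Null (Small (K := E) (Q.bc E) (y - algebraMap B M β)) := by
    by_contra hall
    push Not at hall
    have hN := Null.finset R hall
    have hinf : ¬ Null (Small (K := E) (Q.bc E) y⁻¹) := by
      intro hN2
      apply not_null_true (K := E)
      refine (hN.or hN2).mono ?_
      intro w _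
      obtain ⟨p, hp, κ, rfl⟩ := exists_kap (B := B) w
      by_cases hW : y ∈ (Q.P p κ).W
      · left
        obtain ⟨β, hβ, hv⟩ := hval p κ hW
        refine ⟨β, hβ, p, hp, κ, rfl, 0, ?_, by rw [norm_zero]; exact one_pos⟩
        have h3 := pt_sub _ hv (pt_alg (Q.P p κ) β)
        rwa [sub_self] at h3
      · right
        exact ⟨p, hp, κ, rfl, 0, pt_inv_nm _ hW, by rw [norm_zero]; exact one_pos⟩
    have h4 : (Q.P p0 κ0).Val y⁻¹ 0 := all_zero (Q.bc E) (u := y⁻¹) (fun σ => by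
      rw [map_inv₀, h1 y (List.mem_cons_self) σ]) hinf p0 κ0
    exact pt_nm _ hy0 h4 h0
  have hall : ∀ (p : ℕ) [Fact p.Prime] (κ : B →+* PadicAlgCl p), (Q.P p κ).Val y (κ β) := by
    intro p _ κ
    have h2 : (Q.P p κ).Val (y - algebraMap B M β) 0 :=
      all_zero (Q.bc E) (hβfix β hβR) hβ p κ
    have h3 := pt_add _ h2 (pt_alg (Q.P p κ) β)
    rwa [sub_add_cancel, zero_add] at h3
  have hβK : β ∈ Set.range (algebraMap K B) := by
    rw [InfiniteGalois.mem_range_algebraMap_iff_fixed]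
    intro τ
    have h2 := hall p0 (κ0.comp (τ : B →+* B))
    rw [Q.move p0 κ0 τ y, hy] at h2
    exact κ0.injective (h2.unique (hall p0 κ0))
  obtain ⟨ξ, rfl⟩ := hβK
  exact ⟨ξ, hall⟩

end Pool.Agent.Q33.RG
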