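import Pool.Agent.Q33.RG.Act

/-!
# Sections with congruent values on a set of places which is not of density zero
-/

set_option autoImplicit false
set_option linter.unusedSectionVars false

open IsDedekindDomain NumberField Filter Topology

namespace Pool.Agent.Q33.RG

open Pool.Agent.TH841.NF
open Pool.Agent.W401.Cheb (dens)
open Pool.Agent.Q33.SecL (Pt exists_compat LL mem_LL mem_LL_of_fixed norm_pow_mem LL_finite
  LL_finrank mem_of_pow_mem')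
open Pool.Agent.Q33.BSec (Cpl jc_cont mem_pls)

section null

variable {K : Type} [Field K] [NumberField K]

/-- density zero -/
def Null (P : HeightOneSpectrum (𝓞 K) → Prop) : Prop := Tendsto (dens P) atTop (𝓝 0)

lemma Null.mono {P Q : HeightOneSpectrum (𝓞 K) → Prop} (h : Null Q) (hPQ : ∀ v, P v → Q v) :
    Null P :=
  squeeze_zero (fun N => Pool.Agent.W528.Ord.dens_nonneg _ _) (fun N =>
    Pool.Agent.W528.Ord.dens_mono hPQ N) h

lemma Null.or {P Q : HeightOneSpectrum (𝓞 K) → Prop} (h : Null P) (h' : Null Q) :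
    Null fun v => P v ∨ Q v := by
  have h1 := h.add h'
  rw [add_zero] at h1
  exact squeeze_zero (fun N => Pool.Agent.W528.Ord.dens_nonneg _ _) (fun N =>
    Pool.Agent.W528.Ord.dens_or P Q N) h1

lemma null_false : Null fun _ : HeightOneSpectrum (𝓞 K) => False := by
  have h : (dens fun _ : HeightOneSpectrum (𝓞 K) => False) = fun _ => 0 := by
    funext N
    unfold dens
    simp
  unfold Null
  rw [h]
  exact tendsto_const_nhds

lemma Null.finset {ι : Type} (s : Finset ι) {P : ι → HeightOneSpectrum (𝓞 K) → Prop}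
    (h : ∀ i ∈ s, Null (P i)) : Null fun v => ∃ i ∈ s, P i v := by
  classical
  induction s using Finset.induction_on with
  | empty => exact null_false.mono (by simp)
  | insert i s hi ih =>
    have h1 := (h i (Finset.mem_insert_self i s)).or
      (ih (fun j hj => h j (Finset.mem_insert_of_mem hj)))
    refine h1.mono ?_
    rintro v ⟨j, hj, hv⟩
    rcases Finset.mem_insert.1 hj with rfl | hj
    · exact Or.inl hv
    · exact Or.inr ⟨j, hj, hv⟩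

lemma Null.of_finite {P : HeightOneSpectrum (𝓞 K) → Prop} (h : {v | P v}.Finite) : Null P := by
  refine squeeze_zero (fun N => Pool.Agent.W528.Ord.dens_nonneg _ _) (fun N => ?_)
    (Pool.Agent.W352.ChAbs.const_div_pi ({v | P v}.ncard : ℝ))
  unfold dens
  refine div_le_div_of_nonneg_right ?_ (Nat.cast_nonneg _)
  have h1 : Nat.card {v : HeightOneSpectrum (𝓞 K) // Ideal.absNorm v.asIdeal ≤ N ∧ P v} ≤
      {v | P v}.ncard := by
    refine Set.ncard_le_ncard (s := {v : HeightOneSpectrum (𝓞 K) |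
      Ideal.absNorm v.asIdeal ≤ N ∧ P v}) (fun v hv => hv.2) h
  exact_mod_cast h1

end null

section ratio

variable {K B M M' : Type} [Field K] [NumberField K] [Field B] [Field M] [Field M'] [Algebra K B]
  [Algebra B M] [Algebra B M'] [IsAlgClosed B] [Algebra.IsAlgebraic K B] [IsAlgClosed M]
  [IsAlgClosed M'] {A : Act K B M} {A' : Act K B M'}

/-- values of roots -/
lemma val_root {p : ℕ} [Fact p.Prime] {κ : B →+* PadicAlgCl p} (P : Pt B M κ) {f g : M} {a : B}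
    (ha : a ≠ 0) {N : ℕ} (hN : 0 < N) (hf : f = algebraMap B M a * g ^ N) {c : PadicAlgCl p}
    (hc : P.Val f c) : ∃ γ, P.Val g γ ∧ c = κ a * γ ^ N := by
  have ha' : algebraMap B M a ≠ 0 := (map_ne_zero _).2 ha
  have h1 : g ^ N ∈ P.W := by
    have h2 : g ^ N = algebraMap B M a⁻¹ * f := by
      rw [hf, map_inv₀, ← mul_assoc, inv_mul_cancel₀ ha', one_mul]
    rw [h2]
    exact mul_mem (pt_alg P a⁻¹).1 hc.1
  obtain ⟨γ, hγ⟩ := P.val_of_mem (mem_of_pow_mem' P.W hN h1)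
  refine ⟨γ, hγ, ?_⟩
  rw [hf] at hc
  exact hc.unique ((pt_alg P a).mul (hγ.pow N))

/-- **Ratios.** -/
theorem dens_ratio (Q : Fam A) (Q' : Fam A') {f : M} {f' : M'} (hf : ∀ σ, A.s σ f = f)
    (hf' : ∀ σ, A'.s σ f' = f') (p0 : ℕ) [Fact p0.Prime] (κ0 : B →+* PadicAlgCl p0)
    {δ δ' : PadicAlgCl p0} (h0 : (Q.P p0 κ0).Val f δ) (h0' : (Q'.P p0 κ0).Val f' δ')
    (hδ : δ ≠ 0) (hδ' : δ' ≠ 0) (hne : ‖δ‖ ≠ ‖δ'‖) :
    Null fun v : HeightOneSpectrum (𝓞 K) => ∃ (p : ℕ) (_ : Fact p.Prime)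
      (κ : B →+* PadicAlgCl p), pls (rs K κ) = v ∧ ∃ c c', (Q.P p κ).Val f c ∧
        (Q'.P p κ).Val f' c' ∧ c' ≠ 0 ∧ ‖c / c' - 1‖ < 1 := by
  have hf0 : f ≠ 0 := pt_ne _ h0 hδ
  have hf0' : f' ≠ 0 := pt_ne _ h0' hδ'
  have hk : ∀ ℓ : ℕ, ∃ (a : K) (g : M), 0 < ℓ → (a ≠ 0 ∧ g ≠ 0 ∧
      f = algebraMap B M (algebraMap K B a) * g ^ ℓ ∧ ∀ σ, A.s σ g = g) := by
    intro ℓ
    by_cases hℓ : 0 < ℓ
    · obtain ⟨a, ha, g, hg, h1, h2⟩ := A.kummer hf0 hf hℓ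
      exact ⟨a, g, fun _ => ⟨ha, hg, h1, h2⟩⟩
    · exact ⟨0, 0, fun h => absurd h hℓ⟩
  have hk' : ∀ ℓ : ℕ, ∃ (a : K) (g : M'), 0 < ℓ → (a ≠ 0 ∧ g ≠ 0 ∧
      f' = algebraMap B M' (algebraMap K B a) * g ^ ℓ ∧ ∀ σ, A'.s σ g = g) := by
    intro ℓ
    by_cases hℓ : 0 < ℓ
    · obtain ⟨a, ha, g, hg, h1, h2⟩ := A'.kummer hf0' hf' hℓ
      exact ⟨a, g, fun _ => ⟨ha, hg, h1, h2⟩⟩
    · exact ⟨0, 0, fun h => absurd h hℓ⟩
  choose a g hag using hk
  choose a' g' hag' using hk'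
  have key : ∀ (p : ℕ) [Fact p.Prime] (κ : B →+* PadicAlgCl p) (c c' : PadicAlgCl p),
      (Q.P p κ).Val f c → (Q'.P p κ).Val f' c' → c ≠ 0 → c' ≠ 0 → ∀ ℓ, 0 < ℓ →
      ∃ w ∈ LL (rs K κ), w ≠ 0 ∧ c / c' = rs K κ (a ℓ / a' ℓ) * w ^ ℓ := by
    intro p _ κ c c' hc hc' hc0 hc0' ℓ hℓ
    obtain ⟨ha, hg, h1, h2⟩ := hag ℓ hℓ
    obtain ⟨ha', hg', h1', h2'⟩ := hag' ℓ hℓ
    obtain ⟨γ, hγ, e⟩ := val_root (Q.P p κ) ((map_ne_zero (algebraMap K B)).2 ha) hℓ h1 hc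
    obtain ⟨γ', hγ', e'⟩ := val_root (Q'.P p κ) ((map_ne_zero (algebraMap K B)).2 ha') hℓ h1' hc'
    have hγ0 : γ ≠ 0 := by
      rintro rfl
      rw [zero_pow hℓ.ne', mul_zero] at e
      exact hc0 e
    have hγ0' : γ' ≠ 0 := by
      rintro rfl
      rw [zero_pow hℓ.ne', mul_zero] at e'
      exact hc0' e'
    refine ⟨γ / γ', div_mem (Q.mem_LL h2 κ hγ) (Q'.mem_LL h2' κ hγ'), div_ne_zero hγ0 hγ0', ?_⟩
    rw [e, e', map_div₀, div_pow]
    change _ = κ (algebraMap K B (a ℓ)) / κ (algebraMap K B (a' ℓ)) * _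
    rw [mul_div_mul_comm]
  have hp1 : (1 : ℝ) < p0 := by exact_mod_cast (Fact.out : p0.Prime).one_lt
  -- the ratio at `κ0`
  obtain ⟨z0, hz0⟩ : ∃ z : ℤ, ‖δ / δ'‖ ^ (Module.finrank ℚ K).factorial = (p0 : ℝ) ^ z := by
    refine norm_pow_mem (LL (rs K κ0)) (LL_finite _) ?_ (div_ne_zero hδ hδ') (LL_finrank _)
    exact div_mem (Q.mem_LL hf κ0 h0) (Q'.mem_LL hf' κ0 h0')
  have hz00 : z0 ≠ 0 := by
    rintro rfl
    rw [zpow_zero, pow_eq_one_iff_of_nonneg (norm_nonneg _) (Nat.factorial_pos _).ne',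
      norm_div, div_eq_one_iff_eq (norm_ne_zero_iff.2 hδ')] at hz0
    exact hne hz0
  have hb : ∀ᶠ ℓ in Filter.cofinite, ℓ.Prime → a ℓ / a' ℓ ≠ 0 ∧ ∀ c : K, c ^ ℓ ≠ a ℓ / a' ℓ := by
    rw [Nat.cofinite_eq_atTop]
    filter_upwards [eventually_gt_atTop z0.natAbs] with ℓ hℓ hp
    obtain ⟨ha, -, -, -⟩ := hag ℓ hp.pos
    obtain ⟨ha', -, -, -⟩ := hag' ℓ hp.pos
    refine ⟨div_ne_zero ha ha', fun c hc => ?_⟩
    obtain ⟨w, hw, hw0, hwe⟩ := key p0 κ0 δ δ' h0 h0' hδ hδ' ℓ hp.pos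
    rw [← hc, map_pow, ← mul_pow] at hwe
    have hc0 : c ≠ 0 := by
      rintro rfl
      rw [zero_pow hp.ne_zero] at hc
      exact div_ne_zero ha ha' hc.symm
    obtain ⟨z, hz⟩ := norm_pow_mem (LL (rs K κ0)) (LL_finite _)
      (mul_mem (mem_LL (rs K κ0) c) hw) (mul_ne_zero ((map_ne_zero (rs K κ0)).2 hc0) hw0)
      (LL_finrank _)
    rw [hwe, norm_pow, pow_right_comm, hz, ← zpow_natCast, ← zpow_mul] at hz0
    have h1 : z * ℓ = z0 := zpow_right_injective₀ (by linarith) hp1.ne' hz0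
    have h2 : (ℓ : ℤ) ∣ z0 := ⟨z, by rw [← h1, mul_comm]⟩
    have h3 := Int.natAbs_dvd_natAbs.2 h2
    rw [Int.natAbs_natCast] at h3
    have h4 := Nat.le_of_dvd (Int.natAbs_pos.2 hz00) h3
    omega
  refine Null.mono (dens_kummer (fun ℓ => a ℓ / a' ℓ) hb) ?_
  rintro v ⟨p, hp, κ, rfl, c, c', hc, hc', hc0', hcc⟩ ℓ hℓ -
  have hc0 : c ≠ 0 := by
    rintro rfl
    rw [zero_div, zero_sub, norm_neg, norm_one] at hcc
    exact lt_irrefl _ hcc
  obtain ⟨w, hw, hw0, hwe⟩ := key p κ c c' hc hc' hc0 hc0' ℓ hℓ.pos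
  have hop : IsOpen {x : PadicAlgCl p | ‖rs K κ (a ℓ / a' ℓ) * x ^ ℓ - 1‖ < 1} :=
    isOpen_lt (by fun_prop) continuous_const
  obtain ⟨e, he⟩ := exists_near (rs K κ) hw hop (by
    change ‖_‖ < 1
    rw [← hwe]
    exact hcc)
  have he' : ‖rs K κ (a ℓ / a' ℓ * e ^ ℓ - 1)‖ < 1 := by
    rw [map_sub, map_mul, map_pow, map_one]
    exact he
  refine ⟨e, ?_, Pool.Agent.Y46.G2.val_lt_one_of_norm (rs K κ) he'⟩
  rintro rfl
  rw [zero_pow hℓ.ne_zero, mul_zero, zero_sub, map_neg, map_one, norm_neg, norm_one] at he'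
  exact lt_irrefl _ he'

end ratio

end Pool.Agent.Q33.RG
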