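import Pool.Agent.Q33.RG.Rig2

/-!
# The family of points of a section with local points
-/

set_option autoImplicit false
set_option linter.unusedSectionVars false

open IsDedekindDomain NumberField Filter Topology

namespace Pool.Agent.Q33.RG

open Pool.Agent.TH942 Pool.Agent.TH954 Pool.Agent.TH841.NF
open Pool.Agent.Q33.SecL (Pt LL mem_LL LL_finite units_ae norm_int_le)
open Pool.Agent.Q33.BSec (Cpl jc_cont mem_pls toPt toPt_val toPt_val' toSec Cmp givenBy_of_cmp
  exists_pls bx bx_alg)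

variable {K : Type} [Field K] [NumberField K] {F Ω B : Type} [Field F] [Field Ω] [Field B]
  [Algebra F Ω] [Algebra K Ω] [Algebra K B] [Algebra B Ω]
  [IsAlgClosed B] [Algebra.IsAlgebraic K B] [Algebra.IsAlgebraic F Ω]

/-- the action of a section -/
noncomputable def actOf (s : GalSection K F Ω B) (hj : ∀ z, algebraMap B Ω z = s.j z) :
    Act K B Ω where
  s := (MulSemiringAction.toRingAut (Ω ≃ₐ[F] Ω) Ω).comp s.s
  sec := fun g z => by
    rw [hj, hj]
    exact s.sec g z
  fixes := fun w => (toSec s).fixes w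

lemma actOf_s (s : GalSection K F Ω B) (hj : ∀ z, algebraMap B Ω z = s.j z) (g : B ≃ₐ[K] B)
    (y : Ω) : (actOf s hj).s g y = s.s g y := rfl

section

variable (s : GalSection K F Ω B)
  (pl : ∀ v : HeightOneSpectrum (𝓞 K), Plc K Ω (AlgebraicClosure (v.adicCompletion K)))

/-- the embedding of `B` given by the point at `φ` -/
noncomputable def em {p : ℕ} [Fact p.Prime] (φ : K →+* PadicAlgCl p) : B →+* PadicAlgCl p :=
  (toPt φ (pl (pls φ))).emb s.j

lemma exists_g {p : ℕ} [Fact p.Prime] (κ : B →+* PadicAlgCl p) :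
    ∃ g : B ≃ₐ[K] B, ∀ z, em s pl (rs K κ) (g z) = κ z := by
  apply Pool.Agent.Q33.SecL.exists_compat
  ext c
  exact Pt.emb_alg (toPt (rs K κ) (pl (pls (rs K κ)))) s.j c

/-- the automorphism that belongs to `κ` -/
noncomputable def gk {p : ℕ} [Fact p.Prime] (κ : B →+* PadicAlgCl p) : B ≃ₐ[K] B :=
  (exists_g s pl κ).choose

lemma em_gk {p : ℕ} [Fact p.Prime] (κ : B →+* PadicAlgCl p) (z : B) :
    em s pl (rs K κ) (gk s pl κ z) = κ z := (exists_g s pl κ).choose_spec z

/-- the point that belongs to `κ` -/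
noncomputable def ptK (hj : ∀ z, algebraMap B Ω z = s.j z) {p : ℕ} [Fact p.Prime]
    (κ : B →+* PadicAlgCl p) : Pt B Ω κ where
  W := (toPt (rs K κ) (pl (pls (rs K κ)))).W.comap (s.s (gk s pl κ) : Ω →+* Ω)
  ρ := (toPt (rs K κ) (pl (pls (rs K κ)))).ρ.comp
    (((s.s (gk s pl κ) : Ω →+* Ω).comp (ValuationSubring.subtype _)).codRestrict
      (toPt (rs K κ) (pl (pls (rs K κ)))).W.toSubring (fun y => y.2))
  loc := by
    intro y hy
    have h1 := (toPt (rs K κ) (pl (pls (rs K κ)))).loc ⟨s.s (gk s pl κ) y, y.2⟩ hy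
    change s.s (gk s pl κ) (y : Ω)⁻¹ ∈ (toPt (rs K κ) (pl (pls (rs K κ)))).W
    rw [map_inv₀]
    exact h1
  comm := by
    intro z
    have h1 : (toPt (rs K κ) (pl (pls (rs K κ)))).Val (s.s (gk s pl κ) (algebraMap B Ω z))
        (κ z) := by
      rw [hj, s.sec, ← em_gk s pl κ z]
      exact Pt.val_emb _ _ _
    exact h1

lemma ptK_val' (hj : ∀ z, algebraMap B Ω z = s.j z) {p : ℕ} [Fact p.Prime]
    (κ : B →+* PadicAlgCl p) (y : Ω) (c : PadicAlgCl p) : (ptK s pl hj κ).Val y c ↔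
      (toPt (rs K κ) (pl (pls (rs K κ)))).Val (s.s (gk s pl κ) y) c := Iff.rfl

lemma ptK_val (hj : ∀ z, algebraMap B Ω z = s.j z) {p : ℕ} [Fact p.Prime]
    (κ : B →+* PadicAlgCl p) {φ : K →+* PadicAlgCl p} (h : rs K κ = φ) {g : B ≃ₐ[K] B}
    (hg : ∀ z, em s pl φ (g z) = κ z) (y : Ω) (c : PadicAlgCl p) : (ptK s pl hj κ).Val y c ↔
      (toPt φ (pl (pls φ))).Val (s.s g y) c := by
  subst h
  have e : g = gk s pl κ := by
    ext z
    apply (em s pl (rs K κ)).injective
    rw [hg, em_gk]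
  rw [ptK_val', e]

/-- the family of points -/
noncomputable def famOf (hj : ∀ z, algebraMap B Ω z = s.j z)
    (hpl : ∀ v : HeightOneSpectrum (𝓞 K), Cmp (L := v.adicCompletion K) s (pl v)) :
    Fam (actOf s hj) where
  P := fun p _ κ => ptK s pl hj κ
  move := by
    intro p _ κ τ y c
    have h1 : rs K (κ.comp (τ : B →+* B)) = rs K κ := by
      ext x
      change κ (τ (algebraMap K B x)) = κ (algebraMap K B x)
      rw [AlgEquiv.commutes]
    rw [ptK_val s pl hj (κ.comp (τ : B →+* B)) h1 (g := gk s pl κ * τ) (by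
      intro z
      exact em_gk s pl κ (τ z)), ptK_val', actOf_s, map_mul]
    rfl
  equi := by
    intro p _ κ σ g hg y c hy
    rw [ptK_val'] at hy ⊢
    have hσ : ∀ x : K, σ (rs K κ x) = rs K κ x := by
      intro x
      change σ (κ (algebraMap K B x)) = κ (algebraMap K B x)
      rw [← hg, AlgEquiv.commutes]
    have h1 := givenBy_of_cmp s (rs K κ) _ (hpl _) σ (gk s pl κ * g * (gk s pl κ)⁻¹) hσ (by
      intro z c hz
      have h2 : (toPt (rs K κ) (pl (pls (rs K κ)))).Val (s.j z) (em s pl (rs K κ) z) :=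
        Pt.val_emb _ _ _
      have h3 : (toPt (rs K κ) (pl (pls (rs K κ)))).Val
          (s.j ((gk s pl κ * g * (gk s pl κ)⁻¹) z))
          (em s pl (rs K κ) ((gk s pl κ * g * (gk s pl κ)⁻¹) z)) := Pt.val_emb _ _ _
      have h4 : em s pl (rs K κ) ((gk s pl κ * g * (gk s pl κ)⁻¹) z) = σ c := by
        have e1 : c = em s pl (rs K κ) z := hz.unique h2
        rw [e1, AlgEquiv.mul_apply, AlgEquiv.mul_apply, em_gk, hg, ← em_gk s pl κ]
        congr 2
        change (gk s pl κ * (gk s pl κ)⁻¹) z = z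
        rw [mul_inv_cancel]
        rfl
      rw [← h4]
      exact h3) _ _ hy
    have e2 : (toSec s).s (gk s pl κ * g * (gk s pl κ)⁻¹) (s.s (gk s pl κ) y) =
        s.s (gk s pl κ) (s.s g y) := by
      change (s.s (gk s pl κ * g * (gk s pl κ)⁻¹) * s.s (gk s pl κ)) y =
        (s.s (gk s pl κ) * s.s g) y
      rw [← map_mul, ← map_mul, inv_mul_cancel_right]
    rw [e2] at h1
    exact h1

/-- values of functions -/
lemma famOf_val (hj : ∀ z, algebraMap B Ω z = s.j z)
    (hpl : ∀ v : HeightOneSpectrum (𝓞 K), Cmp (L := v.adicCompletion K) s (pl v))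
    {p : ℕ} [Fact p.Prime] (κ : B →+* PadicAlgCl p) (u : F) (c : PadicAlgCl p) :
    ((famOf s pl hj hpl).P p κ).Val (algebraMap F Ω u) c ↔
      (toPt (rs K κ) (pl (pls (rs K κ)))).Val (algebraMap F Ω u) c := by
  change (ptK s pl hj κ).Val _ _ ↔ _
  rw [ptK_val', AlgEquiv.commutes]

lemma famOf_fix (hj : ∀ z, algebraMap B Ω z = s.j z) (u : F) (g : B ≃ₐ[K] B) :
    (actOf s hj).s g (algebraMap F Ω u) = algebraMap F Ω u := (s.s g).commutes u

end

end Pool.Agent.Q33.RG
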