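import Pool.Agent.Q33.RG.Cyc

/-!
# Independence of radicals of different prime degrees
-/

set_option autoImplicit false
set_option linter.unusedSectionVars false

namespace Pool.Agent.Q33.RG

section kummer

variable {K A : Type} [Field K] [Field A] [Algebra K A]

/-- a root of unity of prime order moved by `ρ` -/
lemma moved {ρ : A ≃ₐ[K] A} {ℓ : ℕ} (hℓ : ℓ.Prime) {ζ : A} (hζ : IsPrimitiveRoot ζ ℓ)
    (hρ : ρ ζ ≠ ζ) {η : A} (hη : η ^ ℓ = 1) (h : ρ η = η) : η = 1 := by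
  have : Fact ℓ.Prime := ⟨hℓ⟩
  by_contra h1
  have h2 : IsPrimitiveRoot η ℓ := by
    have h3 := IsPrimitiveRoot.orderOf η
    have h4 : orderOf η = ℓ := (orderOf_eq_prime hη h1 : _)
    rwa [h4] at h3
  obtain ⟨i, -, hi⟩ := h2.eq_pow_of_pow_eq_one hζ.pow_eq_one
  apply hρ
  rw [← hi, map_pow, h]

/-- a root fixed by `ρ` -/
lemma exists_fixed_root {ρ : A ≃ₐ[K] A} {ℓ : ℕ} (hℓ : ℓ.Prime) {ζ : A}
    (hζ : IsPrimitiveRoot ζ ℓ) (hρ : ρ ζ ≠ ζ) {b : K} {β : A} (hβ : β ^ ℓ = algebraMap K A b)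
    (hb : b ≠ 0) : ∃ y : A, y ^ ℓ = algebraMap K A b ∧ ρ y = y := by
  have : Fact ℓ.Prime := ⟨hℓ⟩
  have hβ0 : β ≠ 0 := by
    rintro rfl
    rw [zero_pow hℓ.ne_zero] at hβ
    exact hb ((map_eq_zero (algebraMap K A)).1 hβ.symm)
  obtain ⟨a, -, ha⟩ := hζ.eq_pow_of_pow_eq_one (ξ := ρ ζ) (by rw [← map_pow, hζ.pow_eq_one, map_one])
  obtain ⟨t, -, ht⟩ := hζ.eq_pow_of_pow_eq_one (ξ := ρ β / β) (by
    rw [div_pow, ← map_pow, hβ, AlgEquiv.commutes, div_self]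
    exact (map_ne_zero _).2 hb)
  have ht' : ρ β = ζ ^ t * β := by rw [ht, div_mul_cancel₀ _ hβ0]
  have ha1 : (a : ZMod ℓ) - 1 ≠ 0 := by
    intro h
    apply hρ
    rw [← ha]
    have h2 : ζ ^ a = ζ ^ 1 := by
      apply pow_congr hζ.pow_eq_one
      rw [Nat.cast_one]
      exact sub_eq_zero.1 h
    rw [h2, pow_one]
  set s := (-(t : ZMod ℓ) * ((a : ZMod ℓ) - 1)⁻¹).val with hs
  refine ⟨ζ ^ s * β, ?_, ?_⟩
  · rw [mul_pow, ← pow_mul, mul_comm s, pow_mul, hζ.pow_eq_one, one_pow, one_mul, hβ]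
  · rw [map_mul, map_pow, ← ha, ht', ← mul_assoc, ← pow_mul, ← pow_add]
    congr 1
    apply pow_congr hζ.pow_eq_one
    rw [hs, Nat.cast_add, Nat.cast_mul, ZMod.natCast_zmod_val]
    field_simp
    ring

variable [IsAlgClosed A] [CharZero K] [Algebra.IsAlgebraic K A]

/-- **Nontrivial action.** -/
theorem exists_move {ℓ : ℕ} (hℓ : ℓ.Prime) {ζ : A} (hζ : IsPrimitiveRoot ζ ℓ) {b : K}
    (hb : b ≠ 0) (hbp : ∀ c : K, c ^ ℓ ≠ b) (T : Set (A ≃ₐ[K] A))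
    (hT : ∀ g h : A ≃ₐ[K] A, g * h * g⁻¹ * h⁻¹ ∈ T) (ρ : A ≃ₐ[K] A) (hρ : ρ ζ ≠ ζ) :
    ∃ σ ∈ T, ∃ y : A, y ^ ℓ = algebraMap K A b ∧ σ y ≠ y := by
  by_contra hcon
  push Not at hcon
  obtain ⟨β, hβ⟩ := IsAlgClosed.exists_pow_nat_eq (algebraMap K A b) hℓ.pos
  obtain ⟨y, hy, hyρ⟩ := exists_fixed_root hℓ hζ hρ hβ hb
  have hy0 : y ≠ 0 := by
    rintro rfl
    rw [zero_pow hℓ.ne_zero] at hy
    exact hb ((map_eq_zero (algebraMap K A)).1 hy.symm)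
  have hfix : ∀ g : A ≃ₐ[K] A, g y = y := by
    intro g
    have hu : (g y) ^ ℓ = algebraMap K A b := by rw [← map_pow, hy, AlgEquiv.commutes]
    have h1 := hcon (ρ * g * ρ⁻¹ * g⁻¹) (hT ρ g) (g y) hu
    have h2 : ρ (g y) = g y := by
      have h3 : ρ⁻¹ y = y := by
        change ρ.symm y = y
        rw [AlgEquiv.symm_apply_eq, hyρ]
      have h4 : (ρ * g * ρ⁻¹ * g⁻¹) (g y) = ρ (g y) := by
        change ρ (g (ρ⁻¹ (g.symm (g y)))) = _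
        rw [AlgEquiv.symm_apply_apply, h3]
      rw [← h4]
      exact h1
    have h5 : g y / y = 1 := by
      apply moved hℓ hζ hρ
      · rw [div_pow, hu, hy, div_self]
        exact (map_ne_zero _).2 hb
      · rw [map_div₀, h2, hyρ]
    exact (div_eq_one_iff_eq hy0).1 h5
  have hcl : IsAlgClosure K A := ⟨inferInstance, inferInstance⟩
  have hno : Normal K A := IsAlgClosure.normal K A
  have hG : IsGalois K A := ⟨⟩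
  obtain ⟨c, hc⟩ := (InfiniteGalois.mem_range_algebraMap_iff_fixed (k := K) (K := A) y).2 hfix
  apply hbp c
  apply (algebraMap K A).injective
  rw [map_pow, hc, hy]

end kummer

section main

variable {K A : Type} [Field K] [NumberField K] [Field A] [Algebra K A] [IsAlgClosed A]
  [Algebra.IsAlgebraic K A]

/-- the subgroup acting trivially on the roots of unity of order in `S` -/
def TS (K A : Type) [Field K] [Field A] [Algebra K A] (S : Finset ℕ) : Subgroup (A ≃ₐ[K] A) where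
  carrier := {σ | ∀ ℓ ∈ S, ∀ ζ : A, ζ ^ ℓ = 1 → σ ζ = ζ}
  one_mem' := fun _ _ _ _ => rfl
  mul_mem' := by
    intro σ τ hσ hτ ℓ hℓ ζ hζ
    change σ (τ ζ) = ζ
    rw [hτ ℓ hℓ ζ hζ, hσ ℓ hℓ ζ hζ]
  inv_mem' := by
    intro σ hσ ℓ hℓ ζ hζ
    change σ.symm ζ = ζ
    rw [AlgEquiv.symm_apply_eq, hσ ℓ hℓ ζ hζ]

lemma comm_mem_TS (S : Finset ℕ) (hS : ∀ ℓ ∈ S, ℓ.Prime) (g h : A ≃ₐ[K] A) :
    g * h * g⁻¹ * h⁻¹ ∈ TS K A S := by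
  have hc : CharZero A := charZero_of_injective_algebraMap (algebraMap K A).injective
  intro ℓ hℓ ζ hζ
  have : NeZero ℓ := ⟨(hS ℓ hℓ).ne_zero⟩
  obtain ⟨μ, hμ⟩ := exists_prim A ℓ
  have h1 : hμ.autToPow K (g * h * g⁻¹ * h⁻¹) = 1 := by
    simp only [map_mul, map_inv]
    rw [mul_comm (hμ.autToPow K g), mul_assoc (hμ.autToPow K h), mul_inv_cancel, mul_one,
      mul_inv_cancel]
  have h2 := (acts_iff hμ _ 1).2 h1 ζ hζ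
  rw [h2]
  conv_rhs => rw [← pow_one ζ]
  apply pow_congr hζ
  rw [ZMod.natCast_zmod_val, Units.val_one, Nat.cast_one]

/-- the roots of `b` are multiplied by one root of unity -/
lemma mult_of_TS {σ : A ≃ₐ[K] A} {ℓ : ℕ} (hσ : ∀ ζ : A, ζ ^ ℓ = 1 → σ ζ = ζ) {b : K} (hb : b ≠ 0)
    (hℓ : ℓ ≠ 0) {y β : A} (hy : y ^ ℓ = algebraMap K A b) (hβ : β ^ ℓ = algebraMap K A b) :
    σ y / y = σ β / β := by
  have hb' : algebraMap K A b ≠ 0 := (map_ne_zero _).2 hb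
  have hy0 : y ≠ 0 := by
    rintro rfl
    rw [zero_pow hℓ] at hy
    exact hb' hy.symm
  have hβ0 : β ≠ 0 := by
    rintro rfl
    rw [zero_pow hℓ] at hβ
    exact hb' hβ.symm
  have h1 : (y / β) ^ ℓ = 1 := by rw [div_pow, hy, hβ, div_self hb']
  have h2 := hσ _ h1
  rw [map_div₀] at h2
  have hσβ : σ β ≠ 0 := (map_ne_zero σ).2 hβ0
  field_simp at h2 ⊢
  linear_combination h2

/-- translations at one prime -/
lemma exists_translation (S : Finset ℕ) (hS : ∀ ℓ ∈ S, ℓ.Prime) (b : ℕ → K)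
    (hb : ∀ ℓ ∈ S, b ℓ ≠ 0) {ℓ : ℕ} (hℓ : ℓ ∈ S) {τ : A ≃ₐ[K] A} (hτ : τ ∈ TS K A S)
    {β : A} (hβ : β ^ ℓ = algebraMap K A (b ℓ)) (hτβ : τ β ≠ β) {η : A} (hη : η ^ ℓ = 1) :
    ∃ κ ∈ TS K A S, (∀ y : A, y ^ ℓ = algebraMap K A (b ℓ) → κ y = η * y) ∧
      ∀ ℓ' ∈ S, ℓ' ≠ ℓ → ∀ y : A, y ^ ℓ' = algebraMap K A (b ℓ') → κ y = y := by
  classical
  have hp : ℓ.Prime := hS ℓ hℓ
  have : Fact ℓ.Prime := ⟨hp⟩
  set M := ∏ q ∈ S.erase ℓ, q with hM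
  have hco : Nat.Coprime M ℓ := by
    refine Nat.Coprime.prod_left fun q hq => ?_
    rw [Nat.coprime_primes (hS q (Finset.mem_of_mem_erase hq)) hp]
    exact Finset.ne_of_mem_erase hq
  have hb' : algebraMap K A (b ℓ) ≠ 0 := (map_ne_zero _).2 (hb ℓ hℓ)
  have hβ0 : β ≠ 0 := by
    rintro rfl
    rw [zero_pow hp.ne_zero] at hβ
    exact hb' hβ.symm
  have hpow : ∀ (q : ℕ) (hq : q ∈ S) (y : A), y ^ q = algebraMap K A (b q) → ∀ n : ℕ,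
      (τ ^ n) y = (τ y / y) ^ n * y := by
    intro q hq y hy n
    have hqp := hS q hq
    have hbq : algebraMap K A (b q) ≠ 0 := (map_ne_zero _).2 (hb q hq)
    have hy0 : y ≠ 0 := by
      rintro rfl
      rw [zero_pow hqp.ne_zero] at hy
      exact hbq hy.symm
    have hτq : (τ y / y) ^ q = 1 := by
      rw [div_pow, ← map_pow, hy, AlgEquiv.commutes, div_self hbq]
    induction n with
    | zero => simp
    | succ n ih =>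
      rw [pow_succ', AlgEquiv.mul_apply, ih, map_mul, map_pow, hτ q hq _ hτq, pow_succ]
      field_simp
  set χ := τ β / β with hχ
  have hχℓ : χ ^ ℓ = 1 := by
    rw [hχ, div_pow, ← map_pow, hβ, AlgEquiv.commutes, div_self hb']
  have hχ1 : χ ≠ 1 := by
    rw [hχ, Ne, div_eq_one_iff_eq hβ0]
    exact hτβ
  have hprim : IsPrimitiveRoot χ ℓ := by
    have h3 := IsPrimitiveRoot.orderOf χ
    have h4 : orderOf χ = ℓ := orderOf_eq_prime hχℓ hχ1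
    rwa [h4] at h3
  have hprim' : IsPrimitiveRoot (χ ^ M) ℓ := hprim.pow_of_coprime M hco
  obtain ⟨c, -, hc⟩ := hprim'.eq_pow_of_pow_eq_one hη
  refine ⟨τ ^ (M * c), Subgroup.pow_mem _ hτ _, ?_, ?_⟩
  · intro y hy
    rw [hpow ℓ hℓ y hy, mult_of_TS (hτ ℓ hℓ) (hb ℓ hℓ) hp.ne_zero hy hβ, pow_mul, hc]
  · intro q hq hne y hy
    have hbq : algebraMap K A (b q) ≠ 0 := (map_ne_zero _).2 (hb q hq)
    have hτq : (τ y / y) ^ q = 1 := by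
      rw [div_pow, ← map_pow, hy, AlgEquiv.commutes, div_self hbq]
    obtain ⟨d, hd⟩ : q ∣ M := Finset.dvd_prod_of_mem _ (Finset.mem_erase.2 ⟨hne, hq⟩)
    rw [hpow q hq y hy, hd, mul_assoc, pow_mul, hτq, one_pow, one_mul]

/-- translations at all primes -/
lemma exists_translations (S : Finset ℕ) (hS : ∀ ℓ ∈ S, ℓ.Prime) (b : ℕ → K)
    (hb : ∀ ℓ ∈ S, b ℓ ≠ 0)
    (hmove : ∀ ℓ ∈ S, ∃ τ ∈ TS K A S, ∃ β : A, β ^ ℓ = algebraMap K A (b ℓ) ∧ τ β ≠ β)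
    (η : ℕ → A) (hη : ∀ ℓ ∈ S, η ℓ ^ ℓ = 1) :
    ∃ κ ∈ TS K A S, ∀ ℓ ∈ S, ∀ y : A, y ^ ℓ = algebraMap K A (b ℓ) → κ y = η ℓ * y := by
  classical
  suffices h : ∀ T ⊆ S, ∃ κ ∈ TS K A S,
      (∀ ℓ ∈ T, ∀ y : A, y ^ ℓ = algebraMap K A (b ℓ) → κ y = η ℓ * y) ∧
      ∀ ℓ ∈ S, ℓ ∉ T → ∀ y : A, y ^ ℓ = algebraMap K A (b ℓ) → κ y = y by
    obtain ⟨κ, h1, h2, -⟩ := h S subset_rfl
    exact ⟨κ, h1, h2⟩
  intro T
  induction T using Finset.induction_on with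
  | empty => exact fun _ => ⟨1, one_mem _, by simp, fun _ _ _ _ _ => rfl⟩
  | insert q T hqT ih =>
    intro hT
    obtain ⟨κ, h1, h2, h3⟩ := ih (fun x hx => hT (Finset.mem_insert_of_mem hx))
    have hqS : q ∈ S := hT (Finset.mem_insert_self q T)
    obtain ⟨τ, hτ, β, hβ, hτβ⟩ := hmove q hqS
    obtain ⟨κ', h1', h2', h3'⟩ := exists_translation S hS b hb hqS hτ hβ hτβ (hη q hqS)
    refine ⟨κ * κ', mul_mem h1 h1', ?_, ?_⟩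
    · intro ℓ hℓ y hy
      rw [AlgEquiv.mul_apply]
      rcases Finset.mem_insert.1 hℓ with rfl | hℓT
      · rw [h2' y hy, map_mul, h3 ℓ hqS hqT y hy, h1 ℓ hqS _ (hη ℓ hqS)]
      · have hne : ℓ ≠ q := fun h => hqT (h ▸ hℓT)
        rw [h3' ℓ (hT hℓ) hne y hy, h2 ℓ hℓT y hy]
    · intro ℓ hℓ hnot y hy
      rw [Finset.mem_insert, not_or] at hnot
      rw [AlgEquiv.mul_apply, h3' ℓ hℓ hnot.1 y hy, h3 ℓ hℓ hnot.2 y hy]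

/-- **Independence.** -/
theorem exists_all (m : ℕ) (hm : ∀ N : ℕ, 0 < N → Nat.Coprime m N →
      ∀ a : (ZMod N)ˣ, ∃ σ : A ≃ₐ[K] A, Acts σ N (a : ZMod N))
    (S : Finset ℕ) (hS : ∀ ℓ ∈ S, ℓ.Prime ∧ 2 < ℓ ∧ Nat.Coprime m ℓ) (b : ℕ → K)
    (hb : ∀ ℓ ∈ S, b ℓ ≠ 0) (hbp : ∀ ℓ ∈ S, ∀ c : K, c ^ ℓ ≠ b ℓ) (ρ : ℕ → (A ≃ₐ[K] A)) :
    ∃ σ : A ≃ₐ[K] A, ∀ ℓ ∈ S, ∀ y : A, y ^ ℓ = algebraMap K A (b ℓ) → σ y = ρ ℓ y := by
  classical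
  have hc : CharZero A := charZero_of_injective_algebraMap (algebraMap K A).injective
  have hSp : ∀ ℓ ∈ S, ℓ.Prime := fun ℓ hℓ => (hS ℓ hℓ).1
  -- cyclotomic part
  have hN : 0 < ∏ ℓ ∈ S, ℓ := Finset.prod_pos fun ℓ hℓ => (hSp ℓ hℓ).pos
  have hcop : Nat.Coprime m (∏ ℓ ∈ S, ℓ) := Nat.Coprime.prod_right fun ℓ hℓ => (hS ℓ hℓ).2.2
  have hcyc : ∀ ℓ ∈ S, ∃ a : (ZMod ℓ)ˣ, Acts (ρ ℓ) ℓ (a : ZMod ℓ) := by
    intro ℓ hℓ
    have : NeZero ℓ := ⟨(hSp ℓ hℓ).ne_zero⟩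
    obtain ⟨μ, hμ⟩ := exists_prim A ℓ
    exact ⟨hμ.autToPow K (ρ ℓ), (acts_iff hμ _ _).2 rfl⟩
  choose! a ha using hcyc
  obtain ⟨k, hk⟩ := Nat.chineseRemainderOfFinset (fun ℓ => ((a ℓ : (ZMod ℓ)ˣ) : ZMod ℓ).val)
    (fun ℓ => ℓ) S (fun ℓ hℓ => (hSp ℓ hℓ).ne_zero) (by
      intro x hx y hy hxy
      exact (Nat.coprime_primes (hSp x hx) (hSp y hy)).2 hxy)
  have hkc : Nat.Coprime k (∏ ℓ ∈ S, ℓ) := by
    refine Nat.Coprime.prod_right fun ℓ hℓ => ?_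
    have h1 : Nat.gcd k ℓ = Nat.gcd ((a ℓ : (ZMod ℓ)ˣ) : ZMod ℓ).val ℓ := (hk ℓ hℓ).gcd_eq
    rw [Nat.Coprime, h1]
    exact ZMod.val_coe_unit_coprime (a ℓ)
  obtain ⟨σ0, hσ0⟩ := hm _ hN hcop (ZMod.unitOfCoprime k hkc)
  have hσ0' : ∀ ℓ ∈ S, ∀ ζ : A, ζ ^ ℓ = 1 → σ0 ζ = ρ ℓ ζ := by
    intro ℓ hℓ ζ hζ
    obtain ⟨d, hd⟩ : ℓ ∣ ∏ q ∈ S, q := Finset.dvd_prod_of_mem _ hℓ
    have : NeZero (∏ q ∈ S, q) := ⟨hN.ne'⟩
    have : NeZero ℓ := ⟨(hSp ℓ hℓ).ne_zero⟩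
    rw [hσ0 ζ (by rw [hd, pow_mul, hζ, one_pow]), ha ℓ hℓ ζ hζ]
    apply pow_congr hζ
    rw [ZMod.coe_unitOfCoprime, ZMod.val_natCast, ZMod.natCast_zmod_val]
    have h2 : ((k % (∏ q ∈ S, q) : ℕ) : ZMod ℓ) = (k : ZMod ℓ) := by
      rw [ZMod.natCast_eq_natCast_iff]
      exact (Nat.mod_modEq k _).of_dvd ⟨d, hd⟩
    rw [h2, (ZMod.natCast_eq_natCast_iff _ _ _).2 (hk ℓ hℓ), ZMod.natCast_zmod_val]
  -- nontrivial translations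
  have hmove : ∀ ℓ ∈ S, ∃ τ ∈ TS K A S, ∃ β : A, β ^ ℓ = algebraMap K A (b ℓ) ∧ τ β ≠ β := by
    intro ℓ hℓ
    have i1 : NeZero ℓ := ⟨(hSp ℓ hℓ).ne_zero⟩
    have i2 : Fact ℓ.Prime := ⟨hSp ℓ hℓ⟩
    obtain ⟨ζ, hζ⟩ := exists_prim A ℓ
    obtain ⟨ρ', hρ'⟩ := hm ℓ (hSp ℓ hℓ).pos (hS ℓ hℓ).2.2 (-1)
    refine exists_move (hSp ℓ hℓ) hζ (hb ℓ hℓ) (hbp ℓ hℓ) (TS K A S : Set (A ≃ₐ[K] A))
      (comm_mem_TS S hSp) ρ' ?_
    intro h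
    have h1 := hρ' ζ hζ.pow_eq_one
    rw [h] at h1
    have h2 : ζ ^ 1 = ζ ^ ((-1 : (ZMod ℓ)ˣ) : ZMod ℓ).val := by rw [pow_one]; exact h1
    have h3 := hζ.pow_inj (hSp ℓ hℓ).one_lt (ZMod.val_lt _) h2
    have h4 : (1 : ZMod ℓ) = -1 := by
      have := congrArg (Nat.cast : ℕ → ZMod ℓ) h3
      rwa [Nat.cast_one, ZMod.natCast_zmod_val, Units.val_neg, Units.val_one] at this
    have h5 : ((2 : ℕ) : ZMod ℓ) = 0 := by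
      push_cast
      linear_combination h4
    rw [ZMod.natCast_eq_zero_iff] at h5
    have := Nat.le_of_dvd two_pos h5
    have := (hS ℓ hℓ).2.1
    omega
  have hroot : ∀ ℓ ∈ S, ∃ β : A, β ^ ℓ = algebraMap K A (b ℓ) := fun ℓ hℓ =>
    IsAlgClosed.exists_pow_nat_eq _ (hSp ℓ hℓ).pos
  choose! β hβ using hroot
  have hτ : ∀ ℓ ∈ S, ∀ ζ : A, ζ ^ ℓ = 1 → (σ0⁻¹ * ρ ℓ) ζ = ζ := by
    intro ℓ hℓ ζ hζ
    change σ0.symm (ρ ℓ ζ) = ζ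
    rw [← hσ0' ℓ hℓ ζ hζ, AlgEquiv.symm_apply_apply]
  obtain ⟨κ, hκ, hκy⟩ := exists_translations S hSp b hb hmove
    (fun ℓ => (σ0⁻¹ * ρ ℓ) (β ℓ) / β ℓ) (by
      intro ℓ hℓ
      rw [div_pow, ← map_pow, hβ ℓ hℓ, AlgEquiv.commutes, div_self]
      exact (map_ne_zero _).2 (hb ℓ hℓ))
  refine ⟨σ0 * κ, fun ℓ hℓ y hy => ?_⟩
  have hy0 : y ≠ 0 := by
    rintro rfl
    rw [zero_pow (hSp ℓ hℓ).ne_zero] at hy
    exact hb ℓ hℓ ((map_eq_zero (algebraMap K A)).1 hy.symm)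
  rw [AlgEquiv.mul_apply, hκy ℓ hℓ y hy,
    ← mult_of_TS (hτ ℓ hℓ) (hb ℓ hℓ) (hSp ℓ hℓ).ne_zero hy (hβ ℓ hℓ), div_mul_cancel₀ _ hy0]
  change σ0 (σ0.symm (ρ ℓ y)) = _
  rw [AlgEquiv.apply_symm_apply]

end main

end Pool.Agent.Q33.RG
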