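import Pool.Agent.W528.Ord.Dens
import Pool.Agent.Q33.RG.Ind

/-!
# Almost all automorphisms move all radicals for infinitely many primes
-/

set_option autoImplicit false
set_option linter.unusedSectionVars false

namespace Pool.Agent.Q33.RG

open MeasureTheory Topology Filter
open scoped ENNReal

section cosets

variable {G : Type} [Group G] [TopologicalSpace G] [IsTopologicalGroup G] [MeasurableSpace G]
  [BorelSpace G]

lemma isOpen_of_inv (U : Subgroup G) (hU : IsOpen (U : Set G)) (A : Set G)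
    (hA : ∀ x ∈ A, ∀ u ∈ U, x * u ∈ A) : IsOpen A := by
  rw [isOpen_iff_forall_mem_open]
  intro x hx
  refine ⟨(fun y => x⁻¹ * y) ⁻¹' (U : Set G), ?_, hU.preimage (continuous_const_mul x⁻¹), ?_⟩
  · intro y hy
    have h1 := hA x hx _ hy
    rwa [mul_inv_cancel_left] at h1
  · change x⁻¹ * x ∈ (U : Set G)
    rw [inv_mul_cancel]
    exact one_mem U

lemma inter_coset (μ : Measure G) [IsProbabilityMeasure μ] [μ.IsMulLeftInvariant]
    (U : Subgroup G) (hU : IsOpen (U : Set G)) [Finite (G ⧸ U)] (E : Set G) (hE : MeasurableSet E)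
    (hEinv : ∀ q : G, ∃ g : G, g⁻¹ * q ∈ U ∧ ∀ x, g * x ∈ E ↔ x ∈ E) (S : Set (G ⧸ U)) :
    μ (E ∩ {x | (QuotientGroup.mk x : G ⧸ U) ∈ S}) = S.ncard * μ (E ∩ U) := by
  classical
  have hfin : S.Finite := Set.toFinite S
  have e : E ∩ {x | (QuotientGroup.mk x : G ⧸ U) ∈ S} =
      ⋃ q ∈ hfin.toFinset, (E ∩ {x | (QuotientGroup.mk x : G ⧸ U) = q}) := by
    ext x
    simp
  have hop : ∀ q : G ⧸ U, IsOpen {x | (QuotientGroup.mk x : G ⧸ U) = q} := by
    intro q
    apply isOpen_of_inv U hU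
    intro x hx u hu
    rw [Set.mem_ofPred_eq] at hx ⊢
    rw [← hx, QuotientGroup.eq]
    simpa using hu
  rw [e, measure_biUnion_finset]
  · have h1 : ∀ q ∈ hfin.toFinset, μ (E ∩ {x | (QuotientGroup.mk x : G ⧸ U) = q}) =
        μ (E ∩ U) := by
      intro q _
      obtain ⟨q, rfl⟩ := QuotientGroup.mk_surjective q
      obtain ⟨g, hg, hgE⟩ := hEinv q
      have e2 : E ∩ {x | (QuotientGroup.mk x : G ⧸ U) = QuotientGroup.mk q} =
          (fun x => g⁻¹ * x) ⁻¹' (E ∩ U) := by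
        ext x
        simp only [Set.mem_inter_iff, Set.mem_ofPred_eq, Set.mem_preimage, SetLike.mem_coe]
        have h2 := hgE (g⁻¹ * x)
        rw [mul_inv_cancel_left] at h2
        rw [← h2]
        refine and_congr_right fun _ => ?_
        rw [eq_comm, QuotientGroup.eq]
        constructor
        · intro h3
          have := U.mul_mem hg h3
          rwa [mul_assoc, mul_inv_cancel_left] at this
        · intro h3
          have := U.mul_mem (U.inv_mem hg) h3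
          rwa [mul_inv_rev, inv_inv, mul_assoc, mul_inv_cancel_left] at this
      rw [e2, measure_preimage_mul]
    rw [Finset.sum_congr rfl h1, Finset.sum_const, Set.ncard_eq_toFinset_card S hfin, nsmul_eq_mul]
  · intro q _ q' _ hqq
    rw [Function.onFun, Set.disjoint_left]
    intro x hx hx'
    exact hqq (hx.2.symm.trans hx'.2)
  · intro q _
    exact hE.inter (hop q).measurableSet

lemma indep_coset (μ : Measure G) [IsProbabilityMeasure μ] [μ.IsMulLeftInvariant]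
    (U : Subgroup G) (hU : IsOpen (U : Set G)) [Finite (G ⧸ U)] (E : Set G) (hE : MeasurableSet E)
    (hEinv : ∀ q : G, ∃ g : G, g⁻¹ * q ∈ U ∧ ∀ x, g * x ∈ E ↔ x ∈ E) (A : Set G)
    (hA : ∀ x ∈ A, ∀ u ∈ U, x * u ∈ A) : μ (E ∩ A) = μ E * μ A := by
  have hAe : A = {x | (QuotientGroup.mk x : G ⧸ U) ∈ (QuotientGroup.mk : G → G ⧸ U) '' A} := by
    ext x
    constructor
    · intro hx
      exact ⟨x, hx, rfl⟩
    · rintro ⟨y, hy, hyx⟩
      rw [QuotientGroup.eq] at hyx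
      have := hA y hy _ hyx
      rwa [mul_inv_cancel_left] at this
  have h1 := inter_coset μ U hU E hE hEinv ((QuotientGroup.mk : G → G ⧸ U) '' A)
  have h2 := inter_coset μ U hU E hE hEinv Set.univ
  have h3 := inter_coset μ U hU Set.univ MeasurableSet.univ
    (fun q => ⟨q, by rw [inv_mul_cancel]; exact one_mem U, fun x => by simp⟩)
    ((QuotientGroup.mk : G → G ⧸ U) '' A)
  have h4 := inter_coset μ U hU Set.univ MeasurableSet.univ
    (fun q => ⟨q, by rw [inv_mul_cancel]; exact one_mem U, fun x => by simp⟩) Set.univ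
  rw [← hAe] at h1 h3
  simp only [Set.mem_univ, Set.ofPred_true, Set.inter_univ, Set.univ_inter, measure_univ]
    at h2 h3 h4
  rw [h1, h2, h3]
  calc _ = ((Set.ncard (Set.univ : Set (G ⧸ U)) : ℝ≥0∞) * μ U) *
        ((((QuotientGroup.mk : G → G ⧸ U) '' A).ncard : ℝ≥0∞) * μ (E ∩ U)) := by
        rw [← h4, one_mul]
    _ = _ := by ring

/-- independence -/
lemma indep_all (μ : Measure G) [IsProbabilityMeasure μ] [μ.IsMulLeftInvariant]
    (Λ : Set ℕ) (U : ℕ → Subgroup G) (hUn : ∀ ℓ ∈ Λ, (U ℓ).Normal)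
    (hU : ∀ ℓ ∈ Λ, IsOpen (U ℓ : Set G)) (hfin : ∀ ℓ ∈ Λ, Finite (G ⧸ U ℓ))
    (hall : ∀ S : Finset ℕ, (∀ ℓ ∈ S, ℓ ∈ Λ) → ∀ ρ : ℕ → G, ∃ σ : G, ∀ ℓ ∈ S, (ρ ℓ)⁻¹ * σ ∈ U ℓ)
    (A : ℕ → Set G) (hA : ∀ ℓ ∈ Λ, ∀ x ∈ A ℓ, ∀ u ∈ U ℓ, x * u ∈ A ℓ) (hA0 : ∀ ℓ, ℓ ∉ Λ → A ℓ = ∅)
    (S : Finset ℕ) : μ (⋂ i ∈ S, A i) = ∏ i ∈ S, μ (A i) := by
  classical
  by_cases hSΛ : ∀ ℓ ∈ S, ℓ ∈ Λ
  · induction S using Finset.induction_on with
    | empty => simp
    | insert ℓ T hℓT ih =>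
      have hT : ∀ j ∈ T, j ∈ Λ := fun j hj => hSΛ j (Finset.mem_insert_of_mem hj)
      have hℓ : ℓ ∈ Λ := hSΛ ℓ (Finset.mem_insert_self ℓ T)
      have := hfin ℓ hℓ
      rw [Finset.set_biInter_insert, Finset.prod_insert hℓT, ← ih hT, Set.inter_comm, mul_comm]
      refine indep_coset μ (U ℓ) (hU ℓ hℓ) _ ?_ ?_ (A ℓ) (hA ℓ hℓ)
      · exact Finset.measurableSet_biInter T fun j hj =>
          (isOpen_of_inv (U j) (hU j (hT j hj)) (A j) (hA j (hT j hj))).measurableSet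
      · intro q
        obtain ⟨σ, hσ⟩ := hall (insert ℓ T) hSΛ (fun j => if j = ℓ then q else 1)
        refine ⟨σ, ?_, ?_⟩
        · have h1 := hσ ℓ (Finset.mem_insert_self ℓ T)
          rw [if_pos rfl] at h1
          have h2 := (U ℓ).inv_mem h1
          rwa [mul_inv_rev, inv_inv] at h2
        · have h3 : ∀ j ∈ T, σ ∈ U j := by
            intro j hj
            have h1 := hσ j (Finset.mem_insert_of_mem hj)
            rw [if_neg (fun h : j = ℓ => hℓT (h ▸ hj)), inv_one, one_mul] at h1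
            exact h1
          have h4 : ∀ τ : G, (∀ j ∈ T, τ ∈ U j) → ∀ x, x ∈ ⋂ i ∈ T, A i →
              τ * x ∈ ⋂ i ∈ T, A i := by
            intro τ hτ x hx
            rw [Set.mem_iInter₂] at hx ⊢
            intro j hj
            have h5 := (hUn j (hT j hj)).conj_mem τ (hτ j hj) x⁻¹
            rw [inv_inv] at h5
            have h6 := hA j (hT j hj) x (hx j hj) _ h5
            rwa [mul_assoc, mul_inv_cancel_left] at h6
          intro x
          refine ⟨fun h => ?_, h4 σ h3 x⟩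
          have h5 := h4 σ⁻¹ (fun j hj => (U j).inv_mem (h3 j hj)) _ h
          rwa [inv_mul_cancel_left] at h5
  · push Not at hSΛ
    obtain ⟨ℓ, hℓ, hℓΛ⟩ := hSΛ
    rw [Finset.prod_eq_zero hℓ (by rw [hA0 ℓ hℓΛ, measure_empty])]
    refine measure_mono_null (Set.biInter_subset_of_mem hℓ) ?_
    rw [hA0 ℓ hℓΛ, measure_empty]

lemma measure_ge (μ : Measure G) [IsProbabilityMeasure μ] [μ.IsMulLeftInvariant]
    (U : Subgroup G) (hU : IsOpen (U : Set G)) [Finite (G ⧸ U)] (A : Set G)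
    (hA : ∀ x ∈ A, ∀ u ∈ U, x * u ∈ A) (n m : ℕ) (hcard : Nat.card (G ⧸ U) ≤ n * m)
    (hm : m ≤ ((QuotientGroup.mk : G → G ⧸ U) '' A).ncard) : 1 ≤ (n : ℝ≥0∞) * μ A := by
  have hAe : A = {x | (QuotientGroup.mk x : G ⧸ U) ∈ (QuotientGroup.mk : G → G ⧸ U) '' A} := by
    ext x
    constructor
    · intro hx
      exact ⟨x, hx, rfl⟩
    · rintro ⟨y, hy, hyx⟩
      rw [QuotientGroup.eq] at hyx
      have := hA y hy _ hyx
      rwa [mul_inv_cancel_left] at this
  have h3 := inter_coset μ U hU Set.univ MeasurableSet.univ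
    (fun q => ⟨q, by rw [inv_mul_cancel]; exact one_mem U, fun x => by simp⟩)
    ((QuotientGroup.mk : G → G ⧸ U) '' A)
  have h4 := inter_coset μ U hU Set.univ MeasurableSet.univ
    (fun q => ⟨q, by rw [inv_mul_cancel]; exact one_mem U, fun x => by simp⟩) Set.univ
  rw [← hAe] at h3
  simp only [Set.mem_univ, Set.ofPred_true, Set.inter_univ, Set.univ_inter, measure_univ,
    Set.ncard_univ] at h3 h4
  rw [h3, h4, ← mul_assoc]
  gcongr
  calc (Nat.card (G ⧸ U) : ℝ≥0∞) ≤ ((n * m : ℕ) : ℝ≥0∞) := by exact_mod_cast hcard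
    _ = (n : ℝ≥0∞) * m := by push_cast; rfl
    _ ≤ _ := by gcongr

end cosets

end Pool.Agent.Q33.RG
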