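import Pool.Agent.Q33.RG.Fm
import Pool.Agent.Q33.RG.Deg

/-!
# Birational sections with congruent local points
-/

set_option autoImplicit false
set_option linter.unusedSectionVars false

open IsDedekindDomain NumberField Filter Topology Polynomial

namespace Pool.Agent.Q33.RG

open Pool.Agent.TH942 Pool.Agent.TH954 Pool.Agent.TH841.NF
open Pool.Agent.Q33.SecL (Pt)
open Pool.Agent.Q33.BSec (Cpl jc_cont mem_pls toPt toPt_val toPt_val' toSec Cmp givenBy_of_cmp
  exists_pls bx bx_alg exists_ram norm_jc_exp geoPlc_of_cmp arises_of_val_zero)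

section norm

variable {K : Type} [Field K] [NumberField K] {p : ℕ} [Fact p.Prime] (φ : K →+* PadicAlgCl p)

lemma norm_jc_lt {y : Cpl φ} (hy : Valued.v y < 1) : ‖jc φ y‖ < 1 := by
  by_cases hy0 : y = 0
  · rw [hy0, map_zero, norm_zero]
    exact one_pos
  obtain ⟨e, he, hve⟩ := exists_ram φ
  have hv0 : Valued.v y ≠ 0 := (Valuation.ne_zero_iff _).2 hy0
  obtain ⟨m, hm⟩ : ∃ m : ℤ, Valued.v y = WithZero.exp m :=
    ⟨WithZero.log (Valued.v y), (WithZero.exp_log hv0).symm⟩
  have hm0 : m < 0 := by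
    rwa [hm, ← WithZero.exp_zero, WithZero.exp_lt_exp] at hy
  have h2 := norm_jc_exp φ hve hm
  have hp1 : (1 : ℝ) < p := by exact_mod_cast (Fact.out : p.Prime).one_lt
  have h3 : ‖jc φ y‖ ^ e < 1 := by
    rw [h2]
    exact zpow_lt_one_of_neg₀ hp1 hm0
  exact (pow_lt_one_iff_of_nonneg (norm_nonneg _) he.ne').1 h3

end norm

section one

variable {K : Type} [Field K] [NumberField K] {F Ω B : Type} [Field F] [Field Ω] [Field B]
  [Algebra F Ω] [Algebra K Ω] [Algebra K B] [Algebra B Ω]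
  [IsAlgClosed B] [Algebra.IsAlgebraic K B] [Algebra.IsAlgebraic F Ω]
  (s : GalSection K F Ω B)
  (pl : ∀ v : HeightOneSpectrum (𝓞 K), Plc K Ω (AlgebraicClosure (v.adicCompletion K)))
  (hj : ∀ z, algebraMap B Ω z = s.j z)
  (hpl : ∀ v : HeightOneSpectrum (𝓞 K), Cmp (L := v.adicCompletion K) s (pl v))

lemma famOf_val' {p : ℕ} [Fact p.Prime] {κ : B →+* PadicAlgCl p} {φ : K →+* PadicAlgCl p}
    (h : rs K κ = φ) (u : F) (c : PadicAlgCl p) :
    ((famOf s pl hj hpl).P p κ).Val (algebraMap F Ω u) c ↔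
      (toPt φ (pl (pls φ))).Val (algebraMap F Ω u) c := by
  subst h
  exact famOf_val s pl hj hpl κ u c

/-- an embedding of `B` above `φ` -/
lemma exists_above {p : ℕ} [Fact p.Prime] (φ : K →+* PadicAlgCl p) :
    ∃ κ : B →+* PadicAlgCl p, rs K κ = φ := by
  let alg1 : Algebra K (PadicAlgCl p) := φ.toAlgebra
  let Ψ : B →ₐ[K] PadicAlgCl p := IsAlgClosed.lift
  refine ⟨(Ψ : B →+* PadicAlgCl p), ?_⟩
  ext c
  exact Ψ.commutes c

/-- values at the places and values of the family -/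
lemma val_iff {p : ℕ} [Fact p.Prime] {κ : B →+* PadicAlgCl p} {φ : K →+* PadicAlgCl p}
    (h : rs K κ = φ) (u : F) (c : AlgebraicClosure ((pls φ).adicCompletion K)) :
    (pl (pls φ)).val (algebraMap F Ω u) c ↔
      ((famOf s pl hj hpl).P p κ).Val (algebraMap F Ω u) (bx φ c) := by
  rw [famOf_val' s pl hj hpl h]
  constructor
  · exact toPt_val
  · intro h1
    obtain ⟨c', h2, h3⟩ := toPt_val' h1
    rwa [← (bx φ).injective h3]

end one

section two

variable {K : Type} [Field K] [NumberField K] {F Ω F' Ω' B : Type} [Field F] [Field Ω]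
  [Field F'] [Field Ω'] [Field B] [Algebra K F] [Algebra F Ω] [Algebra K Ω]
  [IsScalarTower K F Ω] [Algebra K F'] [Algebra F' Ω'] [Algebra K Ω'] [IsScalarTower K F' Ω']
  [Algebra K B]

lemma geo_of_val [IsAlgClosure F Ω] [IsAlgClosure K B] (s : GalSection K F Ω B)
    (pl : ∀ v : HeightOneSpectrum (𝓞 K), Plc K Ω (AlgebraicClosure (v.adicCompletion K)))
    (hpl : ∀ v : HeightOneSpectrum (𝓞 K), Cmp (L := v.adicCompletion K) s (pl v))
    {I : Type} (o : I) (x : I → F) (hx : Transcendental K (x o))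
    (hF : Algebra.IsAlgebraic (IntermediateField.adjoin K {x o}) F) (ξ : I → K)
    (h : ∀ i v, (pl v).val (algebraMap F Ω (x i)) (algebraMap K _ (ξ i))) :
    ∃ O : ValuationSubring F, s.ArisesFrom O ∧
      ∀ i, O.valuation (x i - algebraMap K F (ξ i)) < 1 := by
  have hΩ2 : Algebra.IsAlgebraic F Ω := IsAlgClosure.isAlgebraic
  have h0 : ∀ i v, (pl v).val (algebraMap F Ω (x i - algebraMap K F (ξ i))) 0 := by
    intro i v
    have h1 := (h i v).sub (Plc.val_alg (pl := pl v) (ξ i))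
    rw [sub_self] at h1
    rw [map_sub, ← IsScalarTower.algebraMap_apply]
    exact h1
  have hg : ∀ v, GeoPlc (toSAct s) (pl v) := fun v => geoPlc_of_cmp s (hpl v)
  obtain ⟨O, hO, -, hu⟩ := arises_of_val_zero ⟨x o, hx, hF⟩ s pl hg
    (x o - algebraMap K F (ξ o)) (by
      intro h1
      apply hx
      rw [sub_eq_zero.1 h1]
      exact isAlgebraic_algebraMap _) (h0 o)
  refine ⟨O, hO, fun i => ?_⟩
  by_cases hi : x i - algebraMap K F (ξ i) = 0
  · rw [hi, map_zero]
    exact zero_lt_one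
  · obtain ⟨O', hO', h1, -⟩ := arises_of_val_zero ⟨x o, hx, hF⟩ s pl hg _ hi (h0 i)
    rw [← hu O' hO']
    exact h1

/-- **Rigidity of birational sections.** -/
theorem main [IsAlgClosure F Ω] [IsAlgClosure F' Ω'] [IsAlgClosure K B]
    (s : GalSection K F Ω B) (s' : GalSection K F' Ω' B)
    (pl : ∀ v : HeightOneSpectrum (𝓞 K), Plc K Ω (AlgebraicClosure (v.adicCompletion K)))
    (hpl : ∀ v : HeightOneSpectrum (𝓞 K), Cmp (L := v.adicCompletion K) s (pl v))
    (pl' : ∀ v : HeightOneSpectrum (𝓞 K), Plc K Ω' (AlgebraicClosure (v.adicCompletion K)))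
    (hpl' : ∀ v : HeightOneSpectrum (𝓞 K), Cmp (L := v.adicCompletion K) s' (pl' v))
    {I : Type} (o : I) (x : I → F) (x' : I → F') (hx : Transcendental K (x o))
    (hF : Algebra.IsAlgebraic (IntermediateField.adjoin K {x o}) F)
    (hx' : Transcendental K (x' o))
    (hF' : Algebra.IsAlgebraic (IntermediateField.adjoin K {x' o}) F')
    (hC : ∀ i, ¬ Null fun v : HeightOneSpectrum (𝓞 K) => ∃ c c' : v.adicCompletion K,
      (pl v).val (algebraMap F Ω (x i)) (algebraMap _ _ c) ∧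
      (pl' v).val (algebraMap F' Ω' (x' i)) (algebraMap _ _ c') ∧ Valued.v (c - c') < 1) :
    (∀ i v c, (pl v).val (algebraMap F Ω (x i)) c ↔ (pl' v).val (algebraMap F' Ω' (x' i)) c) ∧
    ((∃ e : Ω ≃ₐ[K] Ω', (∀ i, e (algebraMap F Ω (x i)) = algebraMap F' Ω' (x' i)) ∧
        (∀ z, e (s.j z) = s'.j z) ∧ ∀ g y, e (s.s g y) = s'.s g (e y)) ∨
      ∃ (ξ : I → K) (O : ValuationSubring F) (O' : ValuationSubring F'),
        s.ArisesFrom O ∧ s'.ArisesFrom O' ∧
        ∀ i, O.valuation (x i - algebraMap K F (ξ i)) < 1 ∧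
          O'.valuation (x' i - algebraMap K F' (ξ i)) < 1) := by
  have hΩ1 : IsAlgClosed Ω := IsAlgClosure.isAlgClosed F
  have hΩ2 : Algebra.IsAlgebraic F Ω := IsAlgClosure.isAlgebraic
  have hΩ1' : IsAlgClosed Ω' := IsAlgClosure.isAlgClosed F'
  have hΩ2' : Algebra.IsAlgebraic F' Ω' := IsAlgClosure.isAlgebraic
  have hB1 : IsAlgClosed B := IsAlgClosure.isAlgClosed K
  have hB2 : Algebra.IsAlgebraic K B := IsAlgClosure.isAlgebraic
  let algB : Algebra B Ω := (s.j : B →+* Ω).toAlgebra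
  let algB' : Algebra B Ω' := (s'.j : B →+* Ω').toAlgebra
  have hj : ∀ z, algebraMap B Ω z = s.j z := fun _ => rfl
  have hj' : ∀ z, algebraMap B Ω' z = s'.j z := fun _ => rfl
  have tow : IsScalarTower K B Ω := IsScalarTower.of_algebraMap_eq fun c => (s.j.commutes c).symm
  have tow' : IsScalarTower K B Ω' :=
    IsScalarTower.of_algebraMap_eq fun c => (s'.j.commutes c).symm
  set Q := famOf s pl hj hpl with hQ
  set Q' := famOf s' pl' hj' hpl' with hQ'
  have hfix := famOf_fix s hj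
  have hfix' := famOf_fix s' hj'
  -- the embeddings
  have hCg : ∀ i, ¬ Null (Cong (K := K) Q Q' (algebraMap F Ω (x i))
      (algebraMap F' Ω' (x' i))) := by
    intro i hN
    apply hC i
    refine hN.mono ?_
    rintro v ⟨c, c', h1, h2, h3⟩
    obtain ⟨p, hp, φ, rfl⟩ := exists_pls v
    obtain ⟨κ, hκ⟩ := exists_above (B := B) φ
    refine ⟨p, hp, κ, by rw [hκ], jc φ c, jc φ c', ?_, ?_, ?_⟩
    · rw [← bx_alg φ c]
      exact (val_iff s pl hj hpl hκ _ _).1 h1
    · rw [← bx_alg φ c']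
      exact (val_iff s' pl' hj' hpl' hκ _ _).1 h2
    · rw [← map_sub]
      exact norm_jc_lt φ h3
  have hrel : ∀ i, Rel Q Q' (algebraMap F Ω (x i)) (algebraMap F' Ω' (x' i)) := fun i p _ κ c =>
    rigid_iff Q Q' (fun σ => hfix (x i) σ) (fun σ => hfix' (x' i) σ) (hCg i) p κ c
  have hval : ∀ i v c, (pl v).val (algebraMap F Ω (x i)) c ↔
      (pl' v).val (algebraMap F' Ω' (x' i)) c := by
    intro i v c
    obtain ⟨p, hp, φ, rfl⟩ := exists_pls v
    obtain ⟨κ, hκ⟩ := exists_above (B := B) φ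
    rw [val_iff s pl hj hpl hκ, val_iff s' pl' hj' hpl' hκ]
    exact hrel i p κ _
  refine ⟨hval, ?_⟩
  by_cases hng : NG Q F ∧ NG Q' F'
  · left
    have ok : Ok Q Q' F F' := ⟨fun σ f => hfix f σ, fun σ f => hfix' f σ, hng.1, hng.2⟩
    have hK : ∀ c : K, algebraMap F Ω (algebraMap K F c) =
        algebraMap B Ω (algebraMap K B c) := fun c => by
      rw [← IsScalarTower.algebraMap_apply, ← IsScalarTower.algebraMap_apply]
    have hK' : ∀ c : K, algebraMap F' Ω' (algebraMap K F' c) =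
        algebraMap B Ω' (algebraMap K B c) := fun c => by
      rw [← IsScalarTower.algebraMap_apply, ← IsScalarTower.algebraMap_apply]
    obtain ⟨e, he⟩ := exists_iso ok (rel_total ok hK hF (hrel o)) (fun z' => by
      obtain ⟨z, hz⟩ := rel_total ok.symm hK' hF' (hrel o).symm z'
      exact ⟨z, hz.symm⟩)
    refine ⟨AlgEquiv.ofRingEquiv (f := e) ?_, ?_, ?_, ?_⟩
    · intro c
      rw [IsScalarTower.algebraMap_apply K B Ω, iso_alg ok he,
        ← IsScalarTower.algebraMap_apply K B Ω']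
    · intro i
      exact rel_unique ok (he _) (hrel i)
    · intro z
      exact iso_alg ok he z
    · intro g y
      exact iso_act ok he g y
  · right
    obtain ⟨ξ, hξ⟩ : ∃ ξ : I → K, ∀ i (p : ℕ) [Fact p.Prime] (κ : B →+* PadicAlgCl p),
        (Q.P p κ).Val (algebraMap F Ω (x i)) (rs K κ (ξ i)) := by
      have hne : ∀ i, ∃ (p : ℕ) (_ : Fact p.Prime) (κ : B →+* PadicAlgCl p),
          algebraMap F Ω (x i) ∈ (Q.P p κ).W := by
        intro i
        by_contra hcon
        push Not at hcon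
        apply hCg i
        refine Null.mono null_false ?_
        rintro v ⟨p, hp, κ, -, c, c', h1, -, -⟩
        exact hcon p hp κ h1.1
      have hc : ∀ i, ∃ ξ : K, ∀ (p : ℕ) [Fact p.Prime] (κ : B →+* PadicAlgCl p),
          (Q.P p κ).Val (algebraMap F Ω (x i)) (rs K κ ξ) := by
        intro i
        obtain ⟨p0, hp0, κ0, h0⟩ := hne i
        by_cases h1 : NG Q F
        · have h2 : ¬ NG Q' F' := fun h => hng ⟨h1, h⟩
          unfold NG at h2
          push Not at h2
          obtain ⟨f, hf, h3⟩ := h2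
          obtain ⟨g, hg, h4⟩ := exists_poly_zero (K := K) Q' ((_root_.map_ne_zero _).2 hf)
            (fun p hp κ => h3 p hp κ) (algebraMap F' Ω' (x' i)) (fun hy =>
              (alg_adjoin_of_dim ⟨x' o, hx', hF'⟩ _ hy).isAlgebraic _)
          exact const_of_poly Q (fun σ => hfix (x i) σ) hg (fun p _ κ c hc =>
            h4 p κ c ((hrel i p κ c).1 hc)) h0
        · unfold NG at h1
          push Not at h1
          obtain ⟨f, hf, h3⟩ := h1
          obtain ⟨g, hg, h4⟩ := exists_poly_zero (K := K) Q ((_root_.map_ne_zero _).2 hf)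
            (fun p hp κ => h3 p hp κ) (algebraMap F Ω (x i)) (fun hy =>
              (alg_adjoin_of_dim ⟨x o, hx, hF⟩ _ hy).isAlgebraic _)
          exact const_of_poly Q (fun σ => hfix (x i) σ) hg h4 h0
      choose ξ hξ using hc
      exact ⟨ξ, hξ⟩
    have hv : ∀ i v, (pl v).val (algebraMap F Ω (x i)) (algebraMap K _ (ξ i)) := by
      intro i v
      obtain ⟨p, hp, φ, rfl⟩ := exists_pls v
      obtain ⟨κ, hκ⟩ := exists_above (B := B) φ
      rw [val_iff s pl hj hpl hκ, IsScalarTower.algebraMap_apply K (Cpl φ), bx_alg, jc_coe, ← hκ]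
      exact hξ i p κ
    obtain ⟨O, hO, hOx⟩ := geo_of_val s pl hpl o x hx hF ξ hv
    obtain ⟨O', hO', hOx'⟩ := geo_of_val s' pl' hpl' o x' hx' hF' ξ (fun i v =>
      (hval i v _).1 (hv i v))
    exact ⟨ξ, O, O', hO, hO', fun i => ⟨hOx i, hOx' i⟩⟩

end two

end Pool.Agent.Q33.RG
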