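import Pool.Agent.Q33.RG.Meas

/-!
# The automorphisms with fixed radicals for almost all primes form a null set
-/

set_option autoImplicit false
set_option linter.unusedSectionVars false

namespace Pool.Agent.Q33.RG

open MeasureTheory Topology Filter NumberField IsDedekindDomain
open Pool.Agent.W401.Cheb
open scoped ENNReal

variable {K : Type} [Field K] [NumberField K]

/-- the automorphisms fixing all `ℓ`-th roots of `b` -/
def Ub (b : K) (ℓ : ℕ) : Subgroup (GK K) where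
  carrier := {σ | ∀ y : AlgebraicClosure K, y ^ ℓ = algebraMap K _ b → σ y = y}
  one_mem' := fun _ _ => rfl
  mul_mem' := by
    intro σ τ hσ hτ y hy
    change σ (τ y) = y
    rw [hτ y hy, hσ y hy]
  inv_mem' := by
    intro σ hσ y hy
    change σ.symm y = y
    rw [AlgEquiv.symm_apply_eq, hσ y hy]

lemma Ub_normal (b : K) (ℓ : ℕ) : (Ub b ℓ).Normal := by
  refine ⟨fun σ hσ τ y hy => ?_⟩
  change τ (σ (τ.symm y)) = y
  have h1 : (τ.symm y) ^ ℓ = algebraMap K _ b := by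
    rw [← map_pow, hy]
    exact τ.symm.commutes b
  rw [hσ _ h1, AlgEquiv.apply_symm_apply]

lemma roots_finite (b : K) {ℓ : ℕ} (hℓ : 0 < ℓ) :
    {y : AlgebraicClosure K | y ^ ℓ = algebraMap K _ b}.Finite := by
  classical
  refine (Polynomial.nthRoots ℓ (algebraMap K (AlgebraicClosure K) b)).toFinset.finite_toSet.subset ?_
  intro y hy
  rw [Finset.mem_coe, Multiset.mem_toFinset, Polynomial.mem_nthRoots hℓ]
  exact hy

lemma Ub_open (b : K) {ℓ : ℕ} (hℓ : 0 < ℓ) : IsOpen (Ub b ℓ : Set (GK K)) := by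
  have h1 : (Ub b ℓ : Set (GK K)) = ⋂ y ∈ {y : AlgebraicClosure K | y ^ ℓ = algebraMap K _ b},
      {σ : GK K | σ y = y} := by
    ext σ
    simp only [Set.mem_iInter]
    rfl
  rw [h1]
  refine (roots_finite b hℓ).isOpen_biInter fun y _ => ?_
  exact stabilizer_isOpen_of_isIntegral (K := K) (L := AlgebraicClosure K) y

/-- the automorphisms without fixed `ℓ`-th root of `b` -/
def Ab (b : K) (ℓ : ℕ) : Set (GK K) :=
  {σ | ∀ y : AlgebraicClosure K, y ^ ℓ = algebraMap K _ b → σ y ≠ y}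

lemma Ab_inv (b : K) (ℓ : ℕ) : ∀ x ∈ Ab b ℓ, ∀ u ∈ Ub b ℓ, x * u ∈ Ab b ℓ := by
  intro x hx u hu y hy
  change x (u y) ≠ y
  rw [hu y hy]
  exact hx y hy

lemma Ab_conj (b : K) (ℓ : ℕ) {σ : GK K} (τ : GK K) (h : τ * σ * τ⁻¹ ∈ Ab b ℓ) : σ ∈ Ab b ℓ := by
  intro y hy h1
  have h2 : (τ y) ^ ℓ = algebraMap K _ b := by
    rw [← map_pow, hy]
    exact τ.commutes b
  apply h (τ y) h2
  change τ (σ (τ.symm (τ y))) = τ y
  rw [AlgEquiv.symm_apply_apply, h1]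

/-- The density of `Ab b ℓ` is at least `1 / ℓ`. -/
lemma Ab_card (b : K) {ℓ : ℕ} (hℓ : ℓ.Prime) (hb : b ≠ 0)
    (hmove : ∃ τ : GK K, (∀ ζ : AlgebraicClosure K, ζ ^ ℓ = 1 → τ ζ = ζ) ∧
      ∃ β : AlgebraicClosure K, β ^ ℓ = algebraMap K _ b ∧ τ β ≠ β) :
    Nat.card (GK K ⧸ Ub b ℓ) ≤ ℓ * (ℓ - 1) ∧
      ℓ - 1 ≤ ((QuotientGroup.mk : GK K → GK K ⧸ Ub b ℓ) '' Ab b ℓ).ncard := by
  classical
  have hpr : Fact ℓ.Prime := ⟨hℓ⟩
  obtain ⟨τ, hτ, β, hβ, hτβ⟩ := hmove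
  have hcA : CharZero (AlgebraicClosure K) :=
    charZero_of_injective_algebraMap (algebraMap K _).injective
  obtain ⟨ζ, hζ⟩ := exists_prim (AlgebraicClosure K) ℓ
  have hb' : algebraMap K (AlgebraicClosure K) b ≠ 0 := (map_ne_zero _).2 hb
  have hβ0 : β ≠ 0 := by
    rintro rfl
    rw [zero_pow hℓ.ne_zero] at hβ
    exact hb' hβ.symm
  have hopen := Ub_open b hℓ.pos
  have hfin : Finite (GK K ⧸ Ub b ℓ) := Subgroup.quotient_finite_of_isOpen _ hopen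
  have hroots : ∀ y : AlgebraicClosure K, y ^ ℓ = algebraMap K _ b → ∃ i < ℓ, ζ ^ i * β = y := by
    intro y hy
    obtain ⟨i, hi, hi'⟩ := hζ.eq_pow_of_pow_eq_one (ξ := y / β) (by
      rw [div_pow, hy, hβ, div_self hb'])
    exact ⟨i, hi, by rw [hi', div_mul_cancel₀ _ hβ0]⟩
  constructor
  · -- upper bound
    have h1 : ∀ σ : GK K, ∃ i < ℓ, ζ ^ i * β = σ β := fun σ => hroots (σ β) (by
      rw [← map_pow, hβ]
      exact σ.commutes b)
    choose i hi hi' using h1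
    have h2 : ∀ σ : GK K, ∃ j < ℓ, j ≠ 0 ∧ ζ ^ j = σ ζ := by
      intro σ
      obtain ⟨j, hj, hj'⟩ := hζ.eq_pow_of_pow_eq_one (ξ := σ ζ) (by
        rw [← map_pow, hζ.pow_eq_one, map_one])
      refine ⟨j, hj, ?_, hj'⟩
      rintro rfl
      rw [pow_zero] at hj'
      have h3 : σ ζ = σ 1 := by rw [map_one]; exact hj'.symm
      exact hζ.ne_one hℓ.one_lt (σ.injective h3)
    choose j hj hj0 hj' using h2
    let f : GK K ⧸ Ub b ℓ → Fin ℓ × Fin (ℓ - 1) := fun q =>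
      (⟨i q.out, hi _⟩, ⟨j q.out - 1, by
        have h3 := hj q.out
        have h4 := hj0 q.out
        omega⟩)
    have hf : Function.Injective f := by
      intro q q' h
      rw [← QuotientGroup.out_eq' q, ← QuotientGroup.out_eq' q', QuotientGroup.eq]
      rw [Prod.ext_iff] at h
      have e1 : i q.out = i q'.out := congrArg Fin.val h.1
      have e2 : j q.out - 1 = j q'.out - 1 := congrArg Fin.val h.2
      have e3 : j q.out = j q'.out := by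
        have h4 := hj0 q.out
        have h5 := hj0 q'.out
        omega
      have e4 : q.out β = q'.out β := by rw [← hi', ← hi', e1]
      have e5 : q.out ζ = q'.out ζ := by rw [← hj', ← hj', e3]
      intro y hy
      obtain ⟨k, -, rfl⟩ := hroots y hy
      change q.out.symm (q'.out (ζ ^ k * β)) = _
      rw [map_mul, map_pow, ← e4, ← e5, ← map_pow, ← map_mul, AlgEquiv.symm_apply_apply]
    have h3 := Nat.card_le_card_of_injective f hf
    rwa [Nat.card_prod, Nat.card_fin, Nat.card_fin] at h3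
  · -- lower bound
    set χ := τ β / β with hχ
    have hχℓ : χ ^ ℓ = 1 := by
      rw [hχ, div_pow, ← map_pow, hβ, AlgEquiv.commutes, div_self hb']
    have hχ1 : χ ≠ 1 := by
      rw [hχ, Ne, div_eq_one_iff_eq hβ0]
      exact hτβ
    have hprim : IsPrimitiveRoot χ ℓ := by
      have h3 := IsPrimitiveRoot.orderOf χ
      have h4 : orderOf χ = ℓ := orderOf_eq_prime hχℓ hχ1
      rwa [h4] at h3
    have hpow : ∀ (n : ℕ) (y : AlgebraicClosure K), y ^ ℓ = algebraMap K _ b →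
        (τ ^ n) y = χ ^ n * y := by
      intro n y hy
      have hy1 : τ y = χ * y := by
        have hy0 : y ≠ 0 := by
          rintro rfl
          rw [zero_pow hℓ.ne_zero] at hy
          exact hb' hy.symm
        rw [hχ, ← mult_of_TS hτ hb hℓ.ne_zero hy hβ, div_mul_cancel₀ _ hy0]
      induction n with
      | zero => simp
      | succ n ih =>
        rw [pow_succ', AlgEquiv.mul_apply, ih, map_mul, map_pow, hτ χ hχℓ, hy1, pow_succ]
        ring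
    have hmem : ∀ k : Fin (ℓ - 1), τ ^ (k.val + 1) ∈ Ab b ℓ := by
      intro k y hy h
      rw [hpow _ y hy] at h
      have hy0 : y ≠ 0 := by
        rintro rfl
        rw [zero_pow hℓ.ne_zero] at hy
        exact hb' hy.symm
      have h1 : χ ^ (k.val + 1) = 1 := by
        have h2 : χ ^ (k.val + 1) * y = 1 * y := by rw [h, one_mul]
        exact mul_right_cancel₀ hy0 h2
      have h2 := (hprim.pow_eq_one_iff_dvd _).1 h1
      have h3 := Nat.le_of_dvd (Nat.succ_pos _) h2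
      have h4 := k.isLt
      omega
    let g : Fin (ℓ - 1) → ((QuotientGroup.mk : GK K → GK K ⧸ Ub b ℓ) '' Ab b ℓ) := fun k =>
      ⟨QuotientGroup.mk (τ ^ (k.val + 1)), ⟨_, hmem k, rfl⟩⟩
    have hg : Function.Injective g := by
      intro k k' h
      have h1 : (QuotientGroup.mk (τ ^ (k.val + 1)) : GK K ⧸ Ub b ℓ) =
        QuotientGroup.mk (τ ^ (k'.val + 1)) := congrArg Subtype.val h
      rw [QuotientGroup.eq] at h1
      have h2 : ((τ ^ (k.val + 1))⁻¹ * τ ^ (k'.val + 1) : GK K) β = β := h1 β hβ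
      have h3 : (τ ^ (k'.val + 1)) β = (τ ^ (k.val + 1)) β := by
        have h4 : (τ ^ (k.val + 1)) (((τ ^ (k.val + 1))⁻¹ * τ ^ (k'.val + 1) : GK K) β) =
            (τ ^ (k.val + 1)) β := by rw [h2]
        rwa [← AlgEquiv.mul_apply, mul_inv_cancel_left] at h4
      rw [hpow _ β hβ, hpow _ β hβ] at h3
      have h5 := mul_right_cancel₀ hβ0 h3
      have h6 := hprim.pow_inj (by have := k'.isLt; omega) (by have := k.isLt; omega) h5
      apply Fin.ext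
      omega
    have h3 := Nat.card_le_card_of_injective g hg
    rwa [Nat.card_fin] at h3

/-- the sum of the reciprocals of almost all primes diverges -/
lemma tsum_top (Λ : Set ℕ) (hΛ : ∀ᶠ ℓ in Filter.cofinite, ℓ.Prime → ℓ ∈ Λ)
    (f : ℕ → ℝ≥0∞) (hf : ∀ ℓ ∈ Λ, ℓ.Prime → 1 ≤ (ℓ : ℝ≥0∞) * f ℓ) : ∑' n, f n = ∞ := by
  classical
  by_contra hne
  have h1 : Summable fun n => (f n).toReal := ENNReal.summable_toReal hne
  have h2 : ∀ n, f n ≠ ∞ := fun n => ENNReal.ne_top_of_tsum_ne_top hne n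
  apply not_summable_one_div_on_primes
  have h3 : Summable fun n => if n ∈ Λ then Set.indicator {p : ℕ | p.Prime} (fun n : ℕ => (1 : ℝ) / n) n
      else 0 := by
    refine Summable.of_nonneg_of_le (fun n => ?_) (fun n => ?_) h1
    · split_ifs
      · exact Set.indicator_nonneg (fun _ _ => by positivity) _
      · exact le_rfl
    · split_ifs with h
      · by_cases hp : n.Prime
        · rw [Set.indicator_of_mem (show n ∈ {p : ℕ | p.Prime} from hp)]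
          have h4 := hf n h hp
          have h5 := ENNReal.toReal_mono (ENNReal.mul_ne_top (by simp) (h2 n)) h4
          rw [ENNReal.toReal_mul, ENNReal.toReal_one, ENNReal.toReal_natCast] at h5
          have hn : (0 : ℝ) < n := by exact_mod_cast hp.pos
          rw [div_le_iff₀ hn, mul_comm]
          exact h5
        · rw [Set.indicator_of_notMem (show n ∉ {p : ℕ | p.Prime} from hp)]
          exact ENNReal.toReal_nonneg
      · exact ENNReal.toReal_nonneg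
  refine (summable_congr_cofinite ?_).1 h3
  filter_upwards [hΛ] with n hn
  by_cases hp : n.Prime
  · rw [if_pos (hn hp)]
  · rw [Set.indicator_of_notMem (show n ∉ {p : ℕ | p.Prime} from hp), ite_self]

/-- nontrivial translations -/
lemma exists_move1 (m : ℕ) (hm : ∀ N : ℕ, 0 < N → Nat.Coprime m N →
      ∀ a : (ZMod N)ˣ, ∃ σ : GK K, Acts σ N (a : ZMod N)) {ℓ : ℕ} (hℓ : ℓ.Prime) (h2 : 2 < ℓ)
    (hco : Nat.Coprime m ℓ) {b : K} (hb : b ≠ 0) (hbp : ∀ c : K, c ^ ℓ ≠ b) :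
    ∃ τ : GK K, (∀ ζ : AlgebraicClosure K, ζ ^ ℓ = 1 → τ ζ = ζ) ∧
      ∃ β : AlgebraicClosure K, β ^ ℓ = algebraMap K _ b ∧ τ β ≠ β := by
  have hcA : CharZero (AlgebraicClosure K) :=
    charZero_of_injective_algebraMap (algebraMap K _).injective
  have i1 : NeZero ℓ := ⟨hℓ.ne_zero⟩
  have i2 : Fact ℓ.Prime := ⟨hℓ⟩
  obtain ⟨ζ, hζ⟩ := exists_prim (AlgebraicClosure K) ℓ
  obtain ⟨ρ', hρ'⟩ := hm ℓ hℓ.pos hco (-1)
  have hS : ∀ q ∈ ({ℓ} : Finset ℕ), q.Prime := by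
    intro q hq
    rw [Finset.mem_singleton] at hq
    rwa [hq]
  obtain ⟨τ, hτ, β, hβ, hτβ⟩ := exists_move hℓ hζ hb hbp
    (TS K (AlgebraicClosure K) {ℓ} : Set (GK K)) (comm_mem_TS {ℓ} hS) ρ' (by
      intro h
      have h1 := hρ' ζ hζ.pow_eq_one
      rw [h] at h1
      have h2 : ζ ^ 1 = ζ ^ ((-1 : (ZMod ℓ)ˣ) : ZMod ℓ).val := by rw [pow_one]; exact h1
      have h3 := hζ.pow_inj hℓ.one_lt (ZMod.val_lt _) h2
      have h4 : (1 : ZMod ℓ) = -1 := by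
        have := congrArg (Nat.cast : ℕ → ZMod ℓ) h3
        rwa [Nat.cast_one, ZMod.natCast_zmod_val, Units.val_neg, Units.val_one] at this
      have h5 : ((2 : ℕ) : ZMod ℓ) = 0 := by
        push_cast
        linear_combination h4
      rw [ZMod.natCast_eq_zero_iff] at h5
      have := Nat.le_of_dvd two_pos h5
      omega)
  exact ⟨τ, hτ ℓ (Finset.mem_singleton_self ℓ), β, hβ, hτβ⟩

/-- the automorphisms which move all `ℓ`-th roots of `b ℓ` for at most one `ℓ ∈ Λ` -/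
def ZZ (b : ℕ → K) (Λ : Set ℕ) : Set (GK K) :=
  {σ | ∀ ℓ ∈ Λ, ∀ ℓ' ∈ Λ, ℓ ≠ ℓ' → σ ∉ Ab (b ℓ) ℓ ∨ σ ∉ Ab (b ℓ') ℓ'}

/-- **Density zero.** -/
theorem dens_ZZ (b : ℕ → K)
    (hb : ∀ᶠ ℓ in Filter.cofinite, ℓ.Prime → b ℓ ≠ 0 ∧ ∀ c : K, c ^ ℓ ≠ b ℓ) :
    ∃ Λ : Set ℕ, (∀ ℓ ∈ Λ, ℓ.Prime) ∧
      Tendsto (dens fun v : HeightOneSpectrum (𝓞 K) => ∃ σ ∈ ZZ b Λ, IsFrob v σ) atTop (𝓝 0) := by
  classical
  obtain ⟨m, hm0, hm⟩ := exists_modulus (K := K) (A := AlgebraicClosure K)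
  let Λ : Set ℕ := {ℓ | ℓ.Prime ∧ 2 < ℓ ∧ Nat.Coprime m ℓ ∧ b ℓ ≠ 0 ∧ ∀ c : K, c ^ ℓ ≠ b ℓ}
  have hΛ : ∀ᶠ ℓ in Filter.cofinite, ℓ.Prime → ℓ ∈ Λ := by
    have h1 : ∀ᶠ ℓ in Filter.cofinite, 2 < ℓ ∧ m < ℓ := by
      rw [Nat.cofinite_eq_atTop]
      exact (eventually_gt_atTop 2).and (eventually_gt_atTop m)
    filter_upwards [hb, h1] with ℓ h2 h3 hp
    obtain ⟨h4, h5⟩ := h2 hp
    refine ⟨hp, h3.1, ?_, h4, h5⟩
    exact (Nat.coprime_of_lt_prime hm0.ne' h3.2 hp).symm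
  refine ⟨Λ, fun ℓ hℓ => hℓ.1, ?_⟩
  let : MeasurableSpace (GK K) := borel (GK K)
  have : BorelSpace (GK K) := ⟨rfl⟩
  let μ : Measure (GK K) := Measure.haarMeasure ⊤
  have : IsProbabilityMeasure μ := ⟨by
    have := Measure.haarMeasure_self (K₀ := (⊤ : TopologicalSpace.PositiveCompacts (GK K)))
    exact this⟩
  have hopen : ∀ ℓ ∈ Λ, IsOpen (Ub (b ℓ) ℓ : Set (GK K)) := fun ℓ hℓ => Ub_open _ hℓ.1.pos
  have hAopen : ∀ ℓ ∈ Λ, IsOpen (Ab (b ℓ) ℓ) := fun ℓ hℓ =>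
    isOpen_of_inv _ (hopen ℓ hℓ) _ (Ab_inv _ _)
  have hAclosed : ∀ ℓ ∈ Λ, IsOpen (Ab (b ℓ) ℓ)ᶜ := fun ℓ hℓ => by
    refine isOpen_of_inv _ (hopen ℓ hℓ) _ ?_
    intro x hx u hu h
    apply hx
    have h1 := Ab_inv (b ℓ) ℓ _ h u⁻¹ ((Ub (b ℓ) ℓ).inv_mem hu)
    rwa [mul_inv_cancel_right] at h1
  refine Pool.Agent.W528.Ord.dens_null μ (ZZ b Λ) ?_ ?_ ?_
  · have h1 : ZZ b Λ = ⋂ ℓ ∈ Λ, ⋂ ℓ' ∈ Λ, ⋂ (_ : ℓ ≠ ℓ'), ((Ab (b ℓ) ℓ)ᶜ ∪ (Ab (b ℓ') ℓ')ᶜ) := by
      ext σ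
      simp only [Set.mem_iInter]
      rfl
    rw [h1]
    exact isClosed_biInter fun ℓ hℓ => isClosed_biInter fun ℓ' hℓ' => isClosed_iInter fun _ =>
      (hAopen ℓ hℓ).isClosed_compl.union (hAopen ℓ' hℓ').isClosed_compl
  · intro σ hσ τ ℓ hℓ ℓ' hℓ' hne
    exact (hσ ℓ hℓ ℓ' hℓ' hne).imp (fun h h' => h (Ab_conj _ _ τ h')) (fun h h' =>
      h (Ab_conj _ _ τ h'))
  · let s : ℕ → Set (GK K) := fun n => if n ∈ Λ then Ab (b n) n else ∅
    have hs1 : ∀ n ∈ Λ, s n = Ab (b n) n := fun n hn => if_pos hn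
    have hs0 : ∀ n, n ∉ Λ → s n = ∅ := fun n hn => if_neg hn
    have hsm : ∀ n, MeasurableSet (s n) := by
      intro n
      by_cases hn : n ∈ Λ
      · rw [hs1 n hn]
        exact (hAopen n hn).measurableSet
      · rw [hs0 n hn]
        exact MeasurableSet.empty
    have hfin : ∀ ℓ ∈ Λ, Finite (GK K ⧸ Ub (b ℓ) ℓ) := fun ℓ hℓ =>
      Subgroup.quotient_finite_of_isOpen _ (hopen ℓ hℓ)
    have hind : ProbabilityTheory.iIndepSet s μ := by
      rw [ProbabilityTheory.iIndepSet_iff_meas_biInter hsm]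
      intro S
      refine indep_all μ Λ (fun ℓ => Ub (b ℓ) ℓ) (fun ℓ _ => Ub_normal _ _) hopen hfin ?_ s ?_ hs0 S
      · intro S hS ρ
        obtain ⟨σ, hσ⟩ := exists_all m hm S (fun ℓ hℓ => ⟨(hS ℓ hℓ).1, (hS ℓ hℓ).2.1,
          (hS ℓ hℓ).2.2.1⟩) b (fun ℓ hℓ => (hS ℓ hℓ).2.2.2.1) (fun ℓ hℓ => (hS ℓ hℓ).2.2.2.2) ρ
        refine ⟨σ, fun ℓ hℓ y hy => ?_⟩
        change (ρ ℓ).symm (σ y) = y
        rw [hσ ℓ hℓ y hy, AlgEquiv.symm_apply_apply]
      · intro ℓ hℓ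
        rw [hs1 ℓ hℓ]
        exact Ab_inv _ _
    have hsum : ∑' n, μ (s n) = ∞ := by
      refine tsum_top Λ hΛ (fun n => μ (s n)) ?_
      intro ℓ hℓ hp
      have := hfin ℓ hℓ
      change 1 ≤ (ℓ : ℝ≥0∞) * μ (s ℓ)
      rw [hs1 ℓ hℓ]
      obtain ⟨h1, h2⟩ := Ab_card (b ℓ) hp hℓ.2.2.2.1 (exists_move1 m hm hp hℓ.2.1 hℓ.2.2.1
        hℓ.2.2.2.1 hℓ.2.2.2.2)
      exact measure_ge μ (Ub (b ℓ) ℓ) (hopen ℓ hℓ) _ (Ab_inv _ _) ℓ (ℓ - 1) h1 h2
    have hone := ProbabilityTheory.measure_limsup_eq_one hsm hind hsum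
    have hml : MeasurableSet (limsup s atTop) := MeasurableSet.measurableSet_limsup hsm
    have hz : μ (limsup s atTop)ᶜ = 0 := (prob_compl_eq_zero_iff hml).2 hone
    refine measure_mono_null ?_ hz
    intro σ hσ hmem
    rw [mem_limsup_iff_frequently_mem, frequently_atTop] at hmem
    obtain ⟨n, -, hn⟩ := hmem 0
    obtain ⟨n', hn', hn''⟩ := hmem (n + 1)
    have h1 : n ∈ Λ := by
      by_contra h
      rw [hs0 n h] at hn
      exact hn
    have h2 : n' ∈ Λ := by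
      by_contra h
      rw [hs0 n' h] at hn''
      exact hn''
    rw [hs1 n h1] at hn
    rw [hs1 n' h2] at hn''
    rcases hσ n h1 n' h2 (by omega) with h | h
    · exact h hn
    · exact h hn''

end Pool.Agent.Q33.RG
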