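import Pool.Agent.Q33.RG.Bc

/-!
# Elements with the same values
-/

set_option autoImplicit false
set_option linter.unusedSectionVars false

open IsDedekindDomain NumberField Filter Topology Polynomial

namespace Pool.Agent.Q33.RG

open Pool.Agent.TH841.NF
open Pool.Agent.Q33.SecL (Pt)
open Pool.Agent.Q33.BSec (exists_pls)

section kap

variable {K B : Type} [Field K] [NumberField K] [Field B] [Algebra K B] [Algebra.IsAlgebraic K B]

/-- every place belongs to an embedding of `B` -/
lemma exists_kap (v : HeightOneSpectrum (𝓞 K)) : ∃ (p : ℕ) (_ : Fact p.Prime)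
    (κ : B →+* PadicAlgCl p), pls (rs K κ) = v := by
  obtain ⟨p, hp, φ, hφ⟩ := exists_pls v
  let alg1 : Algebra K (PadicAlgCl p) := φ.toAlgebra
  let Ψ : B →ₐ[K] PadicAlgCl p := IsAlgClosed.lift
  refine ⟨p, hp, (Ψ : B →+* PadicAlgCl p), ?_⟩
  have e : rs K (Ψ : B →+* PadicAlgCl p) = φ := by
    ext c
    exact Ψ.commutes c
  rw [e, hφ]

end kap

section root

variable {M M' N : Type} [Field M] [Field M'] [Field N]

lemma mem_of_monic (W : ValuationSubring M) {f : M[X]} (hf : f.Monic) (hW : ∀ j, f.coeff j ∈ W)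
    {z : M} (hz : f.eval z = 0) : z ∈ W := by
  have h3 : IsIntegral W z := by
    have hW' : ∀ x ∈ f.coeffs, x ∈ W.toSubring := by
      intro x hx
      obtain ⟨j, -, rfl⟩ := Polynomial.mem_coeffs_iff.1 hx
      exact hW j
    refine ⟨f.toSubring W.toSubring hW', (Polynomial.monic_toSubring _ _ _).2 hf, ?_⟩
    have h1 := Polynomial.map_toSubring f W.toSubring hW'
    have h2 : eval z ((f.toSubring W.toSubring hW').map W.toSubring.subtype) = 0 := by
      rw [h1, hz]
    rw [Polynomial.eval_map] at h2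
    exact h2
  obtain ⟨y, hy⟩ := IsIntegrallyClosed.isIntegral_iff.1 h3
  rw [← hy]
  exact y.2

/-- roots of polynomials with the same reduction -/
theorem root_transfer (W : ValuationSubring M) (ρ : W →+* N) (W' : ValuationSubring M')
    (ρ' : W' →+* N) {f : M[X]} {f' : M'[X]} (hf : f.Monic) (hf' : f'.Monic)
    (hs : f'.Splits) (hW : ∀ j, f.coeff j ∈ W) (hW' : ∀ j, f'.coeff j ∈ W')
    (hc : ∀ j, ρ ⟨f.coeff j, hW j⟩ = ρ' ⟨f'.coeff j, hW' j⟩) {z : M} (hz : f.eval z = 0) :
    ∃ (h : z ∈ W) (r : M') (_ : r ∈ f'.roots) (h' : r ∈ W'), ρ ⟨z, h⟩ = ρ' ⟨r, h'⟩ := by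
  classical
  have h1 : ∀ x ∈ f.coeffs, x ∈ W.toSubring := by
    intro x hx
    obtain ⟨j, -, rfl⟩ := Polynomial.mem_coeffs_iff.1 hx
    exact hW j
  have h1' : ∀ x ∈ f'.coeffs, x ∈ W'.toSubring := by
    intro x hx
    obtain ⟨j, -, rfl⟩ := Polynomial.mem_coeffs_iff.1 hx
    exact hW' j
  have hzW := mem_of_monic W hf hW hz
  have hrW : ∀ r ∈ f'.roots, r ∈ W' := fun r hr =>
    mem_of_monic W' hf' hW' (Polynomial.isRoot_of_mem_roots hr)
  set p : W.toSubring[X] := f.toSubring W.toSubring h1 with hp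
  set p' : W'.toSubring[X] := f'.toSubring W'.toSubring h1' with hp'
  have hpm : p.map W.toSubring.subtype = f := Polynomial.map_toSubring f W.toSubring h1
  have hpm' : p'.map W'.toSubring.subtype = f' := Polynomial.map_toSubring f' W'.toSubring h1'
  have e1 : p.eval ⟨z, hzW⟩ = 0 := by
    apply Subtype.ext
    have h2 : W.toSubring.subtype (p.eval ⟨z, hzW⟩) = (p.map W.toSubring.subtype).eval z := by
      rw [Polynomial.eval_map]
      exact (Polynomial.eval₂_at_apply W.toSubring.subtype (⟨z, hzW⟩ : W.toSubring)).symm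
    rw [hpm, hz] at h2
    exact h2
  have e2 : p' = (f'.roots.attach.map fun r => X - C ⟨r.1, hrW r.1 r.2⟩).prod := by
    apply Polynomial.map_injective W'.toSubring.subtype Subtype.val_injective
    rw [hpm', Polynomial.map_multiset_prod, Multiset.map_map]
    have h3 : (f'.roots.attach.map ((Polynomial.map W'.toSubring.subtype) ∘ fun r =>
        X - C ⟨r.1, hrW r.1 r.2⟩)) = f'.roots.map fun r => X - C r := by
      conv_rhs => rw [← Multiset.attach_map_val f'.roots, Multiset.map_map]
      refine Multiset.map_congr rfl fun r _ => ?_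
      simp only [Function.comp_apply, Polynomial.map_sub, Polynomial.map_X, Polynomial.map_C]
      rfl
    rw [h3]
    exact hs.eq_prod_roots_of_monic hf'
  have e3 : p.map (ρ : W.toSubring →+* N) = p'.map (ρ' : W'.toSubring →+* N) := by
    ext j
    rw [Polynomial.coeff_map, Polynomial.coeff_map]
    have h4 : p.coeff j = ⟨f.coeff j, hW j⟩ := Subtype.ext (Polynomial.coeff_toSubring _ _ _)
    have h5 : p'.coeff j = ⟨f'.coeff j, hW' j⟩ := Subtype.ext (Polynomial.coeff_toSubring _ _ _)
    rw [h4, h5]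
    exact hc j
  have e4 : (p'.map (ρ' : W'.toSubring →+* N)).eval (ρ ⟨z, hzW⟩) = 0 := by
    rw [← e3, Polynomial.eval_map]
    have h6 := congrArg ρ e1
    rw [map_zero] at h6
    rw [← h6]
    exact (Polynomial.eval₂_at_apply (ρ : W.toSubring →+* N) (⟨z, hzW⟩ : W.toSubring))
  rw [e2, Polynomial.map_multiset_prod, Polynomial.eval_multiset_prod, Multiset.map_map,
    Multiset.map_map, Multiset.prod_eq_zero_iff, Multiset.mem_map] at e4
  obtain ⟨r, -, hr⟩ := e4
  refine ⟨hzW, r.1, r.2, hrW r.1 r.2, ?_⟩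
  simp only [Function.comp_apply, Polynomial.map_sub, Polynomial.map_X, Polynomial.map_C,
    Polynomial.eval_sub, Polynomial.eval_X, Polynomial.eval_C] at hr
  exact sub_eq_zero.1 hr

end root

end Pool.Agent.Q33.RG
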