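import Pool.Agent.Q33.RG.Rel

/-!
# The relation of having the same values is the graph of an isomorphism
-/

set_option autoImplicit false
set_option linter.unusedSectionVars false

open IsDedekindDomain NumberField Filter Topology Polynomial

namespace Pool.Agent.Q33.RG

open Pool.Agent.TH841.NF
open Pool.Agent.Q33.SecL (Pt)
open Pool.Agent.Q33.BSec (exists_pls)

section ng

variable {K B M : Type} [Field K] [NumberField K] [Field B] [Field M] [Algebra K B]
  [Algebra B M] [IsAlgClosed B] [Algebra.IsAlgebraic K B] [IsAlgClosed M] {A : Act K B M}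

/-- no nonzero element of `F` has the value zero at all points -/
def NG (Q : Fam A) (F : Type) [Field F] [Algebra F M] : Prop :=
  ∀ f : F, f ≠ 0 → ∃ (p : ℕ) (_ : Fact p.Prime) (κ : B →+* PadicAlgCl p),
    ¬ (Q.P p κ).Val (algebraMap F M f) 0

/-- the places at which `z` has the value zero -/
def Z0 (Q : Fam A) (z : M) (v : HeightOneSpectrum (𝓞 K)) : Prop :=
  ∃ (p : ℕ) (_ : Fact p.Prime) (κ : B →+* PadicAlgCl p), pls (rs K κ) = v ∧
    (Q.P p κ).Val z 0

/-- the places at which `z` has no finite value -/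
def Inf (Q : Fam A) (z : M) (v : HeightOneSpectrum (𝓞 K)) : Prop :=
  ∃ (p : ℕ) (_ : Fact p.Prime) (κ : B →+* PadicAlgCl p), pls (rs K κ) = v ∧
    z ∉ (Q.P p κ).W

variable {F : Type} [Field F] [Algebra F M] [Algebra.IsAlgebraic F M]

lemma null_small (Q : Fam A) (hfix : ∀ (σ : B ≃ₐ[K] B) (f : F), A.s σ (algebraMap F M f) =
    algebraMap F M f) (hNG : NG Q F) {f : F} (hf : f ≠ 0) :
    Null (Small (K := K) Q (algebraMap F M f)) := by
  by_contra h
  obtain ⟨p, hp, κ, hκ⟩ := hNG f hf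
  exact hκ (all_zero Q (fun σ => hfix σ f) h p κ)

theorem null_Z0 (Q : Fam A) (hfix : ∀ (σ : B ≃ₐ[K] B) (f : F), A.s σ (algebraMap F M f) =
    algebraMap F M f) (hNG : NG Q F) {z : M} (hz : z ≠ 0) : Null (Z0 (K := K) Q z) := by
  classical
  have hint : IsIntegral F z := Algebra.IsIntegral.isIntegral z
  set P := minpoly F z with hP
  have h0 : P.coeff 0 ≠ 0 := minpoly.coeff_zero_ne_zero hint hz
  have hN1 := null_small (K := K) Q hfix hNG h0
  have hN2 : Null fun v : HeightOneSpectrum (𝓞 K) => ∃ j ∈ (Finset.range (P.natDegree + 1)).filter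
      (fun j => P.coeff j ≠ 0), Small (K := K) Q (algebraMap F M (P.coeff j)⁻¹) v := by
    apply Null.finset
    intro j hj
    exact null_small Q hfix hNG (inv_ne_zero (Finset.mem_filter.1 hj).2)
  refine (hN1.or hN2).mono ?_
  rintro v ⟨p, hp, κ, rfl, hv⟩
  by_cases hall : ∀ j, algebraMap F M (P.coeff j) ∈ (Q.P p κ).W
  · left
    refine ⟨p, hp, κ, rfl, 0, ?_, by rw [norm_zero]; exact one_pos⟩
    have h1 : aeval z P.divX ∈ (Q.P p κ).W := by
      rw [aeval_eq_sum_range]
      refine sum_mem fun j _ => ?_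
      rw [Algebra.smul_def, coeff_divX]
      exact mul_mem (hall _) (pow_mem hv.1 _)
    obtain ⟨c, hc⟩ := (Q.P p κ).val_of_mem h1
    have h2 : aeval z P = 0 := minpoly.aeval F z
    rw [← divX_mul_X_add P, map_add, map_mul, aeval_X, aeval_C] at h2
    have h3 : algebraMap F M (P.coeff 0) = 0 - aeval z P.divX * z := by
      rw [zero_sub]
      exact eq_neg_of_add_eq_zero_right h2
    rw [h3]
    have h4 := pt_sub _ (pt_zero (Q.P p κ)) (hc.mul hv)
    rwa [mul_zero, sub_zero] at h4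
  · right
    push Not at hall
    obtain ⟨j, hj⟩ := hall
    have hj0 : P.coeff j ≠ 0 := by
      intro h
      rw [h, map_zero] at hj
      exact hj (zero_mem _)
    refine ⟨j, Finset.mem_filter.2 ⟨Finset.mem_range.2 ?_, hj0⟩, p, hp, κ, rfl, 0, ?_, by
      rw [norm_zero]
      exact one_pos⟩
    · exact Nat.lt_succ_of_le (le_natDegree_of_ne_zero hj0)
    · rw [map_inv₀]
      exact pt_inv_nm _ hj

theorem null_inf (Q : Fam A) (hfix : ∀ (σ : B ≃ₐ[K] B) (f : F), A.s σ (algebraMap F M f) =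
    algebraMap F M f) (hNG : NG Q F) (z : M) : Null (Inf (K := K) Q z) := by
  by_cases hz : z = 0
  · refine Null.mono null_false ?_
    rintro v ⟨p, hp, κ, rfl, h⟩
    apply h
    rw [hz]
    exact zero_mem _
  · refine (null_Z0 (K := K) Q hfix hNG (inv_ne_zero hz)).mono ?_
    rintro v ⟨p, hp, κ, rfl, h⟩
    exact ⟨p, hp, κ, rfl, pt_inv_nm _ h⟩

end ng

section rel

variable {K B M M' : Type} [Field K] [NumberField K] [Field B] [Field M] [Field M'] [Algebra K B]
  [Algebra B M] [Algebra B M'] [IsAlgClosed B] [Algebra.IsAlgebraic K B] [IsAlgClosed M]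
  [IsAlgClosed M'] {A : Act K B M} {A' : Act K B M'}

/-- `z` and `z'` have the same values -/
def Rel (Q : Fam A) (Q' : Fam A') (z : M) (z' : M') : Prop :=
  ∀ (p : ℕ) [Fact p.Prime] (κ : B →+* PadicAlgCl p) (c : PadicAlgCl p),
    (Q.P p κ).Val z c ↔ (Q'.P p κ).Val z' c

lemma Rel.symm {Q : Fam A} {Q' : Fam A'} {z : M} {z' : M'} (h : Rel Q Q' z z') :
    Rel Q' Q z' z := fun p _ κ c => (h p κ c).symm

/-- the sections and the functions do not vanish everywhere -/
structure Ok (Q : Fam A) (Q' : Fam A') (F F' : Type) [Field F] [Field F'] [Algebra F M]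
    [Algebra F' M'] : Prop where
  fix : ∀ (σ : B ≃ₐ[K] B) (f : F), A.s σ (algebraMap F M f) = algebraMap F M f
  fix' : ∀ (σ : B ≃ₐ[K] B) (f : F'), A'.s σ (algebraMap F' M' f) = algebraMap F' M' f
  ng : NG Q F
  ng' : NG Q' F'

variable {F F' : Type} [Field F] [Field F'] [Algebra F M] [Algebra F' M']
  [Algebra.IsAlgebraic F M] [Algebra.IsAlgebraic F' M'] {Q : Fam A} {Q' : Fam A'}

lemma Ok.symm (h : Ok Q Q' F F') : Ok Q' Q F' F := ⟨h.fix', h.fix, h.ng', h.ng⟩

/-- equality of values outside a set of density zero -/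
lemma rel_of_null {z : M} {z' : M'} (hz : ∀ σ, A.s σ z = z) (hz' : ∀ σ, A'.s σ z' = z')
    {S : HeightOneSpectrum (𝓞 K) → Prop} (hS : Null S)
    (h : ∀ (p : ℕ) [Fact p.Prime] (κ : B →+* PadicAlgCl p), ¬ S (pls (rs K κ)) →
      ∃ c, (Q.P p κ).Val z c ∧ (Q'.P p κ).Val z' c) : Rel Q Q' z z' := by
  have hC : ¬ Null (Cong (K := K) Q Q' z z') := by
    intro hC
    apply not_null_true (K := K)
    refine (hC.or hS).mono ?_
    intro v _
    obtain ⟨p, hp, κ, rfl⟩ := exists_kap (B := B) v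
    by_cases hSv : S (pls (rs K κ))
    · exact Or.inr hSv
    · obtain ⟨c, h1, h2⟩ := h p κ hSv
      exact Or.inl ⟨p, hp, κ, rfl, c, c, h1, h2, by rw [sub_self, norm_zero]; exact one_pos⟩
  exact fun p _ κ c => rigid_iff Q Q' hz hz' hC p κ c

lemma fix_bc (hfix : ∀ (σ : B ≃ₐ[K] B) (f : F), A.s σ (algebraMap F M f) = algebraMap F M f)
    (E : IntermediateField K B) [FiniteDimensional K E] (σ : B ≃ₐ[E] B) (f : F) :
    (A.bc E).s σ (algebraMap F M f) = algebraMap F M f := hfix (resE E σ) f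

/-- **Comparison of values.** -/
theorem rel_of_finite (ok : Ok Q Q' F F') {z : M} {z' : M'} (T : List M) (T' : List M')
    (h : ∀ (p : ℕ) [Fact p.Prime] (κ : B →+* PadicAlgCl p), (∀ t ∈ T, t ∈ (Q.P p κ).W) →
      (∀ t ∈ T', t ∈ (Q'.P p κ).W) → ∃ c, (Q.P p κ).Val z c ∧ (Q'.P p κ).Val z' c) :
    Rel Q Q' z z' := by
  classical
  obtain ⟨E, hE, h1, h2⟩ := exists_common A A' [z] [z']
  have : NumberField E := NumberField.of_module_finite K E
  have hN1 : Null fun w : HeightOneSpectrum (𝓞 E) => ∃ t ∈ T.toFinset,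
      Inf (K := E) (Q.bc E) t w := by
    apply Null.finset
    intro t _
    exact null_inf (F := F) (Q.bc E) (fix_bc ok.fix E) ok.ng t
  have hN2 : Null fun w : HeightOneSpectrum (𝓞 E) => ∃ t ∈ T'.toFinset,
      Inf (K := E) (Q'.bc E) t w := by
    apply Null.finset
    intro t _
    exact null_inf (F := F') (Q'.bc E) (fix_bc ok.fix' E) ok.ng' t
  refine rel_of_null (K := E) (Q := Q.bc E) (Q' := Q'.bc E)
    (h1 z (List.mem_singleton.2 rfl)) (h2 z' (List.mem_singleton.2 rfl)) (hN1.or hN2) ?_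
  intro p _ κ hκ
  push Not at hκ
  obtain ⟨hκ1, hκ2⟩ := hκ
  refine h p κ ?_ ?_
  · intro t ht
    by_contra h3
    exact hκ1 t (List.mem_toFinset.2 ht) ⟨p, inferInstance, κ, rfl, h3⟩
  · intro t ht
    by_contra h3
    exact hκ2 t (List.mem_toFinset.2 ht) ⟨p, inferInstance, κ, rfl, h3⟩

/-- uniqueness -/
theorem rel_unique (ok : Ok Q Q' F F') {z : M} {z' z'' : M'} (h1 : Rel Q Q' z z')
    (h2 : Rel Q Q' z z'') : z' = z'' := by
  by_contra hne
  have hN1 := null_Z0 (K := K) (F := F') Q' ok.fix' ok.ng' (sub_ne_zero.2 hne)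
  have hN2 := null_inf (K := K) (F := F) Q ok.fix ok.ng z
  apply not_null_true (K := K)
  refine (hN1.or hN2).mono ?_
  intro v _
  obtain ⟨p, hp, κ, rfl⟩ := exists_kap (B := B) v
  by_cases hz : z ∈ (Q.P p κ).W
  · obtain ⟨c, hc⟩ := (Q.P p κ).val_of_mem hz
    have h3 := pt_sub _ ((h1 p κ c).1 hc) ((h2 p κ c).1 hc)
    rw [sub_self] at h3
    exact Or.inl ⟨p, hp, κ, rfl, h3⟩
  · exact Or.inr ⟨p, hp, κ, rfl, hz⟩

lemma rel_add (ok : Ok Q Q' F F') {z w : M} {z' w' : M'} (h1 : Rel Q Q' z z')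
    (h2 : Rel Q Q' w w') : Rel Q Q' (z + w) (z' + w') := by
  refine rel_of_finite ok [z, w] [] ?_
  intro p _ κ hT _
  obtain ⟨c, hc⟩ := (Q.P p κ).val_of_mem (hT z (by simp))
  obtain ⟨d, hd⟩ := (Q.P p κ).val_of_mem (hT w (by simp))
  exact ⟨c + d, pt_add _ hc hd, pt_add _ ((h1 p κ c).1 hc) ((h2 p κ d).1 hd)⟩

lemma rel_mul (ok : Ok Q Q' F F') {z w : M} {z' w' : M'} (h1 : Rel Q Q' z z')
    (h2 : Rel Q Q' w w') : Rel Q Q' (z * w) (z' * w') := by
  refine rel_of_finite ok [z, w] [] ?_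
  intro p _ κ hT _
  obtain ⟨c, hc⟩ := (Q.P p κ).val_of_mem (hT z (by simp))
  obtain ⟨d, hd⟩ := (Q.P p κ).val_of_mem (hT w (by simp))
  exact ⟨c * d, hc.mul hd, ((h1 p κ c).1 hc).mul ((h2 p κ d).1 hd)⟩

lemma rel_alg (z : B) : Rel Q Q' (algebraMap B M z) (algebraMap B M' z) := by
  intro p _ κ c
  constructor
  · intro h
    rw [h.unique (pt_alg _ z)]
    exact pt_alg _ z
  · intro h
    rw [h.unique (pt_alg _ z)]
    exact pt_alg _ z

lemma rel_inv (ok : Ok Q Q' F F') {z : M} {z' : M'} (h1 : Rel Q Q' z z') :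
    Rel Q Q' z⁻¹ z'⁻¹ := by
  by_cases hz : z = 0
  · have h2 : z' = 0 := by
      subst hz
      have h3 : Rel Q Q' (0 : M) (0 : M') := by
        have := rel_alg (Q := Q) (Q' := Q') (0 : B)
        rwa [map_zero, map_zero] at this
      exact rel_unique ok h1 h3
    rw [hz, h2, inv_zero, inv_zero]
    have := rel_alg (Q := Q) (Q' := Q') (0 : B)
    rwa [map_zero, map_zero] at this
  · have hz' : z' ≠ 0 := by
      rintro rfl
      apply hz
      have h3 : Rel Q' Q (0 : M') (0 : M) := by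
        have := rel_alg (Q := Q') (Q' := Q) (0 : B)
        rwa [map_zero, map_zero] at this
      exact rel_unique ok.symm h1.symm h3
    intro p _ κ c
    by_cases hc : c = 0
    · subst hc
      constructor
      · intro h
        have h2 := pt_nm _ hz h
        apply pt_inv_nm
        intro h3
        obtain ⟨d, hd⟩ := (Q'.P p κ).val_of_mem h3
        exact h2 ((h1 p κ d).2 hd).1
      · intro h
        have h2 := pt_nm _ hz' h
        apply pt_inv_nm
        intro h3
        obtain ⟨d, hd⟩ := (Q.P p κ).val_of_mem h3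
        exact h2 ((h1 p κ d).1 hd).1
    · constructor
      · intro h
        have h2 := pt_inv _ h hc
        rw [inv_inv] at h2
        have h3 := pt_inv _ ((h1 p κ _).1 h2) (inv_ne_zero hc)
        rwa [inv_inv] at h3
      · intro h
        have h2 := pt_inv _ h hc
        rw [inv_inv] at h2
        have h3 := pt_inv _ ((h1 p κ _).2 h2) (inv_ne_zero hc)
        rwa [inv_inv] at h3

/-- the elements which have a counterpart -/
def domS (ok : Ok Q Q' F F') : Subfield M where
  carrier := {z | ∃ z', Rel Q Q' z z'}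
  mul_mem' := by
    rintro z w ⟨z', hz⟩ ⟨w', hw⟩
    exact ⟨z' * w', rel_mul ok hz hw⟩
  one_mem' := ⟨1, by
    have := rel_alg (Q := Q) (Q' := Q') (1 : B)
    rwa [map_one, map_one] at this⟩
  add_mem' := by
    rintro z w ⟨z', hz⟩ ⟨w', hw⟩
    exact ⟨z' + w', rel_add ok hz hw⟩
  zero_mem' := ⟨0, by
    have := rel_alg (Q := Q) (Q' := Q') (0 : B)
    rwa [map_zero, map_zero] at this⟩
  neg_mem' := by
    rintro z ⟨z', hz⟩
    refine ⟨(-1) * z', ?_⟩
    have h1 := rel_alg (Q := Q) (Q' := Q') (-1 : B)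
    rw [map_neg, map_neg, map_one, map_one] at h1
    have h2 := rel_mul ok h1 hz
    rwa [neg_one_mul] at h2
  inv_mem' := by
    rintro z ⟨z', hz⟩
    exact ⟨z'⁻¹, rel_inv ok hz⟩

lemma mem_domS {ok : Ok Q Q' F F'} {z : M} : z ∈ domS ok ↔ ∃ z', Rel Q Q' z z' := Iff.rfl

/-- the homomorphism given by the relation -/
lemma exists_hom (ok : Ok Q Q' F F') (L : Type) [Field L] (i : L →+* M)
    (h : ∀ x : L, ∃ z', Rel Q Q' (i x) z') : ∃ ψ : L →+* M', ∀ x, Rel Q Q' (i x) (ψ x) := by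
  choose f hf using h
  refine ⟨{ toFun := f
            map_one' := ?_
            map_mul' := ?_
            map_zero' := ?_
            map_add' := ?_ }, hf⟩
  · refine rel_unique ok (hf 1) ?_
    rw [map_one]
    have := rel_alg (Q := Q) (Q' := Q') (1 : B)
    rwa [map_one, map_one] at this
  · intro x y
    refine rel_unique ok (hf (x * y)) ?_
    rw [map_mul]
    exact rel_mul ok (hf x) (hf y)
  · refine rel_unique ok (hf 0) ?_
    rw [map_zero]
    have := rel_alg (Q := Q) (Q' := Q') (0 : B)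
    rwa [map_zero, map_zero] at this
  · intro x y
    refine rel_unique ok (hf (x + y)) ?_
    rw [map_add]
    exact rel_add ok (hf x) (hf y)

end rel

end Pool.Agent.Q33.RG
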