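import Pool.Agent.Q33.RG.Rel2

/-!
# The isomorphism
-/

set_option autoImplicit false
set_option linter.unusedSectionVars false

open IsDedekindDomain NumberField Filter Topology Polynomial

namespace Pool.Agent.Q33.RG

open Pool.Agent.TH841.NF
open Pool.Agent.Q33.SecL (Pt)
open Pool.Agent.Q33.BSec (exists_pls)

variable {K B M M' : Type} [Field K] [NumberField K] [Field B] [Field M] [Field M'] [Algebra K B]
  [Algebra B M] [Algebra B M'] [IsAlgClosed B] [Algebra.IsAlgebraic K B] [IsAlgClosed M]
  [IsAlgClosed M'] {A : Act K B M} {A' : Act K B M'}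

variable {F F' : Type} [Field F] [Field F'] [Algebra F M] [Algebra F' M']
  [Algebra.IsAlgebraic F M] [Algebra.IsAlgebraic F' M'] {Q : Fam A} {Q' : Fam A'}

/-- elements which are algebraic over elements with a counterpart have a counterpart -/
theorem exists_rel (ok : Ok Q Q' F F') {L : Type} [Field L] [Algebra L M]
    [Algebra.IsAlgebraic L M] (ψ : L →+* M') (hψ : ∀ x : L, Rel Q Q' (algebraMap L M x) (ψ x))
    (z : M) : ∃ z' : M', Rel Q Q' z z' := by
  classical
  have hint : IsIntegral L z := Algebra.IsIntegral.isIntegral z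
  set P := minpoly L z with hP
  have hf : (P.map (algebraMap L M)).Monic := (minpoly.monic hint).map _
  have hf' : (P.map ψ).Monic := (minpoly.monic hint).map _
  have hs : (P.map ψ).Splits := IsAlgClosed.splits _
  have hz : (P.map (algebraMap L M)).eval z = 0 := by
    rw [eval_map]
    exact minpoly.aeval L z
  obtain ⟨E, hE, h1, h2⟩ := exists_common A A' [z] (P.map ψ).roots.toList
  have : NumberField E := NumberField.of_module_finite K E
  by_contra hne
  push Not at hne
  have hN1 : Null fun w : HeightOneSpectrum (𝓞 E) => ∃ r ∈ (P.map ψ).roots.toFinset,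
      Cong (K := E) (Q.bc E) (Q'.bc E) z r w := by
    apply Null.finset
    intro r hr
    by_contra hC
    apply hne r
    intro p _ κ c
    exact rigid_iff (Q.bc E) (Q'.bc E) (h1 z (List.mem_singleton.2 rfl))
      (h2 r (Multiset.mem_toList.2 (Multiset.mem_toFinset.1 hr))) hC p κ c
  have hN2 : Null fun w : HeightOneSpectrum (𝓞 E) => ∃ j ∈ Finset.range (P.natDegree + 1),
      Inf (K := E) (Q.bc E) (algebraMap L M (P.coeff j)) w := by
    apply Null.finset
    intro j _
    exact null_inf (F := F) (Q.bc E) (fix_bc ok.fix E) ok.ng _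
  apply not_null_true (K := E)
  refine (hN1.or hN2).mono ?_
  intro w _
  obtain ⟨p, hp, κ, rfl⟩ := exists_kap (B := B) w
  by_cases hall : ∀ j, algebraMap L M (P.coeff j) ∈ (Q.P p κ).W
  · left
    have hall' : ∀ j, ψ (P.coeff j) ∈ (Q'.P p κ).W := by
      intro j
      obtain ⟨c, hc⟩ := (Q.P p κ).val_of_mem (hall j)
      exact ((hψ _ p κ c).1 hc).1
    obtain ⟨hzW, r, hr, hr', e⟩ := root_transfer (Q.P p κ).W (Q.P p κ).ρ (Q'.P p κ).W
      (Q'.P p κ).ρ hf hf' hs (fun j => by
        rw [coeff_map]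
        exact hall j) (fun j => by
        rw [coeff_map]
        exact hall' j) (fun j => by
        obtain ⟨c, hc⟩ := (Q.P p κ).val_of_mem (hall j)
        have h3 : (Q.P p κ).Val ((P.map (algebraMap L M)).coeff j) c := by
          rw [coeff_map]
          exact hc
        have h4 : (Q'.P p κ).Val ((P.map ψ).coeff j) c := by
          rw [coeff_map]
          exact (hψ _ p κ c).1 hc
        obtain ⟨h5, h6⟩ := h3
        obtain ⟨h7, h8⟩ := h4
        exact h6.trans h8.symm) hz
    refine ⟨r, Multiset.mem_toFinset.2 hr, p, hp, κ, rfl, (Q.P p κ).ρ ⟨z, hzW⟩,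
      (Q'.P p κ).ρ ⟨r, hr'⟩, ⟨hzW, rfl⟩, ⟨hr', rfl⟩, ?_⟩
    rw [e, sub_self, norm_zero]
    exact one_pos
  · right
    push Not at hall
    obtain ⟨j, hj⟩ := hall
    refine ⟨j, Finset.mem_range.2 ?_, p, hp, κ, rfl, hj⟩
    by_contra hlt
    apply hj
    rw [coeff_eq_zero_of_natDegree_lt (by omega), map_zero]
    exact zero_mem _

/-- the isomorphism -/
theorem exists_iso (ok : Ok Q Q' F F') (h : ∀ z : M, ∃ z' : M', Rel Q Q' z z')
    (h' : ∀ z' : M', ∃ z : M, Rel Q Q' z z') : ∃ e : M ≃+* M', ∀ z, Rel Q Q' z (e z) := by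
  obtain ⟨ψ, hψ⟩ := exists_hom ok M (RingHom.id M) h
  have hb : Function.Bijective ψ := by
    refine ⟨ψ.injective, fun z' => ?_⟩
    obtain ⟨z, hz⟩ := h' z'
    exact ⟨z, rel_unique ok (hψ z) hz⟩
  exact ⟨RingEquiv.ofBijective ψ hb, hψ⟩

lemma iso_act (ok : Ok Q Q' F F') {e : M ≃+* M'} (he : ∀ z, Rel Q Q' z (e z)) (τ : B ≃ₐ[K] B)
    (z : M) : e (A.s τ z) = A'.s τ (e z) := by
  refine rel_unique ok (he (A.s τ z)) ?_
  intro p _ κ c
  rw [← Q.move p κ τ z c, ← Q'.move p κ τ (e z) c]
  exact he z p _ c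

lemma iso_alg (ok : Ok Q Q' F F') {e : M ≃+* M'} (he : ∀ z, Rel Q Q' z (e z)) (z : B) :
    e (algebraMap B M z) = algebraMap B M' z :=
  rel_unique ok (he (algebraMap B M z)) (rel_alg z)

section gen

variable [Algebra K F] [Algebra K F']

/-- everything has a counterpart if a generating function has one -/
theorem rel_total (ok : Ok Q Q' F F') (hK : ∀ c : K, algebraMap F M (algebraMap K F c) =
    algebraMap B M (algebraMap K B c)) {x : F}
    (hF : Algebra.IsAlgebraic (IntermediateField.adjoin K {x}) F) {y : M'}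
    (hx : Rel Q Q' (algebraMap F M x) y) (z : M) : ∃ z' : M', Rel Q Q' z z' := by
  let S : IntermediateField K F :=
    { (domS ok).comap (algebraMap F M) with
      algebraMap_mem' := fun c => by
        change algebraMap F M (algebraMap K F c) ∈ domS ok
        rw [hK]
        exact ⟨_, rel_alg _⟩ }
  have hS : IntermediateField.adjoin K {x} ≤ S := by
    rw [IntermediateField.adjoin_le_iff, Set.singleton_subset_iff]
    exact ⟨y, hx⟩
  obtain ⟨ψ, hψ⟩ := exists_hom ok (IntermediateField.adjoin K {x})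
    ((algebraMap F M).comp (algebraMap (IntermediateField.adjoin K {x}) F)) (by
      intro c
      exact hS c.2)
  have : Algebra.IsAlgebraic (IntermediateField.adjoin K {x}) M :=
    Algebra.IsAlgebraic.trans (IntermediateField.adjoin K {x}) F M
  exact exists_rel ok ψ hψ z

end gen

end Pool.Agent.Q33.RG
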