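import Pool.Agent.Q33.RG.Dn

/-!
# Rigidity of values
-/

set_option autoImplicit false
set_option linter.unusedSectionVars false

open IsDedekindDomain NumberField Filter Topology

namespace Pool.Agent.Q33.RG

open Pool.Agent.TH841.NF
open Pool.Agent.Q33.SecL (Pt exists_compat LL mem_LL LL_finite units_ae norm_int_le)
open Pool.Agent.Q33.BSec (Cpl jc_cont mem_pls)

section norms

variable {p : ℕ} [Fact p.Prime]

lemma norm_add_lt {x y : PadicAlgCl p} (h : ‖y‖ < ‖x‖) : ‖x + y‖ = ‖x‖ := by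
  have h1 := IsUltrametricDist.norm_add_eq_max_of_norm_ne_norm (x := x) (y := y) h.ne'
  rw [h1, max_eq_left h.le]

lemma norm_sub_lt {x y : PadicAlgCl p} (h : ‖y‖ < ‖x‖) : ‖x - y‖ = ‖x‖ := by
  rw [sub_eq_add_neg]
  apply norm_add_lt
  rwa [norm_neg]

lemma norm_p : ‖((p : ℕ) : PadicAlgCl p)‖ = (p : ℝ)⁻¹ := by
  have h := Pool.Agent.Q33.SecL.norm_base (p := p) ((p : ℕ) : ℚ_[p])
  rw [map_natCast] at h
  rw [h]
  exact Padic.norm_p

end norms

section bad

variable {K B : Type} [Field K] [NumberField K] [Field B] [Algebra K B]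

lemma finite_bad {D : ℕ} (hD : 0 < D) : {v : HeightOneSpectrum (𝓞 K) | ∃ (p : ℕ)
    (_ : Fact p.Prime) (φ : K →+* PadicAlgCl p), pls φ = v ∧ p ∣ D}.Finite := by
  have h0 : Ideal.span {(D : 𝓞 K)} ≠ 0 := by
    rw [Ne, Ideal.zero_eq_bot, Ideal.span_singleton_eq_bot]
    exact_mod_cast hD.ne'
  refine (Ideal.finite_factors h0).subset ?_
  rintro v ⟨p, hp, φ, rfl, d, hd⟩
  change (pls φ).asIdeal ∣ _
  rw [Ideal.dvd_span_singleton, hd, Nat.cast_mul]
  exact Ideal.mul_mem_right _ _ (mem_pls φ)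

end bad

variable {K B M M' : Type} [Field K] [NumberField K] [Field B] [Field M] [Field M'] [Algebra K B]
  [Algebra B M] [Algebra B M'] [IsAlgClosed B] [Algebra.IsAlgebraic K B] [IsAlgClosed M]
  [IsAlgClosed M'] {A : Act K B M} {A' : Act K B M'}

/-- the places at which `u` has a value of norm less than one -/
def Small (Q : Fam A) (u : M) (v : HeightOneSpectrum (𝓞 K)) : Prop :=
  ∃ (p : ℕ) (_ : Fact p.Prime) (κ : B →+* PadicAlgCl p), pls (rs K κ) = v ∧
    ∃ c, (Q.P p κ).Val u c ∧ ‖c‖ < 1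

lemma Act.fix_alg (A : Act K B M) (a : K) (σ : B ≃ₐ[K] B) :
    A.s σ (algebraMap B M (algebraMap K B a)) = algebraMap B M (algebraMap K B a) := by
  rw [A.sec, AlgEquiv.commutes]

/-- **Stix's theorem.** -/
theorem all_zero (Q : Fam A) {u : M} (hu : ∀ σ, A.s σ u = u) (hS : ¬ Null (Small (K := K) Q u))
    (p0 : ℕ) [Fact p0.Prime] (κ0 : B →+* PadicAlgCl p0) : (Q.P p0 κ0).Val u 0 := by
  by_contra hne
  apply hS
  have hp1 : (1 : ℝ) < p0 := by exact_mod_cast (Fact.out : p0.Prime).one_lt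
  have hp0 : ((p0 : ℕ) : PadicAlgCl p0) ≠ 0 := Nat.cast_ne_zero.2 (Fact.out : p0.Prime).ne_zero
  have hpn : ‖((p0 : ℕ) : PadicAlgCl p0)‖ < 1 := by
    rw [norm_p]
    exact inv_lt_one_of_one_lt₀ hp1
  by_cases huW : u ∈ (Q.P p0 κ0).W
  · -- finite value
    obtain ⟨c0, hc0⟩ := (Q.P p0 κ0).val_of_mem huW
    have hc00 : c0 ≠ 0 := by
      rintro rfl
      exact hne hc0
    have hcL : c0 ∈ LL (rs K κ0) := Q.mem_LL hu κ0 hc0
    have htar : (-1 + (p0 : PadicAlgCl p0)) / c0 ∈ LL (rs K κ0) := by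
      refine div_mem (add_mem (neg_mem (one_mem _)) ?_) hcL
      have := mem_LL (rs K κ0) (p0 : K)
      rwa [map_natCast] at this
    have hop : IsOpen {x : PadicAlgCl p0 | ‖1 + x * c0‖ < 1 ∧ 1 + x * c0 ≠ 0} := by
      have hcont : Continuous fun x : PadicAlgCl p0 => 1 + x * c0 := by fun_prop
      have o1 : IsOpen {x : PadicAlgCl p0 | ‖1 + x * c0‖ < 1} :=
        isOpen_lt hcont.norm continuous_const
      have o2 : IsOpen {x : PadicAlgCl p0 | 1 + x * c0 ≠ 0} := isOpen_ne.preimage hcont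
      exact o1.inter o2
    obtain ⟨α, hα1, hα2⟩ := exists_near (rs K κ0) htar hop (by
      have e : 1 + (-1 + (p0 : PadicAlgCl p0)) / c0 * c0 = p0 := by
        rw [div_mul_cancel₀ _ hc00]
        ring
      refine ⟨?_, ?_⟩
      · rw [e]
        exact hpn
      · rw [e]
        exact hp0)
    set f : M := 1 + algebraMap B M (algebraMap K B α) * u with hf
    have hfval : ∀ (p : ℕ) [Fact p.Prime] (κ : B →+* PadicAlgCl p) (c : PadicAlgCl p),
        (Q.P p κ).Val u c → (Q.P p κ).Val f (1 + rs K κ α * c) := by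
      intro p _ κ c hc
      exact pt_add _ (pt_one _) ((pt_alg _ _).mul hc)
    have hffix : ∀ σ, A.s σ f = f := by
      intro σ
      rw [hf, map_add, map_one, map_mul, A.fix_alg, hu]
    have h1 := dens_ratio (K := K) Q Q hffix (f' := (1 : M)) (fun σ => map_one _) p0 κ0
      (hfval p0 κ0 c0 hc0) (pt_one _) hα2 one_ne_zero (by rw [norm_one]; exact hα1.ne)
    by_cases hα0 : α = 0
    · exfalso
      rw [hα0, map_zero, zero_mul, add_zero, norm_one] at hα1
      exact lt_irrefl _ hα1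
    obtain ⟨D, hD, hDu⟩ := units_ae ({α} : Finset K) (by
      intro e he
      rw [Finset.mem_singleton] at he
      rwa [he])
    refine (h1.or (Null.of_finite (finite_bad (K := K) hD))).mono ?_
    rintro v ⟨p, hp, κ, rfl, c, hc, hc1⟩
    by_cases hpD : p ∣ D
    · exact Or.inr ⟨p, hp, rs K κ, rfl, hpD⟩
    · left
      refine ⟨p, hp, κ, rfl, _, _, hfval p κ c hc, pt_one _, one_ne_zero, ?_⟩
      rw [div_one, add_sub_cancel_left, norm_mul, hDu p hpD _ α (Finset.mem_singleton_self _),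
        one_mul]
      exact hc1
  · -- infinite value
    have hu0 : u ≠ 0 := by
      rintro rfl
      exact huW (zero_mem _)
    have hinv : (Q.P p0 κ0).Val u⁻¹ 0 := pt_inv_nm _ huW
    have hden : (Q.P p0 κ0).Val (u⁻¹ + 1) 1 := by
      have := pt_add _ hinv (pt_one _)
      rwa [zero_add] at this
    have hden0 : u⁻¹ + 1 ≠ 0 := pt_ne _ hden one_ne_zero
    set f : M := (1 + (p0 : M) * u) / (1 + u) with hf
    have hf' : f = (u⁻¹ + (p0 : M)) * (u⁻¹ + 1)⁻¹ := by
      have h1u : 1 + u ≠ 0 := by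
        intro h
        apply hden0
        have : u⁻¹ + 1 = u⁻¹ * (1 + u) := by rw [mul_add, mul_one, inv_mul_cancel₀ hu0]
        rw [this, h, mul_zero]
      rw [hf]
      field_simp
    have hpval : ∀ (p : ℕ) [Fact p.Prime] (κ : B →+* PadicAlgCl p),
        (Q.P p κ).Val (p0 : M) (p0 : PadicAlgCl p) := by
      intro p _ κ
      have := pt_alg (Q.P p κ) (p0 : B)
      rwa [map_natCast, map_natCast] at this
    have hf0 : (Q.P p0 κ0).Val f (p0 : PadicAlgCl p0) := by
      have h1 := (pt_add _ hinv (hpval p0 κ0)).mul (pt_inv _ hden one_ne_zero)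
      rw [← hf', zero_add, inv_one, mul_one] at h1
      exact h1
    have hffix : ∀ σ, A.s σ f = f := by
      intro σ
      rw [hf, map_div₀, map_add, map_add, map_mul, map_one, map_natCast, hu]
    have h1 := dens_ratio (K := K) Q Q hffix (f' := (1 : M)) (fun σ => map_one _) p0 κ0
      hf0 (pt_one _) hp0 one_ne_zero (by rw [norm_one]; exact hpn.ne)
    refine h1.mono ?_
    rintro v ⟨p, hp, κ, rfl, c, hc, hc1⟩
    have hn1 : ‖(1 : PadicAlgCl p) + c‖ = 1 := by
      rw [norm_add_lt (by rwa [norm_one]), norm_one]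
    have hc10 : (1 : PadicAlgCl p) + c ≠ 0 := by
      intro h
      rw [h, norm_zero] at hn1
      exact zero_ne_one hn1
    refine ⟨p, hp, κ, rfl, (1 + (p0 : PadicAlgCl p) * c) / (1 + c), 1, ?_, pt_one _,
      one_ne_zero, ?_⟩
    · rw [hf, div_eq_mul_inv, div_eq_mul_inv]
      exact (pt_add _ (pt_one _) ((hpval p κ).mul hc)).mul
        (pt_inv _ (pt_add _ (pt_one _) hc) hc10)
    · have e : (1 + (p0 : PadicAlgCl p) * c) / (1 + c) / 1 - 1 =
          (((p0 : ℤ) - 1 : ℤ) : PadicAlgCl p) * c / (1 + c) := by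
        push_cast
        field_simp
        ring
      rw [e, norm_div, norm_mul, hn1, div_one]
      calc _ ≤ 1 * ‖c‖ := mul_le_mul_of_nonneg_right (norm_int_le _) (norm_nonneg _)
        _ < 1 := by rwa [one_mul]

end Pool.Agent.Q33.RG
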