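import Pool.Agent.Q33.RG.Rig

/-!
# Congruent values are equal
-/

set_option autoImplicit false
set_option linter.unusedSectionVars false

open IsDedekindDomain NumberField Filter Topology

namespace Pool.Agent.Q33.RG

open Pool.Agent.TH841.NF
open Pool.Agent.Q33.SecL (Pt exists_compat LL mem_LL LL_finite units_ae norm_int_le)
open Pool.Agent.Q33.BSec (Cpl jc_cont mem_pls)

section pt

variable {B M : Type} [Field B] [Field M] [Algebra B M] {p : ℕ} [Fact p.Prime]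
  {κ : B →+* PadicAlgCl p} (P : Pt B M κ)

lemma pt_sub {x y : M} {c d : PadicAlgCl p} (h : P.Val x c) (h' : P.Val y d) :
    P.Val (x - y) (c - d) := by
  obtain ⟨h1, rfl⟩ := h
  obtain ⟨h2, rfl⟩ := h'
  exact ⟨sub_mem h1 h2, by rw [← map_sub]; rfl⟩

lemma pt_frac {u : M} {c : PadicAlgCl p} (h : P.Val u c) (α β : B) (hβ : c - κ β ≠ 0) :
    P.Val ((u - algebraMap B M α) / (u - algebraMap B M β)) ((c - κ α) / (c - κ β)) := by
  rw [div_eq_mul_inv, div_eq_mul_inv]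
  exact (pt_sub P h (pt_alg P α)).mul (pt_inv P (pt_sub P h (pt_alg P β)) hβ)

lemma pt_frac_inf {u : M} (h : u ∉ P.W) (α β : B) :
    P.Val ((u - algebraMap B M α) / (u - algebraMap B M β)) 1 := by
  have hu0 : u ≠ 0 := by
    rintro rfl
    exact h (zero_mem _)
  have h0 := pt_inv_nm P h
  have h1 : ∀ a : B, P.Val (1 - algebraMap B M a * u⁻¹) 1 := by
    intro a
    have := pt_sub P (pt_one P) ((pt_alg P a).mul h0)
    rwa [mul_zero, sub_zero] at this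
  have h2 : (u - algebraMap B M α) / (u - algebraMap B M β) =
      (1 - algebraMap B M α * u⁻¹) * (1 - algebraMap B M β * u⁻¹)⁻¹ := by
    have e : ∀ a : B, u - algebraMap B M a = u * (1 - algebraMap B M a * u⁻¹) := by
      intro a
      rw [mul_sub, mul_one, mul_left_comm, mul_inv_cancel₀ hu0, mul_one]
    rw [e α, e β, mul_div_mul_left _ _ hu0, div_eq_mul_inv]
  rw [h2]
  have := (h1 α).mul (pt_inv P (h1 β) one_ne_zero)
  rwa [inv_one, mul_one] at this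

end pt

variable {K B M M' : Type} [Field K] [NumberField K] [Field B] [Field M] [Field M'] [Algebra K B]
  [Algebra B M] [Algebra B M'] [IsAlgClosed B] [Algebra.IsAlgebraic K B] [IsAlgClosed M]
  [IsAlgClosed M'] {A : Act K B M} {A' : Act K B M'}

/-- the places at which the values of `u` and `u'` are congruent -/
def Cong (Q : Fam A) (Q' : Fam A') (u : M) (u' : M') (v : HeightOneSpectrum (𝓞 K)) : Prop :=
  ∃ (p : ℕ) (_ : Fact p.Prime) (κ : B →+* PadicAlgCl p), pls (rs K κ) = v ∧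
    ∃ c c', (Q.P p κ).Val u c ∧ (Q'.P p κ).Val u' c' ∧ ‖c - c'‖ < 1

lemma Cong.symm {Q : Fam A} {Q' : Fam A'} {u : M} {u' : M'} {v : HeightOneSpectrum (𝓞 K)}
    (h : Cong Q Q' u u' v) : Cong Q' Q u' u v := by
  obtain ⟨p, hp, κ, h1, c, c', h2, h3, h4⟩ := h
  exact ⟨p, hp, κ, h1, c', c, h3, h2, by rwa [norm_sub_rev]⟩

/-- elements with nonzero finite values are mostly units -/
lemma small_or (Q : Fam A) {w : M} (hw : ∀ σ, A.s σ w = w) (p0 : ℕ) [Fact p0.Prime]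
    (κ0 : B →+* PadicAlgCl p0) {d : PadicAlgCl p0} (hd : (Q.P p0 κ0).Val w d) (hd0 : d ≠ 0) :
    Null fun v : HeightOneSpectrum (𝓞 K) => Small Q w v ∨ Small Q w⁻¹ v := by
  refine Null.or ?_ ?_
  · by_contra h
    exact hd0 (hd.unique (all_zero Q hw h p0 κ0))
  · by_contra h
    have h1 := all_zero Q (u := w⁻¹) (fun σ => by rw [map_inv₀, hw]) h p0 κ0
    exact inv_ne_zero hd0 ((pt_inv _ hd hd0).unique h1)

lemma small_of_ne (Q : Fam A) {w : M} {p : ℕ} [Fact p.Prime] {κ : B →+* PadicAlgCl p}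
    {d : PadicAlgCl p} (hd : (Q.P p κ).Val w d) (hd1 : ‖d‖ ≠ 1) :
    Small Q w (pls (rs K κ)) ∨ Small Q w⁻¹ (pls (rs K κ)) := by
  rcases lt_or_gt_of_ne hd1 with h | h
  · exact Or.inl ⟨p, inferInstance, κ, rfl, d, hd, h⟩
  · have hd0 : d ≠ 0 := by
      rintro rfl
      rw [norm_zero] at h
      linarith
    exact Or.inr ⟨p, inferInstance, κ, rfl, d⁻¹, pt_inv _ hd hd0, by
      rw [norm_inv]
      exact inv_lt_one_of_one_lt₀ h⟩

/-- **Rigidity, one direction.** -/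
theorem rigid (Q : Fam A) (Q' : Fam A') {u : M} {u' : M'} (hu : ∀ σ, A.s σ u = u)
    (hu' : ∀ σ, A'.s σ u' = u') (hC : ¬ Null (Cong (K := K) Q Q' u u')) (p0 : ℕ) [Fact p0.Prime]
    (κ0 : B →+* PadicAlgCl p0) {c0 : PadicAlgCl p0} (h0 : (Q.P p0 κ0).Val u c0) :
    (Q'.P p0 κ0).Val u' c0 := by
  by_contra hne
  apply hC
  have hp1 : (1 : ℝ) < p0 := by exact_mod_cast (Fact.out : p0.Prime).one_lt
  have hp0 : ((p0 : ℕ) : PadicAlgCl p0) ≠ 0 := Nat.cast_ne_zero.2 (Fact.out : p0.Prime).ne_zero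
  obtain ⟨R, r, hr, hcR, hR⟩ : ∃ R r : ℝ, 0 < r ∧ ‖c0‖ < R ∧ ∀ c', (Q'.P p0 κ0).Val u' c' →
      ‖c'‖ < R ∧ r ≤ ‖c0 - c'‖ := by
    by_cases hW : u' ∈ (Q'.P p0 κ0).W
    · obtain ⟨c1, hc1⟩ := (Q'.P p0 κ0).val_of_mem hW
      refine ⟨max ‖c0‖ ‖c1‖ + 1, ‖c0 - c1‖, ?_, ?_, ?_⟩
      · rw [norm_pos_iff, sub_ne_zero]
        rintro rfl
        exact hne hc1
      · have := le_max_left ‖c0‖ ‖c1‖
        linarith
      · intro c' hc'
        have e := hc'.unique hc1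
        subst e
        refine ⟨?_, le_rfl⟩
        have := le_max_right ‖c0‖ ‖c'‖
        linarith
    · refine ⟨‖c0‖ + 1, 1, one_pos, by linarith, fun c' hc' => absurd hc'.1 hW⟩
  obtain ⟨β, hβ⟩ : ∃ β : K, R < ‖rs K κ0 β‖ := by
    obtain ⟨k, hk⟩ := pow_unbounded_of_one_lt R hp1
    refine ⟨((p0 : K) ^ k)⁻¹, ?_⟩
    rw [map_inv₀, map_pow, map_natCast, norm_inv, norm_pow, norm_p, inv_pow, inv_inv]
    exact hk
  have hβ0 : 0 < ‖rs K κ0 β‖ := lt_of_le_of_lt (norm_nonneg c0) (hcR.trans hβ)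
  have hcL : c0 ∈ LL (rs K κ0) := Q.mem_LL hu κ0 h0
  obtain ⟨m, hm⟩ : ∃ m : ℕ, ‖((p0 : ℕ) : PadicAlgCl p0) ^ m‖ < min r ‖rs K κ0 β‖ := by
    obtain ⟨m, hm⟩ := exists_pow_lt_of_lt_one (lt_min hr hβ0) (inv_lt_one_of_one_lt₀ hp1)
    refine ⟨m, ?_⟩
    rwa [norm_pow, norm_p]
  have hcont : Continuous fun x : PadicAlgCl p0 => c0 - x := by fun_prop
  have o1 : IsOpen {x : PadicAlgCl p0 | ‖c0 - x‖ < min r ‖rs K κ0 β‖} :=
    isOpen_lt hcont.norm continuous_const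
  have o2 : IsOpen {x : PadicAlgCl p0 | c0 - x ≠ 0} := isOpen_ne.preimage hcont
  have htar : c0 - (p0 : PadicAlgCl p0) ^ m ∈ LL (rs K κ0) := by
    refine sub_mem hcL (pow_mem ?_ m)
    have := mem_LL (rs K κ0) (p0 : K)
    rwa [map_natCast] at this
  obtain ⟨α, hα1, hα2⟩ := exists_near (rs K κ0) htar (o1.inter o2) (by
    refine ⟨?_, ?_⟩
    · change ‖c0 - (c0 - _)‖ < _
      rwa [sub_sub_cancel]
    · change c0 - (c0 - _) ≠ 0
      rw [sub_sub_cancel]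
      exact pow_ne_zero m hp0)
  have hα1 : ‖c0 - rs K κ0 α‖ < min r ‖rs K κ0 β‖ := hα1
  have hα2 : c0 - rs K κ0 α ≠ 0 := hα2
  have hcβ : ‖c0 - rs K κ0 β‖ = ‖rs K κ0 β‖ := by
    rw [norm_sub_rev]
    exact norm_sub_lt (hcR.trans hβ)
  have hcβ0 : c0 - rs K κ0 β ≠ 0 := by
    rw [← norm_pos_iff, hcβ]
    exact hβ0
  set α' : B := algebraMap K B α with hα'
  set β' : B := algebraMap K B β with hβ'
  have hrα : ∀ (p : ℕ) [Fact p.Prime] (κ : B →+* PadicAlgCl p), κ α' = rs K κ α :=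
    fun p _ κ => rfl
  have hrβ : ∀ (p : ℕ) [Fact p.Prime] (κ : B →+* PadicAlgCl p), κ β' = rs K κ β :=
    fun p _ κ => rfl
  have hf0 := pt_frac (Q.P p0 κ0) h0 α' β' hcβ0
  obtain ⟨δ', hf0', hδ', hδ'n⟩ : ∃ δ' : PadicAlgCl p0, (Q'.P p0 κ0).Val
      ((u' - algebraMap B M' α') / (u' - algebraMap B M' β')) δ' ∧ δ' ≠ 0 ∧
      ‖(c0 - κ0 α') / (c0 - κ0 β')‖ ≠ ‖δ'‖ := by
    by_cases hW : u' ∈ (Q'.P p0 κ0).W
    · obtain ⟨c1, hc1⟩ := (Q'.P p0 κ0).val_of_mem hW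
      obtain ⟨h1, h2⟩ := hR c1 hc1
      have h3 : ‖c1 - rs K κ0 β‖ = ‖rs K κ0 β‖ := by
        rw [norm_sub_rev]
        exact norm_sub_lt (h1.trans hβ)
      have h4 : ‖c1 - rs K κ0 α‖ = ‖c0 - c1‖ := by
        rw [norm_sub_rev, show rs K κ0 α - c1 = (c0 - c1) - (c0 - rs K κ0 α) by ring]
        exact norm_sub_lt ((hα1.trans_le (min_le_left _ _)).trans_le h2)
      have h5 : c1 - rs K κ0 β ≠ 0 := by
        rw [← norm_pos_iff, h3]
        exact hβ0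
      have h6 : 0 < ‖c0 - c1‖ := hr.trans_le h2
      refine ⟨_, pt_frac (Q'.P p0 κ0) hc1 α' β' h5, div_ne_zero ?_ h5, ?_⟩
      · change c1 - rs K κ0 α ≠ 0
        rw [← norm_pos_iff, h4]
        exact h6
      · change ‖(c0 - rs K κ0 α) / (c0 - rs K κ0 β)‖ ≠ ‖(c1 - rs K κ0 α) / (c1 - rs K κ0 β)‖
        rw [norm_div, norm_div, hcβ, h3, h4]
        exact ((div_lt_div_iff_of_pos_right hβ0).2
          ((hα1.trans_le (min_le_left _ _)).trans_le h2)).ne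
    · refine ⟨1, pt_frac_inf (Q'.P p0 κ0) hW α' β', one_ne_zero, ?_⟩
      change ‖(c0 - rs K κ0 α) / (c0 - rs K κ0 β)‖ ≠ _
      rw [norm_div, hcβ, norm_one]
      exact ((div_lt_one hβ0).2 (hα1.trans_le (min_le_right _ _))).ne
  have hfix : ∀ σ, A.s σ ((u - algebraMap B M α') / (u - algebraMap B M β')) =
      (u - algebraMap B M α') / (u - algebraMap B M β') := by
    intro σ
    rw [map_div₀, map_sub, map_sub, hα', hβ', A.fix_alg, A.fix_alg, hu]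
  have hfix' : ∀ σ, A'.s σ ((u' - algebraMap B M' α') / (u' - algebraMap B M' β')) =
      (u' - algebraMap B M' α') / (u' - algebraMap B M' β') := by
    intro σ
    rw [map_div₀, map_sub, map_sub, hα', hβ', A'.fix_alg, A'.fix_alg, hu']
  have hN1 := dens_ratio (K := K) Q Q' hfix hfix' p0 κ0 hf0 hf0' (div_ne_zero hα2 hcβ0) hδ' hδ'n
  have hN2 := small_or (K := K) Q (w := u - algebraMap B M α') (fun σ => by
    rw [map_sub, hα', A.fix_alg, hu]) p0 κ0 (pt_sub _ h0 (pt_alg _ α')) hα2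
  have hN3 := small_or (K := K) Q (w := u - algebraMap B M β') (fun σ => by
    rw [map_sub, hβ', A.fix_alg, hu]) p0 κ0 (pt_sub _ h0 (pt_alg _ β')) hcβ0
  refine (hN1.or (hN2.or hN3)).mono ?_
  rintro v ⟨p, hp, κ, rfl, c, c', hc, hc', hcc⟩
  by_cases h1 : ‖c - κ α'‖ = 1
  · by_cases h2 : ‖c - κ β'‖ = 1
    · left
      have e1 : ‖c' - κ α'‖ = 1 := by
        rw [show c' - κ α' = (c - κ α') - (c - c') by ring, norm_sub_lt (by rwa [h1]), h1]
      have e2 : ‖c' - κ β'‖ = 1 := by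
        rw [show c' - κ β' = (c - κ β') - (c - c') by ring, norm_sub_lt (by rwa [h2]), h2]
      have n0 : c - κ α' ≠ 0 := by rw [← norm_pos_iff, h1]; exact one_pos
      have n1 : c - κ β' ≠ 0 := by rw [← norm_pos_iff, h2]; exact one_pos
      have n2 : c' - κ α' ≠ 0 := by rw [← norm_pos_iff, e1]; exact one_pos
      have n3 : c' - κ β' ≠ 0 := by rw [← norm_pos_iff, e2]; exact one_pos
      refine ⟨p, hp, κ, rfl, _, _, pt_frac _ hc α' β' n1, pt_frac _ hc' α' β' n3,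
        div_ne_zero n2 n3, ?_⟩
      have e3 : (c - κ α') / (c - κ β') / ((c' - κ α') / (c' - κ β')) - 1 =
          (c' - c) * (κ β' - κ α') / ((c - κ β') * (c' - κ α')) := by
        field_simp
        ring
      have e4 : ‖κ β' - κ α'‖ ≤ 1 := by
        rw [show κ β' - κ α' = (c - κ α') + -(c - κ β') by ring]
        have := IsUltrametricDist.norm_add_le_max (c - κ α') (-(c - κ β'))
        rwa [norm_neg, h1, h2, max_self] at this
      rw [e3, norm_div, norm_mul, norm_mul, h2, e1, mul_one, div_one, norm_sub_rev c' c]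
      calc _ ≤ ‖c - c'‖ * 1 := mul_le_mul_of_nonneg_left e4 (norm_nonneg _)
        _ < 1 := by rwa [mul_one]
    · exact Or.inr (Or.inr (small_of_ne Q (pt_sub _ hc (pt_alg _ β')) h2))
  · exact Or.inr (Or.inl (small_of_ne Q (pt_sub _ hc (pt_alg _ α')) h1))

/-- **Rigidity of values.** -/
theorem rigid_iff (Q : Fam A) (Q' : Fam A') {u : M} {u' : M'} (hu : ∀ σ, A.s σ u = u)
    (hu' : ∀ σ, A'.s σ u' = u') (hC : ¬ Null (Cong (K := K) Q Q' u u')) (p0 : ℕ) [Fact p0.Prime]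
    (κ0 : B →+* PadicAlgCl p0) (c0 : PadicAlgCl p0) :
    (Q.P p0 κ0).Val u c0 ↔ (Q'.P p0 κ0).Val u' c0 :=
  ⟨rigid Q Q' hu hu' hC p0 κ0, rigid Q' Q hu' hu
    (fun h => hC (h.mono fun _ hv => hv.symm)) p0 κ0⟩

end Pool.Agent.Q33.RG
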